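import Pool.Agent.Lib.MP_0087d5_lc.TW.Par

/-!
# T2, F2: ancestors (job Anc)

`Anc H u v = ReflTransGen (Par H) u v` (from the ancestor `u` down to `v`).
`anc_reach`: induction, `par_adj`. `anc_dist`: induction on `Anc` (tail: `u →* y`, `Par H y v`, `par_dist`; `Rt H r y` by `rt_same`). `anc_eq`: if the distances are equal then there is no step.
`anc_chain`: induction on `Anc H a v` (tail). `a = v`: right. `a →* y`, `Par H y v`: if `b = v` then `Anc H a b`; otherwise (`Relation.ReflTransGen.cases_tail`) `b →* y'`, `Par H y' v`, `y' = y` by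
`par_unique`, use the induction hypothesis.
`anc_root`: strong induction on `H.dist r v`: `v = r` or `par_exists`. `anc_step`: `Relation.ReflTransGen.cases_head`. `anc_last`: `Relation.ReflTransGen.cases_tail`.
`lca`: among the common ancestors of `u`, `v` (the root is one, `anc_root`) take one, `w`, with the largest `H.dist r w`; another common ancestor `y` is comparable with `w` (`anc_chain`); if `Anc H w y` then
the distances are equal, so `w = y`.
-/

set_option autoImplicit false
set_option linter.all false

namespace Pool.Agent.TW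

open Relation

variable {n : ℕ} {H : SimpleGraph (Fin n)}

theorem anc_refl (u : Fin n) : Anc H u u := ReflTransGen.refl

theorem anc_trans {u v w : Fin n} (h : Anc H u v) (h' : Anc H v w) : Anc H u w := ReflTransGen.trans h h'

theorem anc_reach {u v : Fin n} (h : Anc H u v) : H.Reachable u v := by
  induction h with
  | refl => exact SimpleGraph.Reachable.refl _
  | tail _ hbc ih => exact ih.trans (par_adj hbc).symm.reachable

theorem anc_dist {u v r : Fin n} (h : Anc H u v) (hr : Rt H r v) : H.dist r u ≤ H.dist r v := by
  induction h with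
  | refl => exact le_rfl
  | tail _ hbc ih =>
    have h1 := ih (rt_same hr (par_adj hbc).reachable)
    have h2 := par_dist hbc hr
    omega

theorem anc_eq {u v r : Fin n} (h : Anc H u v) (hr : Rt H r v) (hd : H.dist r v ≤ H.dist r u) : u = v := by
  rcases ReflTransGen.cases_tail h with h1 | ⟨y, hy, hyv⟩
  · exact h1.symm
  · have h1 := anc_dist hy (rt_same hr (par_adj hyv).reachable)
    have h2 := par_dist hyv hr
    omega

theorem anc_antisymm {u v : Fin n} (h : Anc H u v) (h' : Anc H v u) : u = v := by
  obtain ⟨r, hr⟩ := rt_exists (H := H) v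
  exact anc_eq h hr (anc_dist h' (rt_same hr (anc_reach h).symm))

theorem anc_chain {a b v : Fin n} (h : Anc H a v) (h' : Anc H b v) : Anc H a b ∨ Anc H b a := by
  induction h with
  | refl => exact Or.inr h'
  | tail hay hyv ih =>
    rcases ReflTransGen.cases_tail h' with h1 | ⟨y', hy', hyv'⟩
    · left
      rw [← h1]
      exact ReflTransGen.tail hay hyv
    · rw [par_unique hyv' hyv] at hy'
      exact ih hy'

theorem anc_root {r v : Fin n} (hr : Rt H r v) : Anc H r v := by
  obtain ⟨m, hm⟩ : ∃ m, H.dist r v = m := ⟨_, rfl⟩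
  induction m generalizing v with
  | zero =>
    by_cases hv : v = r
    · rw [hv]
      exact anc_refl r
    · obtain ⟨y, hy⟩ := par_exists hr hv
      have h1 := par_dist hy hr
      omega
  | succ m ih =>
    by_cases hv : v = r
    · rw [hv]
      exact anc_refl r
    · obtain ⟨y, hy⟩ := par_exists hr hv
      have h1 := par_dist hy hr
      exact ReflTransGen.tail (ih (rt_same hr (par_adj hy).reachable) (by omega)) hy

theorem anc_step {u v : Fin n} (h : Anc H u v) (hne : u ≠ v) : ∃ c, Par H u c ∧ Anc H c v := by
  rcases ReflTransGen.cases_head h with h1 | ⟨c, hc, hcv⟩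
  · exact absurd h1 hne
  · exact ⟨c, hc, hcv⟩

theorem anc_last {u v : Fin n} (h : Anc H u v) (hne : u ≠ v) : ∃ y, Par H y v ∧ Anc H u y := by
  rcases ReflTransGen.cases_tail h with h1 | ⟨c, hc, hcv⟩
  · exact absurd h1.symm hne
  · exact ⟨c, hcv, hc⟩

/-- the ancestors of a child: the child itself and the ancestors of the parent -/
theorem anc_child {u w a : Fin n} (ha : Par H w a) (h : Anc H u a) : u = a ∨ Anc H u w := by
  rcases ReflTransGen.cases_tail h with h1 | ⟨c, hc, hca⟩
  · exact Or.inl h1.symm
  · right
    rw [par_unique ha hca]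
    exact hc

/-- a child is no ancestor of its parent -/
theorem anc_not {w a : Fin n} (ha : Par H w a) : ¬ Anc H a w := by
  intro h
  obtain ⟨r, hr⟩ := rt_exists (H := H) a
  have h1 := par_dist ha hr
  have h2 := anc_dist h (rt_same hr (par_adj ha).reachable)
  omega

/-- the lowest common ancestor -/
theorem lca {u v : Fin n} (h : H.Reachable u v) : ∃ w, Anc H w u ∧ Anc H w v ∧ ∀ y, Anc H y u → Anc H y v → Anc H y w := by
  classical
  obtain ⟨r, hr⟩ := rt_exists (H := H) u
  obtain ⟨w, hw, hmax⟩ := Finset.exists_max_image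
    (Finset.univ.filter fun w => Anc H w u ∧ Anc H w v) (fun w => H.dist r w)
    ⟨r, by
      rw [Finset.mem_filter]
      exact ⟨Finset.mem_univ _, anc_root hr, anc_root (rt_same hr h)⟩⟩
  rw [Finset.mem_filter] at hw
  refine ⟨w, hw.2.1, hw.2.2, fun y hy hy' => ?_⟩
  rcases anc_chain hy hw.2.1 with h1 | h1
  · exact h1
  · have h2 := hmax y (by
      rw [Finset.mem_filter]
      exact ⟨Finset.mem_univ _, hy, hy'⟩)
    have h3 := anc_eq h1 (rt_same hr (anc_reach hy).symm) h2
    rw [h3]
    exact anc_refl y

end Pool.Agent.TW
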