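import Mathlib

/-!
# Balanced separators of small size: the definitions (first part, only graph theory)

Everything is a relation on `Fin n`; removing a vertex means deleting its edges (`del G S`).
`Anc H`: the breadth first search forest of `H` (root = least vertex of the component, parent = least neighbour which is nearer to the root), `Bef H`: the preorder, `pre H v`: the position of `v` in its component.
`wd G k x = (|component of x in G| - 1) / (8 k)`: the width of the blocks. `Blk G H k m v`: `v` is in the block with first vertex `m`. `Zm`: the lowest common ancestor of a block. `Hull G H k m`: the block together with the path from `m` to it.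
`cut H A B`: any function which gives separating sets. `newG`, `stepG`: one round. `SepG`: the separator.
-/

set_option autoImplicit false
set_option linter.all false

namespace Pool.Agent.TW

open Relation

variable {n : ℕ}

/-- Removing the vertices of `S` (they become isolated). -/
def del (G : SimpleGraph (Fin n)) (S : Set (Fin n)) : SimpleGraph (Fin n) where
  Adj x y := G.Adj x y ∧ x ∉ S ∧ y ∉ S
  symm := ⟨fun _ _ h => ⟨h.1.symm, h.2.2, h.2.1⟩⟩
  loopless := ⟨fun _ h => G.loopless.irrefl _ h.1⟩

/-- The component of `x`. -/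
def cmp (G : SimpleGraph (Fin n)) (x : Fin n) : Set (Fin n) := {y | G.Reachable x y}

/-- `X` separates `A` and `B` in `H`. -/
def Sp (H : SimpleGraph (Fin n)) (X A B : Set (Fin n)) : Prop :=
  ∀ a ∈ A, ∀ b ∈ B, a ∉ X → b ∉ X → ¬ (del H X).Reachable a b

section forest

variable (H : SimpleGraph (Fin n))

/-- `r` is the root of the component of `x`. -/
def Rt (r x : Fin n) : Prop := H.Reachable r x ∧ ∀ y, H.Reachable y x → r ≤ y

/-- `y` is a neighbour of `x` which is nearer to the root. -/
def Nr (y x : Fin n) : Prop := H.Adj x y ∧ ∃ r, Rt H r x ∧ H.dist r y + 1 = H.dist r x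

/-- `y` is the parent of `x`. -/
def Par (y x : Fin n) : Prop := Nr H y x ∧ ∀ z, Nr H z x → y ≤ z

/-- `u` is an ancestor of `v` or equal to `v`. -/
def Anc (u v : Fin n) : Prop := ReflTransGen (Par H) u v

/-- `u` is before `v` in the preorder of their component. -/
def Bef (u v : Fin n) : Prop :=
  (Anc H u v ∧ u ≠ v) ∨ ∃ a b w, Par H w a ∧ Par H w b ∧ a < b ∧ Anc H a u ∧ Anc H b v

/-- The number of vertices before `v`. -/
noncomputable def pre (v : Fin n) : ℕ := {u | Bef H u v}.ncard

end forest

section blocks

variable (G H : SimpleGraph (Fin n)) (k : ℕ)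

/-- The width of the blocks in the component of `x` in `G`. -/
noncomputable def wd (x : Fin n) : ℕ := ((cmp G x).ncard - 1) / (8 * k)

/-- `v` is in the block with the first vertex `m`. -/
def Blk (m v : Fin n) : Prop :=
  H.Reachable m v ∧ wd G k m ∣ pre H m ∧ pre H m ≤ pre H v ∧ pre H v < pre H m + wd G k m

/-- `l` is the last vertex of the block. -/
def Lst (m l : Fin n) : Prop := Blk G H k m l ∧ ∀ v, Blk G H k m v → pre H v ≤ pre H l

/-- `z` is the lowest common ancestor of the block. -/
def Zm (z m : Fin n) : Prop := ∃ l, Lst G H k m l ∧ Anc H z m ∧ Anc H z l ∧ ∀ y, Anc H y m → Anc H y l → Anc H y z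

/-- The hull of the block. -/
def Hull (m : Fin n) : Set (Fin n) := {x | Blk G H k m x ∨ (Anc H x m ∧ ∃ z, Zm G H k z m ∧ Anc H z x)}

/-- The component of `x` in `H` is large. -/
def Big (x : Fin n) : Prop := 3 * (cmp G x).ncard < 4 * (cmp H x).ncard

/-- The vertices that are removed in one round; `cut A B` is the separating set of `A` and `B` in `H`. -/
def newG (cut : Set (Fin n) → Set (Fin n) → Set (Fin n)) : Set (Fin n) :=
  {x | (∃ m, Big G H m ∧ Zm G H k x m) ∨
    ∃ m m', Big G H m ∧ H.Reachable m x ∧ H.Reachable m m' ∧ m < m' ∧ Blk G H k m m ∧ Blk G H k m' m' ∧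
      x ∈ cut (Hull G H k m) (Hull G H k m')}

/-- One round: `S` is the set of the vertices which have been removed. -/
def stepG (cut : SimpleGraph (Fin n) → Set (Fin n) → Set (Fin n) → Set (Fin n)) (S : Set (Fin n)) : Set (Fin n) :=
  S ∪ newG G (del G S) k (cut (del G S))

/-- The separators of all components of `G`, after `R` rounds. -/
def SepG (cut : SimpleGraph (Fin n) → Set (Fin n) → Set (Fin n) → Set (Fin n)) (R : ℕ) : Set (Fin n) :=
  {x | (cmp G x).ncard ≤ 8 * k} ∪ (stepG G k cut)^[R] ∅

end blocks

/-- `X` is a balanced separator of the component of `x`. -/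
def Bal (G : SimpleGraph (Fin n)) (X : Set (Fin n)) (x : Fin n) : Prop :=
  ∀ y, G.Reachable x y → y ∉ X → 2 * (cmp (del G X) y).ncard ≤ (cmp G x).ncard

/-- All components of all subgraphs have balanced separators with at most `k` elements. -/
def HBal (G : SimpleGraph (Fin n)) (k : ℕ) : Prop := ∀ H ≤ G, ∀ x, ∃ X : Set (Fin n), X.ncard ≤ k ∧ Bal H X x

/-- `G` has treewidth at most `k`: there is a tree `T` with bags `B i` of at most `k + 1` vertices, every vertex and every edge of `G` is in a bag, and for every vertex the bags which contain it are connected in `T`. -/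
def TwLE (G : SimpleGraph (Fin n)) (k : ℕ) : Prop :=
  ∃ (m : ℕ) (T : SimpleGraph (Fin m)) (B : Fin m → Set (Fin n)), T.IsTree ∧ (∀ i, (B i).ncard ≤ k + 1) ∧ (∀ v, ∃ i, v ∈ B i) ∧
    (∀ u v, G.Adj u v → ∃ i, u ∈ B i ∧ v ∈ B i) ∧ ∀ v, (T.induce {i | v ∈ B i}).Preconnected

end Pool.Agent.TW
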