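import Pool.Agent.Lib.MP_0087d5_lc.TW.Anc

/-!
# T2, F3, F4: the preorder (jobs Bef1: `bef_reach`, `split_bef`, `bef_irrefl`, `bef_total`; Bef2: `bef_trans`, `sub_interval`)

`bef_irrefl`: first case trivial. Second case: `a`, `b` with the same parent `w` are both ancestors of `u`, so comparable (`anc_chain`); `Anc H a b`: `anc_child` gives `a = b` (no, `a < b`) or `Anc H a w`
(no, `anc_not`). The other case in the same way.
`bef_total`: `lca` gives `w`. `w = u`: `Anc H u v`, so `Bef H u v`. `w = v`: `Bef H v u`. Otherwise `anc_step` gives children `a`, `b` of `w` with `Anc H a u`, `Anc H b v`; `a ≠ b`, otherwise `Anc H a w`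
(maximality of `w`), contradiction to `anc_not`. So `a < b` or `b < a`.
`bef_trans`: four cases for `Bef H u v`, `Bef H v x`.
 (1) `Anc H u v`, `Anc H v x`: `Anc H u x`, and `u ≠ x` by `anc_antisymm`.
 (2) `Anc H u v`, `(a, b, w)` for `v`, `x` (`Anc H a v`, `Anc H b x`): `anc_chain` for `u`, `a` over `v`. `Anc H a u`: `(a, b, w)` is a split for `u`, `x`. `Anc H u a`: `anc_child`: `u = a` (then `Anc H a u`, as before)
 or `Anc H u w`, so `Anc H u b`, `Anc H u x`; `u ≠ x`, since `u = x` gives `Anc H b w`, contradiction to `anc_not`.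
 (3) `(a, b, w)` for `u`, `v`, `Anc H v x`: `(a, b, w)` for `u`, `x`.
 (4) `(a, b, w)` for `u`, `v`, and `(a', b', w')` for `v`, `x`: `anc_chain` for `b`, `a'` over `v`. `Anc H b a'`: `anc_child`: `b = a'` (then `w = w'` by `par_unique` and `a < b = a' < b'`: `(a, b', w)`) or
 `Anc H b w'`, so `Anc H b b'`, `Anc H b x`: `(a, b, w)`. `Anc H a' b`: `a' = b` as before or `Anc H a' w`, so `Anc H a' a`, `Anc H a' u`: `(a', b', w')` for `u`, `x`.
`sub_interval` (the subtree of `x` is an interval): `a = v` or `v = b` or `Anc H a v` are trivial. Otherwise `Bef H a v` by `(p, q, w)`, `Anc H p a`, `Anc H q v`, `p < q`. `anc_chain` for `x`, `p` over `a`.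
 `Anc H x p`: `anc_child`: `Anc H x w` gives `Anc H x q`, `Anc H x v`. In the other cases (`x = p` or `Anc H p x`) we have `Anc H p b`, so `(p, q, w)` gives `Bef H b v`; with `Bef H v b` and `bef_trans` this
 contradicts `bef_irrefl`.
-/

set_option autoImplicit false
set_option linter.all false

namespace Pool.Agent.TW

open Relation

variable {n : ℕ} {H : SimpleGraph (Fin n)}

theorem bef_reach {u v : Fin n} (h : Bef H u v) : H.Reachable u v := by
  rcases h with ⟨h, _⟩ | ⟨a, b, w, ha, hb, _, h1, h2⟩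
  · exact anc_reach h
  · exact ((anc_reach h1).symm.trans (par_adj ha).reachable).trans
      ((par_adj hb).reachable.symm.trans (anc_reach h2))

theorem bef_irrefl (u : Fin n) : ¬ Bef H u u := by
  rintro (⟨_, h⟩ | ⟨a, b, w, ha, hb, hab, h1, h2⟩)
  · exact h rfl
  · rcases anc_chain h1 h2 with h | h
    · rcases anc_child hb h with h | h
      · exact absurd h (ne_of_lt hab)
      · exact anc_not ha h
    · rcases anc_child ha h with h | h
      · exact absurd h.symm (ne_of_lt hab)
      · exact anc_not hb h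

theorem bef_total {u v : Fin n} (h : H.Reachable u v) (hne : u ≠ v) : Bef H u v ∨ Bef H v u := by
  obtain ⟨w, hwu, hwv, hmax⟩ := lca h
  by_cases h1 : w = u
  · subst h1
    exact Or.inl (Or.inl ⟨hwv, hne⟩)
  by_cases h2 : w = v
  · subst h2
    exact Or.inr (Or.inl ⟨hwu, fun e => hne e.symm⟩)
  obtain ⟨a, ha, hau⟩ := anc_step hwu h1
  obtain ⟨b, hb, hbv⟩ := anc_step hwv h2
  have hab : a ≠ b := by
    intro e
    subst e
    exact anc_not ha (hmax a hau hbv)
  rcases lt_or_gt_of_ne hab with hlt | hlt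
  · exact Or.inl (Or.inr ⟨a, b, w, ha, hb, hlt, hau, hbv⟩)
  · exact Or.inr (Or.inr ⟨b, a, w, hb, ha, hlt, hbv, hau⟩)

theorem bef_trans {u v x : Fin n} (h : Bef H u v) (h' : Bef H v x) : Bef H u x := by
  rcases h with ⟨huv, hne⟩ | ⟨a, b, w, hwa, hwb, hab, hau, hbv⟩
  · rcases h' with ⟨hvx, hne'⟩ | ⟨a, b, w, hwa, hwb, hab, hav, hbx⟩
    · refine Or.inl ⟨anc_trans huv hvx, ?_⟩
      intro e
      rw [← e] at hvx
      exact hne (anc_antisymm huv hvx)
    · rcases anc_chain huv hav with h1 | h1
      · rcases anc_child hwa h1 with h2 | h2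
        · rw [h2]
          exact Or.inr ⟨a, b, w, hwa, hwb, hab, anc_refl a, hbx⟩
        · refine Or.inl ⟨anc_trans h2 (anc_trans (ReflTransGen.single hwb) hbx), ?_⟩
          intro e
          rw [← e] at hbx
          exact anc_not hwb (anc_trans hbx h2)
      · exact Or.inr ⟨a, b, w, hwa, hwb, hab, h1, hbx⟩
  · rcases h' with ⟨hvx, hne'⟩ | ⟨a', b', w', hwa', hwb', hab', hav', hbx'⟩
    · exact Or.inr ⟨a, b, w, hwa, hwb, hab, hau, anc_trans hbv hvx⟩
    · have key : b = a' → Bef H u x := by
        intro e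
        rw [← e] at hwa' hab'
        have hw : w = w' := par_unique hwb hwa'
        rw [← hw] at hwb'
        exact Or.inr ⟨a, b', w, hwa, hwb', lt_trans hab hab', hau, hbx'⟩
      rcases anc_chain hbv hav' with h1 | h1
      · rcases anc_child hwa' h1 with h2 | h2
        · exact key h2
        · exact Or.inr ⟨a, b, w, hwa, hwb, hab, hau,
            anc_trans h2 (anc_trans (ReflTransGen.single hwb') hbx')⟩
      · rcases anc_child hwb h1 with h2 | h2
        · exact key h2.symm
        · exact Or.inr ⟨a', b', w', hwa', hwb', hab',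
            anc_trans h2 (anc_trans (ReflTransGen.single hwa) hau), hbx'⟩

theorem sub_interval {x a b v : Fin n} (ha : Anc H x a) (hb : Anc H x b) (h1 : a = v ∨ Bef H a v) (h2 : v = b ∨ Bef H v b) : Anc H x v := by
  rcases h1 with h1 | h1
  · rw [← h1]
    exact ha
  rcases h2 with h2 | h2
  · rw [h2]
    exact hb
  rcases h1 with ⟨hav, _⟩ | ⟨p, q, w, hwp, hwq, hpq, hpa, hqv⟩
  · exact anc_trans ha hav
  have key : Anc H p b → Anc H x v := by
    intro hpb
    have h3 : Bef H b v := Or.inr ⟨p, q, w, hwp, hwq, hpq, hpb, hqv⟩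
    exact absurd (bef_trans h3 h2) (bef_irrefl b)
  rcases anc_chain ha hpa with h3 | h3
  · rcases anc_child hwp h3 with h4 | h4
    · rw [h4] at hb
      exact key hb
    · exact anc_trans h4 (anc_trans (ReflTransGen.single hwq) hqv)
  · exact key (anc_trans h3 hb)

end Pool.Agent.TW
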