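import Pool.Agent.Lib.MP_0087d5_lc.TW.Pre

/-!
# T2, F6: blocks (job Blk)

`w = wd G k m`. `wd_eq`: `cmp_eq` for `G`. In `Blk G H k m v` we have `0 < w`, since `pre H m ≤ pre H v < pre H m + w`.
`blk_exists`: `pre_surj` with `i = w * (pre H v / w) ≤ pre H v < (cmp H v).ncard` (`pre_bound`), `w = wd G k v`; `wd G k m = w` by `wd_eq` (`H ≤ G`: `SimpleGraph.Reachable.mono`).
`blk_unique`: `pre H m`, `pre H m'` are multiples of the same `w` and the numbers `pre H v` lie in `[pre H m, pre H m + w)` and in `[pre H m', pre H m' + w)`, so they are equal (`pre H m = w * a`, `pre H m' = w * b`,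
`a < b + 1`, `b < a + 1`); `pre_inj`.
`lst_exists`: a maximum of `pre H` on the finite nonempty set `{v | Blk G H k m v}`.
`zm_exists`: `lst_exists`, `lca`. `lst_unique`: `pre_inj`. `zm_unique`: `lst_unique`, the two lowest common ancestors are ancestors of each other, `anc_antisymm`.
`zm_anc`: `z` is an ancestor of `m` and of the last vertex `l`, `pre H m ≤ pre H v ≤ pre H l`: `pre_sub`.
`blk_card`: `pre H` is injective on the block (`pre_inj`) with values in `Finset.Ico (pre H m) (pre H m + w)`.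
-/

set_option autoImplicit false
set_option linter.all false

namespace Pool.Agent.TW

open Relation

variable {n : ℕ} {G H : SimpleGraph (Fin n)} {k : ℕ}

theorem wd_eq {x y : Fin n} (h : G.Reachable x y) : wd G k x = wd G k y := by
  unfold wd
  rw [cmp_eq h]

theorem blk_pos {m v : Fin n} (h : Blk G H k m v) : 0 < wd G k m := by
  have h1 := h.2.2.1
  have h2 := h.2.2.2
  omega

theorem blk_self {m v : Fin n} (h : Blk G H k m v) : Blk G H k m m := by
  have h1 := blk_pos h
  exact ⟨SimpleGraph.Reachable.refl _, h.2.1, le_refl _, by omega⟩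

theorem blk_exists (hG : H ≤ G) {v : Fin n} (h : 0 < wd G k v) : ∃ m, Blk G H k m v := by
  have h1 : wd G k v * (pre H v / wd G k v) ≤ pre H v := Nat.mul_div_le _ _
  obtain ⟨m, hm, hp⟩ := pre_surj (lt_of_le_of_lt h1 (pre_bound v))
  have hw : wd G k m = wd G k v := wd_eq (hm.mono hG).symm
  refine ⟨m, hm.symm, ?_, ?_, ?_⟩
  · rw [hw, hp]
    exact Dvd.intro _ rfl
  · rw [hp]
    exact h1
  · rw [hw, hp]
    have h2 := Nat.lt_mul_div_succ (pre H v) h
    rw [Nat.mul_add, Nat.mul_one] at h2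
    exact h2

theorem blk_unique (hG : H ≤ G) {m m' v : Fin n} (h : Blk G H k m v) (h' : Blk G H k m' v) : m = m' := by
  have hr : H.Reachable m m' := h.1.trans h'.1.symm
  have hw : wd G k m' = wd G k m := wd_eq (hr.mono hG).symm
  obtain ⟨_, ⟨a, ha⟩, h1, h2⟩ := h
  obtain ⟨_, ⟨b, hb⟩, h3, h4⟩ := h'
  rw [hw] at hb h4
  have hab : a = b := by
    rw [ha] at h1 h2
    rw [hb] at h3 h4
    have e1 : wd G k m * a < wd G k m * (b + 1) := by
      rw [Nat.mul_add, Nat.mul_one]
      omega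
    have e2 : wd G k m * b < wd G k m * (a + 1) := by
      rw [Nat.mul_add, Nat.mul_one]
      omega
    have e3 := Nat.lt_of_mul_lt_mul_left e1
    have e4 := Nat.lt_of_mul_lt_mul_left e2
    omega
  refine pre_inj hr ?_
  rw [ha, hb, hab]

theorem lst_exists {m : Fin n} (h : Blk G H k m m) : ∃ l, Lst G H k m l := by
  classical
  obtain ⟨l, hl, hmax⟩ := Finset.exists_max_image (Finset.univ.filter fun v => Blk G H k m v) (pre H)
    ⟨m, Finset.mem_filter.2 ⟨Finset.mem_univ _, h⟩⟩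
  exact ⟨l, (Finset.mem_filter.1 hl).2, fun v hv => hmax v (Finset.mem_filter.2 ⟨Finset.mem_univ _, hv⟩)⟩

theorem lst_unique {m l l' : Fin n} (h : Lst G H k m l) (h' : Lst G H k m l') : l = l' := by
  refine pre_inj (h.1.1.symm.trans h'.1.1) ?_
  exact le_antisymm (h'.2 l h.1) (h.2 l' h'.1)

theorem zm_exists {m : Fin n} (h : Blk G H k m m) : ∃ z, Zm G H k z m := by
  obtain ⟨l, hl⟩ := lst_exists h
  obtain ⟨z, h1, h2, h3⟩ := lca hl.1.1
  exact ⟨z, l, hl, h1, h2, h3⟩

theorem zm_unique {m z z' : Fin n} (h : Zm G H k z m) (h' : Zm G H k z' m) : z = z' := by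
  obtain ⟨l, hl, h1, h2, h3⟩ := h
  obtain ⟨l', hl', h1', h2', h3'⟩ := h'
  have e := lst_unique hl hl'
  subst e
  exact anc_antisymm (h3' z h1 h2) (h3 z' h1' h2')

theorem zm_anc {m z v : Fin n} (h : Zm G H k z m) (hv : Blk G H k m v) : Anc H z v := by
  obtain ⟨l, hl, h1, h2, h3⟩ := h
  exact pre_sub h1 h2 ((anc_reach h1).trans hv.1) hv.2.2.1 (hl.2 v hv)

theorem blk_card (m : Fin n) : {v | Blk G H k m v}.ncard ≤ wd G k m := by
  have h1 : {v | Blk G H k m v}.ncard ≤ (Finset.Ico (pre H m) (pre H m + wd G k m) : Set ℕ).ncard := by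
    refine Set.ncard_le_ncard_of_injOn (pre H) ?_ ?_ (Set.toFinite _)
    · intro v hv
      rw [Finset.coe_Ico, Set.mem_Ico]
      exact ⟨hv.2.2.1, hv.2.2.2⟩
    · intro v hv v' hv' he
      exact pre_inj (hv.1.symm.trans hv'.1) he
  rw [Set.ncard_coe_finset, Nat.card_Ico] at h1
  omega

end Pool.Agent.TW
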