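import Pool.Agent.Lib.MP_0087d5_lc.TW.Blk

/-!
# T2, F6: hulls (job HullC)

`hull_anc`: `v ∈ Hull`: a vertex of the block: `zm_anc`; a vertex `x` with `Anc H x m` and `Anc H z' x` for some `z'` with `Zm G H k z' m`: `z' = z` by `zm_unique`.
`hull_up`: `x` between `z` and `v ∈ Hull`. If `v` is in the block: `pre H x ≤ pre H v` (`pre_anc`). If `pre H m ≤ pre H x` then `x` is in the block (`H.Reachable m x`: `anc_reach`). Otherwise `pre H x < pre H m ≤ pre H v`
and `Anc H x x`, `Anc H x v`, so `Anc H x m` by `pre_sub`, so `x ∈ Hull`. If `Anc H v m` then `Anc H x m` and `x ∈ Hull`.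
`hull_conn`: it is enough to show `(del H X).Reachable z v` for all `v ∈ Hull`: induction on `Anc H z v` (tail): `z →* y`, `Par H y v`: `y ∈ Hull` by `hull_up`, so the induction hypothesis applies, and `y`, `v` are adjacent in
`del H X` (`par_adj`, both are in the hull, so not in `X`).
`hull_two`: let `e` be the last vertex of the subtree of `x` (a maximum of `pre H` on the finite set `{v | Anc H x v}`). Then every `m` of the set satisfies `Blk G H k m x` or `Blk G H k m e`, and each of the two
conditions has at most one solution (`blk_unique`). Proof: let `x ∈ Hull` be not in the block of `m`: `Anc H x m`, `Zm G H k z m`, `Anc H z x`, `z ≠ x` (by `hx`). Let `l` be the last vertex of the block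
of `Zm`. `¬ Anc H x l`: otherwise `Anc H x z` (`z` is the lowest common ancestor) and `x = z`. `pre H m ≤ pre H e` (maximality). If `pre H l ≤ pre H e` then `pre_sub` (for `x`, `m`, `e`, `l`) gives `Anc H x l`. So
`pre H e < pre H l < pre H m + w`, and `e` is in the block of `m` (`H.Reachable m e` by `anc_reach`).
-/

set_option autoImplicit false
set_option linter.all false

namespace Pool.Agent.TW

open Relation

variable {n : ℕ} {G H : SimpleGraph (Fin n)} {k : ℕ}

theorem blk_hull {m v : Fin n} (h : Blk G H k m v) : v ∈ Hull G H k m := Or.inl h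

theorem hull_reach {m v : Fin n} (h : v ∈ Hull G H k m) : H.Reachable m v := by
  rcases h with h | ⟨h, _⟩
  · exact h.1
  · exact (anc_reach h).symm

theorem hull_anc {m z v : Fin n} (hz : Zm G H k z m) (h : v ∈ Hull G H k m) : Anc H z v := by
  rcases h with h | ⟨_, z', hz', h⟩
  · exact zm_anc hz h
  · rw [zm_unique hz hz']
    exact h

theorem hull_up {m z v x : Fin n} (hz : Zm G H k z m) (h : v ∈ Hull G H k m) (h1 : Anc H z x) (h2 : Anc H x v) : x ∈ Hull G H k m := by
  have hr := hull_reach h
  rcases h with h | ⟨h, _⟩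
  · by_cases hle : pre H m ≤ pre H x
    · left
      exact ⟨hr.trans (anc_reach h2).symm, h.2.1, hle, lt_of_le_of_lt (pre_anc h2) h.2.2.2⟩
    · push Not at hle
      right
      refine ⟨?_, z, hz, h1⟩
      exact pre_sub (anc_refl x) h2 ((anc_reach h2).trans hr.symm) hle.le h.2.2.1
  · exact Or.inr ⟨anc_trans h2 h, z, hz, h1⟩

theorem hull_conn {m : Fin n} {X : Set (Fin n)} (hm : Blk G H k m m) (hX : ∀ x ∈ Hull G H k m, x ∉ X) {u v : Fin n} (hu : u ∈ Hull G H k m) (hv : v ∈ Hull G H k m) :
    (del H X).Reachable u v := by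
  obtain ⟨z, hz⟩ := zm_exists hm
  have key : ∀ v, Anc H z v → v ∈ Hull G H k m → (del H X).Reachable z v := by
    intro v ha
    induction ha with
    | refl => exact fun _ => SimpleGraph.Reachable.refl _
    | @tail b c hab hbc ih =>
      intro hc
      have hb : b ∈ Hull G H k m := hull_up hz hc hab (ReflTransGen.single hbc)
      have hadj : (del H X).Adj b c := ⟨(par_adj hbc).symm, hX b hb, hX c hc⟩
      exact (ih hb).trans hadj.reachable
  exact (key u (hull_anc hz hu) hu).symm.trans (key v (hull_anc hz hv) hv)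

private theorem hullc2_last (x : Fin n) : ∃ e, Anc H x e ∧ ∀ v, Anc H x v → pre H v ≤ pre H e := by
  classical
  obtain ⟨e, he, hmax⟩ := Finset.exists_max_image (Finset.univ.filter fun v => Anc H x v) (pre H)
    ⟨x, Finset.mem_filter.2 ⟨Finset.mem_univ _, anc_refl x⟩⟩
  exact ⟨e, (Finset.mem_filter.1 he).2, fun v hv => hmax v (Finset.mem_filter.2 ⟨Finset.mem_univ _, hv⟩)⟩

private theorem hullc2_one (hG : H ≤ G) (v : Fin n) : {m | Blk G H k m v}.ncard ≤ 1 := by
  rw [Set.ncard_le_one (Set.toFinite _)]
  intro a ha b hb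
  exact blk_unique hG ha hb

theorem hull_two (hG : H ≤ G) {x : Fin n} (hx : ∀ m, ¬ Zm G H k x m) : {m | Blk G H k m m ∧ x ∈ Hull G H k m}.ncard ≤ 2 := by
  obtain ⟨e, he, hmax⟩ := hullc2_last (H := H) x
  have hsub : {m | Blk G H k m m ∧ x ∈ Hull G H k m} ⊆ {m | Blk G H k m x} ∪ {m | Blk G H k m e} := by
    rintro m ⟨hm, hxm⟩
    by_cases hb : Blk G H k m x
    · exact Or.inl hb
    · right
      rcases hxm with hxm | ⟨hxm, z, hz, hzx⟩
      · exact absurd hxm hb
      · have hne : z ≠ x := by
          rintro rfl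
          exact hx m hz
        obtain ⟨l, hl, hzm, hzl, hlow⟩ := hz
        have hnl : ¬ Anc H x l := by
          intro h
          exact hne (anc_antisymm hzx (hlow x hxm h))
        have h1 : pre H m ≤ pre H e := hmax m hxm
        have hml : H.Reachable m l := hl.1.1
        have hxl : H.Reachable x l := (anc_reach hxm).trans hml
        have h2 : pre H e < pre H l := by
          by_contra hcon
          push Not at hcon
          exact hnl (pre_sub hxm he hxl hl.1.2.2.1 hcon)
        exact ⟨(anc_reach hxm).symm.trans (anc_reach he), hm.2.1, h1, lt_trans h2 hl.1.2.2.2⟩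
  have h1 := hullc2_one (k := k) hG x
  have h2 := hullc2_one (k := k) hG e
  have h3 := Set.ncard_le_ncard hsub (Set.toFinite _)
  have h4 := Set.ncard_union_le {m | Blk G H k m x} {m | Blk G H k m e}
  omega

end Pool.Agent.TW
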