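import Pool.Agent.Lib.MP_0087d5_lc.TW.Del
import Pool.Agent.Lib.MP_0087d5_lc.TW.HullC

/-!
# T2, F7: one level (jobs ClmB1: `hit_card`, `pair_conn`; ClmB2: `claim_level`)

`hit_card`: the set is contained in the union over `x ∈ X` of the sets `{m | H.Reachable y m ∧ Blk G H k m m ∧ x ∈ Hull G H k m}`; each of them has at most two elements: if it is nonempty then `x` is in the component
of `y` in `H` (`hull_reach`), and `¬ Zm G H k x m` for all `m` (`Zm` gives `Anc H x m`, `anc_reach`, so `H.Reachable y m`), use `hull_two`. (`Finset.card_biUnion_le_card_mul` or induction.)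
`pair_conn`: otherwise (`u`, `v` not connected in `del H X`) `X` separates the hulls: if `a`, `b` in the hulls were connected, then `u`, `a`, `b`, `v` (`hull_conn` twice). So `Y` separates the hulls (`hcut`). But `q`, `q' ∉ Y`
(`hY`) and `(del H Y).Reachable q q'` by `reach_del`.
`claim_level`: let `w = wd G k y`, `0 < w` and `8 * k * w ≤ N - 1` (`N = (cmp G y).ncard`, `Nat.div_mul_le_self`). `T` = the set of `hit_card` (at most `2 k` elements), `B` = the union of the sets `{v | Blk G H k m v}`,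
`m ∈ T`: at most `2 k w` elements (`blk_card`, `wd_eq`). Every `q` in the component of `y` in `H'` is in a block (`blk_exists`) of some `m_q` with `H.Reachable y m_q`. Either `m_q ∈ T`, then `q ∈ B`. Or the hull of `m_q` does not
meet `X`; let `q₀` be one such vertex (if there is none, the component has at most `2 k w` elements). By `hpair` all such `q` are connected with `q₀` in `del H X ≤ del G X` (`del_mono`). So the component has at most
`2 k w + (cmp (del G X) q₀).ncard` elements, `2 * (cmp (del G X) q₀).ncard ≤ N` by `hBal` (`q₀ ∉ X` since `q₀` is in the hull of `m_{q₀}`; `G.Reachable y q₀`), and `4 (2 k w) + 2 N ≤ 3 N`.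
-/

set_option autoImplicit false
set_option linter.all false

namespace Pool.Agent.TW

open Relation

variable {n : ℕ} {G H H' : SimpleGraph (Fin n)} {k : ℕ} {y : Fin n} {X Y : Set (Fin n)}

theorem hit_card (hG : H ≤ G) (hX : ∀ z ∈ X, ∀ m, H.Reachable y m → ¬ Zm G H k z m) :
    {m | H.Reachable y m ∧ Blk G H k m m ∧ ∃ x ∈ X, x ∈ Hull G H k m}.ncard ≤ 2 * X.ncard := by
  classical
  have key : ∀ x ∈ X, {m | H.Reachable y m ∧ Blk G H k m m ∧ x ∈ Hull G H k m}.ncard ≤ 2 := by
    intro x hx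
    by_cases hne : ∃ m, H.Reachable y m ∧ Blk G H k m m ∧ x ∈ Hull G H k m
    · obtain ⟨m0, h0, _, h2⟩ := hne
      have hyx : H.Reachable y x := h0.trans (hull_reach h2)
      have hz : ∀ m, ¬ Zm G H k x m := by
        intro m hm
        obtain ⟨l, _, hxm, _⟩ := id hm
        exact hX x hx m (hyx.trans (anc_reach hxm)) hm
      refine le_trans (Set.ncard_le_ncard ?_ (Set.toFinite _)) (hull_two hG hz)
      intro m hm
      exact ⟨hm.2.1, hm.2.2⟩
    · have he : {m | H.Reachable y m ∧ Blk G H k m m ∧ x ∈ Hull G H k m} = ∅ := by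
        ext m
        constructor
        · intro hm
          exact (hne ⟨m, hm⟩).elim
        · intro hm
          exact hm.elim
      rw [he, Set.ncard_empty]
      exact Nat.zero_le _
  let f : Fin n → Finset (Fin n) := fun x => {m | H.Reachable y m ∧ Blk G H k m m ∧ x ∈ Hull G H k m}.toFinset
  have hf : ∀ x ∈ X.toFinset, (f x).card ≤ 2 := by
    intro x hx
    have h := key x (Set.mem_toFinset.mp hx)
    rw [Set.ncard_eq_toFinset_card'] at h
    exact h
  have hs : {m | H.Reachable y m ∧ Blk G H k m m ∧ ∃ x ∈ X, x ∈ Hull G H k m} ⊆ ((X.toFinset.biUnion f : Finset (Fin n)) : Set (Fin n)) := by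
    intro m hm
    obtain ⟨h1, h2, x, hx, h3⟩ := hm
    rw [Finset.mem_coe, Finset.mem_biUnion]
    exact ⟨x, Set.mem_toFinset.mpr hx, Set.mem_toFinset.mpr ⟨h1, h2, h3⟩⟩
  calc {m | H.Reachable y m ∧ Blk G H k m m ∧ ∃ x ∈ X, x ∈ Hull G H k m}.ncard
      ≤ ((X.toFinset.biUnion f : Finset (Fin n)) : Set (Fin n)).ncard := Set.ncard_le_ncard hs (Set.toFinite _)
    _ = (X.toFinset.biUnion f).card := Set.ncard_coe_finset _
    _ ≤ X.toFinset.card * 2 := Finset.card_biUnion_le_card_mul _ _ _ hf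
    _ = 2 * X.ncard := by rw [Set.ncard_eq_toFinset_card', mul_comm]

theorem pair_conn (hH : H' ≤ H) {m m' : Fin n} (hm : Blk G H k m m) (hm' : Blk G H k m' m') (hXm : ∀ x ∈ Hull G H k m, x ∉ X) (hXm' : ∀ x ∈ Hull G H k m', x ∉ X)
    (hcut : Sp H X (Hull G H k m) (Hull G H k m') → Sp H Y (Hull G H k m) (Hull G H k m')) (hY : ∀ x, H'.Reachable y x → x ∉ Y) {q q' : Fin n}
    (hq : q ∈ Hull G H k m) (hq' : q' ∈ Hull G H k m') (h1 : H'.Reachable y q) (h2 : H'.Reachable y q') {u v : Fin n} (hu : u ∈ Hull G H k m) (hv : v ∈ Hull G H k m') :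
    (del H X).Reachable u v := by
  by_contra hcon
  have hsp : Sp H X (Hull G H k m) (Hull G H k m') := by
    intro a ha b hb _ _ hab
    exact hcon (((hull_conn hm hXm hu ha).trans hab).trans (hull_conn hm' hXm' hb hv))
  exact (hcut hsp) q hq q' hq' (hY q h1) (hY q' h2) (reach_del hH (fun x hx => hY x (h1.trans hx)) (h1.symm.trans h2))

theorem claim_level (hG : H ≤ G) (hH : H' ≤ H) (hk : 1 ≤ k) (hN : 8 * k < (cmp G y).ncard) (hXk : X.ncard ≤ k) (hX : ∀ z ∈ X, ∀ m, H.Reachable y m → ¬ Zm G H k z m)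
    (hBal : ∀ x, G.Reachable y x → x ∉ X → 2 * (cmp (del G X) x).ncard ≤ (cmp G y).ncard)
    (hpair : ∀ m m', H.Reachable y m → H.Reachable y m' → Blk G H k m m → Blk G H k m' m' → (∀ x ∈ Hull G H k m, x ∉ X) → (∀ x ∈ Hull G H k m', x ∉ X) →
      (∃ q ∈ Hull G H k m, H'.Reachable y q) → (∃ q ∈ Hull G H k m', H'.Reachable y q) → ∀ u ∈ Hull G H k m, ∀ v ∈ Hull G H k m', (del H X).Reachable u v) :
    4 * (cmp H' y).ncard ≤ 3 * (cmp G y).ncard := by
  classical
  have hwpos : 0 < wd G k y := by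
    unfold wd
    exact Nat.div_pos (by omega) (by omega)
  have hw8 : 8 * (k * wd G k y) ≤ (cmp G y).ncard - 1 := by
    have h := Nat.mul_div_le ((cmp G y).ncard - 1) (8 * k)
    unfold wd
    rw [← mul_assoc]
    exact h
  let T : Set (Fin n) := {m | H.Reachable y m ∧ Blk G H k m m ∧ ∃ x ∈ X, x ∈ Hull G H k m}
  have hTc : T.ncard ≤ 2 * k := (hit_card hG hX).trans (by omega)
  let Bf : Finset (Fin n) := (Set.toFinite T).toFinset.biUnion (fun m => (Set.toFinite {v | Blk G H k m v}).toFinset)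
  have hB : Bf.card ≤ 2 * (k * wd G k y) := by
    have h1 : Bf.card ≤ (Set.toFinite T).toFinset.card * wd G k y := by
      refine Finset.card_biUnion_le_card_mul _ _ _ ?_
      intro m hm
      have hm' : m ∈ T := (Set.Finite.mem_toFinset _).mp hm
      rw [← Set.ncard_eq_toFinset_card]
      have h2 : wd G k y = wd G k m := wd_eq (hm'.1.mono hG)
      rw [h2]
      exact blk_card m
    rw [← Set.ncard_eq_toFinset_card T] at h1
    calc Bf.card ≤ T.ncard * wd G k y := h1
      _ ≤ 2 * k * wd G k y := Nat.mul_le_mul_right _ hTc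
      _ = 2 * (k * wd G k y) := mul_assoc _ _ _
  have hblk : ∀ q, H'.Reachable y q → ∃ m, Blk G H k m q ∧ H.Reachable y m := by
    intro q hq
    have hq' : H.Reachable y q := hq.mono hH
    have h2 : wd G k y = wd G k q := wd_eq (hq'.mono hG)
    obtain ⟨m, hm⟩ := blk_exists (k := k) hG (v := q) (by rw [← h2]; exact hwpos)
    exact ⟨m, hm, hq'.trans hm.1.symm⟩
  have hcase : ∀ q, H'.Reachable y q → q ∈ Bf ∨ ∃ m, Blk G H k m q ∧ H.Reachable y m ∧ ∀ x ∈ Hull G H k m, x ∉ X := by
    intro q hq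
    obtain ⟨m, hm, hym⟩ := hblk q hq
    by_cases h : ∃ x ∈ X, x ∈ Hull G H k m
    · left
      refine Finset.mem_biUnion.mpr ⟨m, (Set.Finite.mem_toFinset _).mpr ⟨hym, blk_self hm, h⟩, ?_⟩
      exact (Set.Finite.mem_toFinset _).mpr hm
    · right
      exact ⟨m, hm, hym, fun x hx hx' => h ⟨x, hx', hx⟩⟩
  by_cases hex : ∃ q, H'.Reachable y q ∧ ∃ m, Blk G H k m q ∧ H.Reachable y m ∧ ∀ x ∈ Hull G H k m, x ∉ X
  · obtain ⟨q0, hq0, m0, hm0, hym0, hXm0⟩ := hex
    have hsub : cmp H' y ⊆ (Bf : Set (Fin n)) ∪ cmp (del G X) q0 := by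
      intro q hq
      rcases hcase q hq with h | ⟨m, hm, hym, hXm⟩
      · exact Or.inl (Finset.mem_coe.mpr h)
      · right
        have h1 := hpair m0 m hym0 hym (blk_self hm0) (blk_self hm) hXm0 hXm ⟨q0, blk_hull hm0, hq0⟩ ⟨q, blk_hull hm, hq⟩
          q0 (blk_hull hm0) q (blk_hull hm)
        exact h1.mono (del_mono hG)
    have h1 : (cmp H' y).ncard ≤ Bf.card + (cmp (del G X) q0).ncard := by
      calc (cmp H' y).ncard ≤ ((Bf : Set (Fin n)) ∪ cmp (del G X) q0).ncard := Set.ncard_le_ncard hsub (Set.toFinite _)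
        _ ≤ (Bf : Set (Fin n)).ncard + (cmp (del G X) q0).ncard := Set.ncard_union_le _ _
        _ = Bf.card + (cmp (del G X) q0).ncard := by rw [Set.ncard_coe_finset]
    have h2 := hBal q0 ((hq0.mono hH).mono hG) (hXm0 q0 (blk_hull hm0))
    omega
  · have hsub : cmp H' y ⊆ (Bf : Set (Fin n)) := by
      intro q hq
      rcases hcase q hq with h | h
      · exact Finset.mem_coe.mpr h
      · exact absurd ⟨q, hq, h⟩ hex
    have h1 : (cmp H' y).ncard ≤ Bf.card := by
      calc (cmp H' y).ncard ≤ (Bf : Set (Fin n)).ncard := Set.ncard_le_ncard hsub (Set.toFinite _)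
        _ = Bf.card := Set.ncard_coe_finset _
    omega

end Pool.Agent.TW
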