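import Pool.Agent.Lib.MP_0087d5_lc.TW.ClmA
import Pool.Agent.Lib.MP_0087d5_lc.TW.ClmB

/-!
# T2, F7: the components are small (job Clm)

By contradiction. `cmp G x = cmp G y` (`cmp_eq`), `N = (cmp G y).ncard > 8 k` (`y` is not in the first part of `SepG`). `Si G k cut R ⊆ SepG G k cut R`, so `cmp (del G (SepG ..)) y ⊆ cmp (del G (Si G k cut R)) y`
(`del_anti`, `cmp_mono`), so `hQ : 3 * N < 4 * (cmp (del G (Si G k cut R)) y).ncard`. `hB G le_rfl y` gives `X`, `level_exists` gives `i < R`. `claim_level` for `H = del G (Si G k cut i)`, `H' = del G (Si G k cut R)`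
(`H' ≤ H` by `si_mono`, `del_anti`) contradicts `hQ`. `hpair` of `claim_level`: for `m = m'` use `hull_conn`. For `m < m'` use `pair_conn` with `Y = cut H (Hull G H k m) (Hull G H k m')`; its `hcut` is `hcut H _ _ ⟨X, hXk, ·⟩`;
its `hY`: let `H'.Reachable y x` and `x ∈ Y`. `H.Reachable y x`, so `H.Reachable m x`; so `x` is in the second part of `newG` (`big_level`), so `x ∈ Si (i + 1) ⊆ Si R` (`si_succ`, `si_mono`). But `x ∉ Si R` by `not_mem_of_card`
(`(cmp H' y).ncard > 1`). For `m' < m` exchange the roles (the connection is symmetric).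
-/

set_option autoImplicit false
set_option linter.all false

namespace Pool.Agent.TW

open Relation

variable {n : ℕ} {G : SimpleGraph (Fin n)} {k R : ℕ} {cut : SimpleGraph (Fin n) → Set (Fin n) → Set (Fin n) → Set (Fin n)}

theorem sepG_bal (hk : 1 ≤ k) (hR : k < R) (hcut : ∀ H A B, (∃ Y : Set (Fin n), Y.ncard ≤ k ∧ Sp H Y A B) → Sp H (cut H A B) A B) (hB : HBal G k) {x y : Fin n}
    (hxy : G.Reachable x y) (hy : y ∉ SepG G k cut R) : 4 * (cmp (del G (SepG G k cut R)) y).ncard ≤ 3 * (cmp G x).ncard := by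
  by_contra hcon
  have hGx : cmp G x = cmp G y := cmp_eq hxy
  have hN : 8 * k < (cmp G y).ncard := by
    by_contra h
    have h1 : (cmp G y).ncard ≤ 8 * k := by omega
    exact hy (Or.inl h1)
  have hsub : Si G k cut R ⊆ SepG G k cut R := fun z hz => Or.inr hz
  have hQ : 3 * (cmp G y).ncard < 4 * (cmp (del G (Si G k cut R)) y).ncard := by
    have h1 : cmp (del G (SepG G k cut R)) y ⊆ cmp (del G (Si G k cut R)) y :=
      cmp_mono (del_anti hsub) y
    have h2 := Set.ncard_le_ncard h1 (Set.toFinite _)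
    rw [hGx] at hcon
    omega
  have hQ1 : 1 < (cmp (del G (Si G k cut R)) y).ncard := by omega
  obtain ⟨X, hXk, hX⟩ := hB G le_rfl y
  obtain ⟨i, hi, hlev⟩ := level_exists (by omega : 1 < (cmp G y).ncard) hQ
    (lt_of_le_of_lt hXk hR)
  have hH : del G (Si G k cut R) ≤ del G (Si G k cut i) := del_anti (si_mono hi.le)
  have key : ∀ m m', m < m' → (del G (Si G k cut i)).Reachable y m →
      (del G (Si G k cut i)).Reachable y m' → Blk G (del G (Si G k cut i)) k m m →
      Blk G (del G (Si G k cut i)) k m' m' →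
      (∀ z ∈ Hull G (del G (Si G k cut i)) k m, z ∉ X) →
      (∀ z ∈ Hull G (del G (Si G k cut i)) k m', z ∉ X) →
      (∃ q ∈ Hull G (del G (Si G k cut i)) k m, (del G (Si G k cut R)).Reachable y q) →
      (∃ q ∈ Hull G (del G (Si G k cut i)) k m', (del G (Si G k cut R)).Reachable y q) →
      ∀ u ∈ Hull G (del G (Si G k cut i)) k m, ∀ v ∈ Hull G (del G (Si G k cut i)) k m',
        (del (del G (Si G k cut i)) X).Reachable u v := by
    intro m m' hlt hm hm' hbm hbm' hXm hXm' hq hq' u hu v hv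
    obtain ⟨q, hq, hyq⟩ := hq
    obtain ⟨q', hq', hyq'⟩ := hq'
    refine pair_conn hH hbm hbm' hXm hXm'
      (Y := cut (del G (Si G k cut i)) (Hull G (del G (Si G k cut i)) k m)
        (Hull G (del G (Si G k cut i)) k m'))
      (fun h => hcut _ _ _ ⟨X, hXk, h⟩) ?_ hq hq' hyq hyq' hu hv
    intro z hz hzY
    have h1 : z ∉ Si G k cut R := not_mem_of_card hz hQ1
    have h2 : z ∈ Si G k cut (i + 1) := by
      rw [si_succ]
      exact Or.inr (Or.inr ⟨m, m', big_level hQ hi.le hm, hm.symm.trans (hz.mono hH),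
        hm.symm.trans hm', hlt, hbm, hbm', hzY⟩)
    exact h1 (si_mono hi h2)
  have hfin := claim_level (G := G) (H := del G (Si G k cut i)) (H' := del G (Si G k cut R))
    (y := y) (X := X) (del_le _) hH hk hN hXk hlev (fun z hz hzX => hX z hz hzX)
    (fun m m' hm hm' hbm hbm' hXm hXm' hq hq' u hu v hv => by
      rcases lt_trichotomy m m' with hlt | heq | hgt
      · exact key m m' hlt hm hm' hbm hbm' hXm hXm' hq hq' u hu v hv
      · subst heq
        exact hull_conn hbm hXm hu hv
      · exact (key m' m hgt hm' hm hbm' hbm hXm' hXm hq' hq v hv u hu).symm)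
  omega

end Pool.Agent.TW
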