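import Pool.Agent.Lib.MP_0087d5_lc.TW.Del
import Pool.Agent.Lib.MP_0087d5_lc.TW.HullC

/-!
# T2, F7: the choice of the level (job ClmA)

Throughout `H_i = del G (Si G k cut i)`, and `hQ`: the component of `y` in `H_R` has more than `3/4` of the vertices of its component in `G`.
`big_level`: `cmp G m = cmp G y` and `cmp H_i m = cmp H_i y ⊇ cmp H_R y` (`cmp_eq`, `cmp_mono`, `del_anti`, `si_mono`).
`zi_mem`: `z` is in the first part of `newG G H_i k _` by `big_level`, `si_succ`.
`zi_not`: `Zm` gives `Anc H_i z m`, so `z` is in the component of `y` in `H_i`; it has more than one vertex (`3 * (cmp G y).ncard < 4 * (cmp H_i y).ncard` and `1 < (cmp G y).ncard`, so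
`(cmp H_i y).ncard > 1`): `not_mem_of_card`.
`level_exists`: otherwise choose for every `i < R` some `f i ∈ X` and `m` with `H_i.Reachable y m`, `Zm G H_i k (f i) m`. `f` is injective: for `i < j`, `f i ∈ Si (i + 1) ⊆ Si j` (`zi_mem`, `si_mono`) and
`f j ∉ Si j` (`zi_not`). So `R ≤ X.ncard` (`Finset.card_le_card_of_injOn` from `Finset.range R` to `X.toFinset`).
-/

set_option autoImplicit false
set_option linter.all false

namespace Pool.Agent.TW

open Relation

variable {n : ℕ} {G : SimpleGraph (Fin n)} {k R : ℕ} {cut : SimpleGraph (Fin n) → Set (Fin n) → Set (Fin n) → Set (Fin n)} {y : Fin n}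

theorem big_level (hQ : 3 * (cmp G y).ncard < 4 * (cmp (del G (Si G k cut R)) y).ncard) {i : ℕ} (hi : i ≤ R) {m : Fin n} (hm : (del G (Si G k cut i)).Reachable y m) :
    Big G (del G (Si G k cut i)) m := by
  have h1 : cmp G y = cmp G m := cmp_eq (hm.mono (del_le _))
  have h2 : cmp (del G (Si G k cut i)) y = cmp (del G (Si G k cut i)) m := cmp_eq hm
  have h3 : (cmp (del G (Si G k cut R)) y).ncard ≤ (cmp (del G (Si G k cut i)) y).ncard :=
    Set.ncard_le_ncard (cmp_mono (del_anti (si_mono hi)) y) (Set.toFinite _)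
  unfold Big
  rw [← h1, ← h2]
  omega

theorem zi_mem (hQ : 3 * (cmp G y).ncard < 4 * (cmp (del G (Si G k cut R)) y).ncard) {i : ℕ} (hi : i < R) {m z : Fin n} (hm : (del G (Si G k cut i)).Reachable y m)
    (hz : Zm G (del G (Si G k cut i)) k z m) : z ∈ Si G k cut (i + 1) := by
  rw [si_succ]
  exact Or.inr (Or.inl ⟨m, big_level hQ hi.le hm, hz⟩)

theorem zi_not (h1 : 1 < (cmp G y).ncard) (hQ : 3 * (cmp G y).ncard < 4 * (cmp (del G (Si G k cut R)) y).ncard) {i : ℕ} (hi : i < R) {m z : Fin n}
    (hm : (del G (Si G k cut i)).Reachable y m) (hz : Zm G (del G (Si G k cut i)) k z m) : z ∉ Si G k cut i := by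
  have h3 : (cmp (del G (Si G k cut R)) y).ncard ≤ (cmp (del G (Si G k cut i)) y).ncard :=
    Set.ncard_le_ncard (cmp_mono (del_anti (si_mono hi.le)) y) (Set.toFinite _)
  obtain ⟨l, _, h2, _⟩ := hz
  have h4 : (del G (Si G k cut i)).Reachable y z := hm.trans (anc_reach h2).symm
  exact not_mem_of_card h4 (by omega)

theorem level_exists (h1 : 1 < (cmp G y).ncard) (hQ : 3 * (cmp G y).ncard < 4 * (cmp (del G (Si G k cut R)) y).ncard) {X : Set (Fin n)} (hX : X.ncard < R) :
    ∃ i < R, ∀ z ∈ X, ∀ m, (del G (Si G k cut i)).Reachable y m → ¬ Zm G (del G (Si G k cut i)) k z m := by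
  classical
  by_contra hcon
  push Not at hcon
  have h2 : ∀ i : ℕ, ∃ z, i < R → z ∈ X ∧ ∃ m, (del G (Si G k cut i)).Reachable y m ∧ Zm G (del G (Si G k cut i)) k z m := by
    intro i
    by_cases hi : i < R
    · obtain ⟨z, hz, m, hm, hm2⟩ := hcon i hi
      exact ⟨z, fun _ => ⟨hz, m, hm, hm2⟩⟩
    · exact ⟨y, fun h => absurd h hi⟩
  choose f hf using h2
  have hinj : ∀ i < R, ∀ j < R, i < j → f i ≠ f j := by
    intro i hi j hj hij he
    obtain ⟨_, m, hm, hm2⟩ := hf i hi
    obtain ⟨_, m', hm', hm2'⟩ := hf j hj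
    have h3 : f i ∈ Si G k cut j := si_mono hij (zi_mem hQ hi hm hm2)
    rw [he] at h3
    exact zi_not h1 hQ hj hm' hm2' h3
  have hle : (Finset.range R).card ≤ (Set.toFinite X).toFinset.card := by
    refine Finset.card_le_card_of_injOn f ?_ ?_
    · intro i hi
      have h3 := (hf i (Finset.mem_range.mp hi)).1
      exact Finset.mem_coe.mpr ((Set.Finite.mem_toFinset _).mpr h3)
    · intro i hi j hj he
      have hi' := Finset.mem_range.mp hi
      have hj' := Finset.mem_range.mp hj
      rcases lt_trichotomy i j with h | h | h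
      · exact absurd he (hinj i hi' j hj' h)
      · exact h
      · exact absurd he.symm (hinj j hj' i hi' h)
  rw [Finset.card_range, ← Set.ncard_eq_toFinset_card X] at hle
  omega

end Pool.Agent.TW
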