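import Pool.Agent.Lib.MP_0087d5_lc.TW.Del
import Pool.Agent.Lib.MP_0087d5_lc.TW.HullC

/-!
# T2, F8: the number of removed vertices (jobs Cnt1: `starts_card`; Cnt2: `new_card`, `sepG_card`)

`starts_card`: `N = (cmp G x).ncard`. Two elements `m`, `m'` of the set: `cmp H m`, `cmp H m'` are subsets of `cmp G x` (`cmp_mono`, `cmp_eq`) with more than `3 N / 4 > N / 2` elements, so they intersect
(`Set.ncard_union_add_ncard_inter` or `Set.ncard_union_eq`), so `H.Reachable m m'`. `w = wd G k x = (N - 1) / (8 k) ≥ 1` (`wd_eq`), `pre H m = w * j_m`, `pre H m ≤ N - 1` (`pre_bound`), `N - 1 < 8 k (w + 1) ≤ 16 k w`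
(`Nat.lt_mul_div_succ` or `Nat.div_add_mod`), so `j_m < 16 k`. The map `m ↦ pre H m / w` is injective on the set (`pre_inj`) with values in `Finset.range (16 * k)`.
`new_card`: `M` = the set of `starts_card`. If `x' ∈ newG ∩ cmp G x` is in the first part, `Zm G H k x' m`: there is `l` with `Blk G H k m l`, so `Blk G H k m m` (`blk_self`), and `Anc H x' m` gives `G.Reachable x m`; so `m ∈ M`. `Zm`
is a function of `m` (`zm_unique`), so the first part has at most `M.ncard` elements (`Set.ncard_image_le` for `fun m => if h : ∃ z, Zm G H k z m then h.choose else m`). In the second part `m, m' ∈ M` too (`m'` is in the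
component of `m` in `H`, so `Big G H m'`), so it is contained in a union over `M × M` of sets with at most `k` elements: at most `(16 k)^2 k` elements (`Finset.card_biUnion_le_card_mul`).
`sepG_card`: `N ≤ 8 k`: the intersection is contained in `cmp G x`. Otherwise (`8 k < N`) the first part of `SepG` does not meet `cmp G x`, and `(Si G k cut i ∩ cmp G x).ncard ≤ i * (16 k + 256 k^3)` by induction on `i` (`si_succ`, `new_card`,
`Set.ncard_union_le`).
-/

set_option autoImplicit false
set_option linter.all false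

namespace Pool.Agent.TW

open Relation

variable {n : ℕ} {G H : SimpleGraph (Fin n)} {k R : ℕ} {cut : SimpleGraph (Fin n) → Set (Fin n) → Set (Fin n) → Set (Fin n)}

theorem starts_card (hG : H ≤ G) (hk : 1 ≤ k) {x : Fin n} (hN : 8 * k < (cmp G x).ncard) :
    {m | G.Reachable x m ∧ Big G H m ∧ Blk G H k m m}.ncard ≤ 16 * k := by
  have hw : 0 < wd G k x := by
    rw [wd]
    exact Nat.div_pos (by omega) (by omega)
  have key : ∀ m, G.Reachable x m → cmp H m ⊆ cmp G x ∧ cmp G m = cmp G x ∧ wd G k m = wd G k x := by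
    intro m hm
    refine ⟨?_, (cmp_eq hm).symm, (wd_eq hm).symm⟩
    rw [cmp_eq hm]
    exact cmp_mono hG m
  have hlt : ∀ m, G.Reachable x m → pre H m < wd G k x * (16 * k) := by
    intro m hm
    have h1 := pre_bound (H := H) m
    have h2 : (cmp H m).ncard ≤ (cmp G x).ncard := Set.ncard_le_ncard (key m hm).1 (Set.toFinite _)
    have h3 : (cmp G x).ncard - 1 < 8 * k * (wd G k x + 1) := by
      rw [wd]
      exact Nat.lt_mul_div_succ _ (by omega)
    have h4 : 8 * k * (wd G k x + 1) ≤ wd G k x * (16 * k) := by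
      have h5 : 8 * k * 1 ≤ 8 * k * wd G k x := Nat.mul_le_mul_left _ hw
      calc 8 * k * (wd G k x + 1) = 8 * k * wd G k x + 8 * k * 1 := by ring
        _ ≤ 8 * k * wd G k x + 8 * k * wd G k x := Nat.add_le_add_left h5 _
        _ = wd G k x * (16 * k) := by ring
    omega
  have hcard : ((Finset.range (16 * k) : Finset ℕ) : Set ℕ).ncard = 16 * k := by
    rw [Set.ncard_coe_finset, Finset.card_range]
  rw [← hcard]
  refine Set.ncard_le_ncard_of_injOn (fun m => pre H m / wd G k x) ?_ ?_ (Set.toFinite _)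
  · rintro m ⟨hm, -, -⟩
    rw [Finset.mem_coe, Finset.mem_range]
    exact Nat.div_lt_of_lt_mul (hlt m hm)
  · rintro m ⟨hm, hb, hk1⟩ m' ⟨hm', hb', hk2⟩ he
    have hd : wd G k x ∣ pre H m := by
      rw [← (key m hm).2.2]
      exact hk1.2.1
    have hd' : wd G k x ∣ pre H m' := by
      rw [← (key m' hm').2.2]
      exact hk2.2.1
    have he' : pre H m / wd G k x = pre H m' / wd G k x := he
    have hpre : pre H m = pre H m' := by
      rw [← Nat.div_mul_cancel hd, ← Nat.div_mul_cancel hd', he']
    refine pre_inj ?_ hpre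
    by_contra hr
    have hdis : Disjoint (cmp H m) (cmp H m') := by
      rw [Set.disjoint_left]
      intro y hy hy'
      exact hr (SimpleGraph.Reachable.trans hy (SimpleGraph.Reachable.symm hy'))
    have hu : (cmp H m ∪ cmp H m').ncard = (cmp H m).ncard + (cmp H m').ncard :=
      Set.ncard_union_eq hdis (Set.toFinite _) (Set.toFinite _)
    have hsub : (cmp H m ∪ cmp H m').ncard ≤ (cmp G x).ncard :=
      Set.ncard_le_ncard (Set.union_subset (key m hm).1 (key m' hm').1) (Set.toFinite _)
    have hb1 : 3 * (cmp G x).ncard < 4 * (cmp H m).ncard := by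
      rw [← (key m hm).2.1]
      exact hb
    have hb2 : 3 * (cmp G x).ncard < 4 * (cmp H m').ncard := by
      rw [← (key m' hm').2.1]
      exact hb'
    omega

theorem new_card (hG : H ≤ G) (hk : 1 ≤ k) {x : Fin n} (hN : 8 * k < (cmp G x).ncard) {ct : Set (Fin n) → Set (Fin n) → Set (Fin n)} (hct : ∀ A B, (ct A B).ncard ≤ k) :
    (newG G H k ct ∩ cmp G x).ncard ≤ 16 * k + 256 * k ^ 3 := by
  classical
  obtain ⟨M, hMd⟩ : ∃ M : Set (Fin n), M = {m | G.Reachable x m ∧ Big G H m ∧ Blk G H k m m} :=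
    ⟨_, rfl⟩
  have hM : M.ncard ≤ 16 * k := by
    rw [hMd]
    exact starts_card hG hk hN
  obtain ⟨f, hf⟩ : ∃ f : Fin n → Fin n, ∀ m z, Zm G H k z m → f m = z := by
    refine ⟨fun m => if h : ∃ z, Zm G H k z m then h.choose else m, fun m z hz => ?_⟩
    have h : ∃ z, Zm G H k z m := ⟨z, hz⟩
    beta_reduce
    rw [dif_pos h]
    exact zm_unique h.choose_spec hz
  obtain ⟨B, hB⟩ : ∃ B : Finset (Fin n), B = (M.toFinset ×ˢ M.toFinset).biUnion
      fun p => (ct (Hull G H k p.1) (Hull G H k p.2)).toFinset := ⟨_, rfl⟩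
  have hsub : newG G H k ct ∩ cmp G x ⊆ f '' M ∪ (B : Set (Fin n)) := by
    rintro z ⟨hz, hxz⟩
    have hxz' : G.Reachable x z := hxz
    rcases hz with ⟨m, hbig, hzm⟩ | ⟨m, m', hbig, hmz, hmm, hlt, hbm, hbm', hzc⟩
    · left
      refine ⟨m, ?_, hf m z hzm⟩
      obtain ⟨l, hl, h1, h2, h3⟩ := hzm
      rw [hMd]
      exact ⟨hxz'.trans ((anc_reach h1).mono hG), hbig, blk_self hl.1⟩
    · right
      have hxm : G.Reachable x m := hxz'.trans ((hmz.mono hG).symm)
      have hm : m ∈ M := by
        rw [hMd]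
        exact ⟨hxm, hbig, hbm⟩
      have hm' : m' ∈ M := by
        rw [hMd]
        refine ⟨hxm.trans (hmm.mono hG), ?_, hbm'⟩
        unfold Big at hbig ⊢
        rw [← cmp_eq hmm, ← cmp_eq (hmm.mono hG)]
        exact hbig
      rw [hB]
      refine Finset.mem_coe.2 (Finset.mem_biUnion.2 ⟨(m, m'), ?_, ?_⟩)
      · exact Finset.mem_product.2 ⟨Set.mem_toFinset.2 hm, Set.mem_toFinset.2 hm'⟩
      · exact Set.mem_toFinset.2 hzc
  have h1 : (f '' M).ncard ≤ 16 * k := (Set.ncard_image_le (Set.toFinite M)).trans hM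
  have hMc : M.toFinset.card ≤ 16 * k := by
    rw [← Set.ncard_eq_toFinset_card']
    exact hM
  have h2 : B.card ≤ 256 * k ^ 3 := by
    rw [hB]
    refine (Finset.card_biUnion_le_card_mul _ _ k fun p _ => ?_).trans ?_
    · rw [← Set.ncard_eq_toFinset_card']
      exact hct _ _
    · rw [Finset.card_product]
      calc M.toFinset.card * M.toFinset.card * k ≤ (16 * k) * (16 * k) * k :=
            Nat.mul_le_mul_right _ (Nat.mul_le_mul hMc hMc)
        _ = 256 * k ^ 3 := by ring
  refine (Set.ncard_le_ncard hsub (Set.toFinite _)).trans ((Set.ncard_union_le _ _).trans ?_)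
  rw [Set.ncard_coe_finset]
  exact Nat.add_le_add h1 h2

theorem sepG_card (hk : 1 ≤ k) (hcut : ∀ H A B, (cut H A B).ncard ≤ k) (x : Fin n) : (SepG G k cut R ∩ cmp G x).ncard ≤ 8 * k + R * (16 * k + 256 * k ^ 3) := by
  by_cases hN : (cmp G x).ncard ≤ 8 * k
  · exact (Set.ncard_le_ncard Set.inter_subset_right (Set.toFinite _)).trans
      (hN.trans (Nat.le_add_right _ _))
  · have hN' : 8 * k < (cmp G x).ncard := by omega
    have hsub : SepG G k cut R ∩ cmp G x ⊆ Si G k cut R ∩ cmp G x := by
      rintro z ⟨hz, hxz⟩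
      refine ⟨?_, hxz⟩
      rcases hz with hz | hz
      · exfalso
        have h1 : (cmp G z).ncard ≤ 8 * k := hz
        rw [← cmp_eq (hxz : G.Reachable x z)] at h1
        omega
      · exact hz
    have hind : ∀ i, (Si G k cut i ∩ cmp G x).ncard ≤ i * (16 * k + 256 * k ^ 3) := by
      intro i
      induction i with
      | zero =>
        have h0 : Si G k cut 0 = ∅ := rfl
        rw [h0, Set.empty_inter, Set.ncard_empty]
        exact Nat.zero_le _
      | succ i ih =>
        rw [si_succ, Set.union_inter_distrib_right, Nat.succ_mul]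
        exact (Set.ncard_union_le _ _).trans (Nat.add_le_add ih
          (new_card (del_le _) hk hN' fun A B => hcut _ A B))
    have h2 := Set.ncard_le_ncard hsub (Set.toFinite _)
    have h3 := hind R
    omega

end Pool.Agent.TW
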