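import Pool.Agent.Lib.MP_0087d5_lc.TW.PrgW

/-!
# Combination with the locally maximal matchings

`F' n G M = F n G M₁` where `M₁` is the larger one of `M` and a given matching `T n G` (`M` if they have the same size).
-/

set_option autoImplicit false
set_option linter.all false

namespace Pool.Agent.TW

open Relation Pool.Agent.UPM Pool.Agent.AUG Pool.Agent.EXA

/-- The covered vertices. -/
theorem cov_card {n : ℕ} {G M : SimpleGraph (Fin n)} (h : IsMat G M) : {v | ∃ w, M.Adj v w}.ncard = 2 * M.edgeSet.ncard := by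
  classical
  rw [← SUB.cv_mt h]
  unfold SUB.cv
  rw [← Set.ncard_coe_finset]
  congr 1
  ext v
  rw [Finset.coe_filter, Set.mem_setOf_eq, Set.mem_setOf_eq]
  have hof := (mt_mate h).2
  constructor
  · rintro ⟨w, hw⟩
    have h1 := (hof v w).1 hw
    refine ⟨Finset.mem_univ _, ?_⟩
    rw [h1.1]
    exact h1.2.symm
  · rintro ⟨-, hv⟩
    exact ⟨mt M v, (hof v (mt M v)).2 ⟨rfl, fun h2 => hv h2.symm⟩⟩

/-- Comparison of the sizes of two definable sets. -/
theorem ncp_cmp_card {S : ℕ → Type} {B : Readers S} {P Q : ∀ n, S n → Fin n → Prop}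
    (hP : NCP S B (Fin 1) (fun n s x => P n s (x 0))) (hQ : NCP S B (Fin 1) (fun n s x => Q n s (x 0))) {ι : Type} (hι : Finite ι) :
    NCP S B ι (fun n s _ => {a | P n s a}.ncard ≤ {a | Q n s a}.ncard) := by
  have hc : ∀ {R : ∀ n, S n → Fin n → Prop}, NCP S B (Fin 1) (fun n s x => R n s (x 0)) → ∀ {κ : Type}, Finite κ → ∀ i : κ,
      NCP S B κ (fun n s z => {a | R n s a}.ncard = (z i : ℕ)) := by
    intro R hR κ hκ i
    have h1 : NCP S B (Option Empty) (fun n s z => R n s (z none)) := NCP.comap inferInstance (fun _ => none) hR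
    have h2 := NCP.count (ι := Empty) (Q := fun n s _ a => R n s a) h1
    exact NCP.comap hκ (fun o : Option Empty => match o with
      | none => i
      | some e => e.elim) h2
  have h1 : NCP S B ι (fun n s x => ∃ a : Fin n, {a | P n s a}.ncard = (a : ℕ) ∧ ∃ b : Fin n, {a | Q n s a}.ncard = (b : ℕ) ∧ a ≤ b) :=
    NCP.ex1 (R := fun n s x a => {a | P n s a}.ncard = (a : ℕ) ∧ ∃ b : Fin n, {a | Q n s a}.ncard = (b : ℕ) ∧ a ≤ b)
      (NCP.and (hc hP inferInstance none) (NCP.ex1 (R := fun n s z b => {a | Q n s a}.ncard = (b : ℕ) ∧ z none ≤ b)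
        (NCP.and (hc hQ inferInstance none) (NCP.le inferInstance (some none) none))))
  have h2 : NCP S B ι (fun n s x => ∃ b : Fin n, {a | Q n s a}.ncard = (b : ℕ)) :=
    NCP.ex1 (R := fun n s x b => {a | Q n s a}.ncard = (b : ℕ)) (hc hQ inferInstance none)
  refine (NCP.or h1 (NCP.not h2)).congr fun n s x => ?_
  have hb : ∀ R : Fin n → Prop, {a | R a}.ncard ≤ n := by
    intro R
    calc {a | R a}.ncard ≤ (Set.univ : Set (Fin n)).ncard := Set.ncard_le_ncard (Set.subset_univ _) (Set.toFinite _)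
      _ = n := by rw [Set.ncard_univ, Nat.card_eq_fintype_card, Fintype.card_fin]
  have hP' := hb (P n s)
  have hQ' := hb (Q n s)
  constructor
  · rintro (⟨a, h3, b, h4, h5⟩ | h3)
    · rw [h3, h4]
      exact h5
    · have h4 : ¬ {a | Q n s a}.ncard < n := fun h5 => h3 ⟨⟨_, h5⟩, rfl⟩
      omega
  · intro h3
    by_cases h4 : {a | Q n s a}.ncard < n
    · exact Or.inl ⟨⟨{a | P n s a}.ncard, by omega⟩, rfl, ⟨_, h4⟩, rfl, h3⟩
    · right
      rintro ⟨b, h5⟩
      have := b.2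
      omega

open Classical in
/-- The larger one of two matchings. -/
noncomputable def lrg {n : ℕ} (M T : SimpleGraph (Fin n)) : SimpleGraph (Fin n) :=
  if {v | ∃ w, T.Adj v w}.ncard ≤ {v | ∃ w, M.Adj v w}.ncard then M else T

/-- **Combination.** -/
theorem comb (c : ℕ) (T : ∀ n : ℕ, SimpleGraph (Fin n) → SimpleGraph (Fin n)) (hT : NCP GS GB (Fin 2) (fun n G x => (T n G).Adj (x 0) (x 1)))
    (Good : ∀ n : ℕ, SimpleGraph (Fin n) → Prop) (hTs : ∀ n G, IsMat G (T n G) ∧ (Good n G → IsMaxMat G (T n G))) :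
    ∃ F : ∀ n : ℕ, SimpleGraph (Fin n) → SimpleGraph (Fin n) → SimpleGraph (Fin n),
      NCP GS2 GB2 (Fin 2) (fun n s x => (F n s.1 s.2).Adj (x 0) (x 1)) ∧
      ∀ (n : ℕ) (G M : SimpleGraph (Fin n)), IsMat G M → IsMat G (F n G M) ∧ (F n G M = M ↔ IsMaxMat G M) ∧
        (IsMaxMat G (F n G M) ∨ M.edgeSet.ncard + Nat.log 2 n ^ c ≤ (F n G M).edgeSet.ncard) ∧
        LocMax G (F n G M) (Nat.log 2 n ^ c) ∧ (Impr G (Nat.log 2 n ^ c) → IsMaxMat G (F n G M)) ∧ (Good n G → IsMaxMat G (F n G M)) := by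
  classical
  obtain ⟨F, hF, hS⟩ := exa_F c
  have hM : NCP GS2 GB2 (Fin 2) (fun n s x => s.2.Adj (x 0) (x 1)) := NCP.base inferInstance GB2.snd
  have hT2 : NCP GS2 GB2 (Fin 2) (fun n s x => (T n s.1).Adj (x 0) (x 1)) := by
    refine NCP.pull (S := GS) (B := GB) (S' := GS2) (B' := GB2) (fun n (s : GS2 n) => (s.1 : GS n)) (fun ι hι P hP => ?_) hT
    cases hP with
    | adj => exact NCP.base inferInstance GB2.fst
  have hcM : NCP GS2 GB2 (Fin 1) (fun n s x => ∃ w, s.2.Adj (x 0) w) :=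
    NCP.ex1 (R := fun n (s : GS2 n) x w => s.2.Adj (x 0) w) (NCP.rel2 (R := fun n (s : GS2 n) a b => s.2.Adj a b) inferInstance hM (some 0) none)
  have hcT : NCP GS2 GB2 (Fin 1) (fun n s x => ∃ w, (T n s.1).Adj (x 0) w) :=
    NCP.ex1 (R := fun n (s : GS2 n) x w => (T n s.1).Adj (x 0) w) (NCP.rel2 (R := fun n (s : GS2 n) a b => (T n s.1).Adj a b) inferInstance hT2 (some 0) none)
  have hle := ncp_cmp_card (P := fun n (s : GS2 n) v => ∃ w, (T n s.1).Adj v w) (Q := fun n (s : GS2 n) v => ∃ w, s.2.Adj v w) hcT hcM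
    (ι := Fin 2) inferInstance
  have hL : NCP GS2 GB2 (Fin 2) (fun n s x => (lrg s.2 (T n s.1)).Adj (x 0) (x 1)) := by
    refine (NCP.or (NCP.and hle hM) (NCP.and (NCP.not hle) hT2)).congr fun n s x => ?_
    unfold lrg
    split_ifs with h
    · exact ⟨fun h1 => h1.elim (fun h2 => h2.2) (fun h2 => absurd h h2.1), fun h1 => Or.inl ⟨h, h1⟩⟩
    · exact ⟨fun h1 => h1.elim (fun h2 => absurd h2.1 h) (fun h2 => h2.2), fun h1 => Or.inr ⟨h, h1⟩⟩
  refine ⟨fun n G M => F n G (lrg M (T n G)), ?_, ?_⟩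
  · exact EXA.comp_ncp (A := fun n G M => F n G M) (B := fun n G M => lrg M (T n G)) hF hL
  · intro n G M hMat
    have h1 := cov_card hMat
    have h2 := cov_card (hTs n G).1
    show IsMat G (F n G (lrg M (T n G))) ∧ (F n G (lrg M (T n G)) = M ↔ IsMaxMat G M) ∧
      (IsMaxMat G (F n G (lrg M (T n G))) ∨ M.edgeSet.ncard + Nat.log 2 n ^ c ≤ (F n G (lrg M (T n G))).edgeSet.ncard) ∧
      LocMax G (F n G (lrg M (T n G))) (Nat.log 2 n ^ c) ∧ (Impr G (Nat.log 2 n ^ c) → IsMaxMat G (F n G (lrg M (T n G)))) ∧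
      (Good n G → IsMaxMat G (F n G (lrg M (T n G))))
    by_cases hcase : {v | ∃ w, (T n G).Adj v w}.ncard ≤ {v | ∃ w, M.Adj v w}.ncard
    · have e : lrg M (T n G) = M := by
        unfold lrg
        exact if_pos hcase
      rw [e]
      have h3 := hS n G M hMat
      refine ⟨h3.1, h3.2.1, h3.2.2.1, h3.2.2.2.1, h3.2.2.2.2, fun hg => ?_⟩
      have h4 : IsMaxMat G M := by
        refine ⟨hMat, fun N hN => ((hTs n G).2 hg).2 N hN |>.trans ?_⟩
        omega
      rw [h3.2.1.2 h4]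
      exact h4
    · have e : lrg M (T n G) = T n G := by
        unfold lrg
        exact if_neg hcase
      rw [e]
      have h3 := hS n G (T n G) (hTs n G).1
      have hlt : M.edgeSet.ncard < (T n G).edgeSet.ncard := by omega
      have hge : (T n G).edgeSet.ncard ≤ (F n G (T n G)).edgeSet.ncard := by
        rcases h3.2.2.1 with h4 | h4
        · exact h4.2 _ (hTs n G).1
        · omega
      refine ⟨h3.1, ⟨fun h4 => ?_, fun h4 => ?_⟩, ?_, h3.2.2.2.1, h3.2.2.2.2, fun hg => ?_⟩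
      · rw [h4] at hge
        omega
      · have := h4.2 _ (hTs n G).1
        omega
      · rcases h3.2.2.1 with h4 | h4
        · exact Or.inl h4
        · right
          omega
      · have h4 := (hTs n G).2 hg
        rw [h3.2.1.2 h4]
        exact h4

end Pool.Agent.TW
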