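import Pool.Agent.Lib.MP_0087d5_lc.LF.Param

/-!
# Programs evaluated on an input with twice as many points, which depends on parameters
-/

set_option autoImplicit false
set_option linter.all false

namespace Pool.Agent.TW

open Pool.Agent.UPM

/-- The points of `Fin (2 * n)`: `dbl x b = 2 x + b`. -/
def dbl {n : ℕ} (x : Fin n) (b : Fin 2) : Fin (2 * n) := ⟨2 * x + b, by omega⟩

theorem dbl_val {n : ℕ} (x : Fin n) (b : Fin 2) : ((dbl x b : Fin (2 * n)) : ℕ) = 2 * x + b := rfl

theorem dbl_inj {n : ℕ} {x y : Fin n} {b c : Fin 2} (h : dbl x b = dbl y c) : x = y ∧ b = c := by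
  have h1 := congrArg Fin.val h
  rw [dbl_val, dbl_val] at h1
  constructor
  · apply Fin.ext
    omega
  · apply Fin.ext
    omega

theorem dbl_surj {n : ℕ} (z : Fin (2 * n)) : ∃ x b, dbl x b = z := by
  refine ⟨⟨(z : ℕ) / 2, by omega⟩, ⟨(z : ℕ) % 2, by omega⟩, Fin.ext ?_⟩
  rw [dbl_val]
  simp only
  omega

theorem dbl_exists {n : ℕ} {P : Fin (2 * n) → Prop} : (∃ z, P z) ↔ ∃ b : Fin 2, ∃ x : Fin n, P (dbl x b) := by
  constructor
  · rintro ⟨z, hz⟩
    obtain ⟨x, b, rfl⟩ := dbl_surj z
    exact ⟨b, x, hz⟩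
  · rintro ⟨b, x, h⟩
    exact ⟨_, h⟩

/-- The inverse. -/
def hlf {n : ℕ} (z : Fin (2 * n)) : Fin n := ⟨(z : ℕ) / 2, by omega⟩

/-- The mode. -/
def prt {n : ℕ} (z : Fin (2 * n)) : Fin 2 := ⟨(z : ℕ) % 2, by omega⟩

theorem dbl_hlf {n : ℕ} (z : Fin (2 * n)) : dbl (hlf z) (prt z) = z := by
  apply Fin.ext
  rw [dbl_val]
  simp only [hlf, prt]
  omega

theorem hlf_dbl {n : ℕ} (x : Fin n) (b : Fin 2) : hlf (dbl x b) = x := by
  apply Fin.ext
  simp only [hlf, dbl_val]
  omega

theorem prt_dbl {n : ℕ} (x : Fin n) (b : Fin 2) : prt (dbl x b) = b := by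
  apply Fin.ext
  simp only [prt, dbl_val]
  omega

theorem dbl_size {n : ℕ} (h : 0 < n) : Nat.size (2 * n - 1) = Nat.size (n - 1) + 1 := by
  have h1 : 2 * n - 1 = Nat.bit true (n - 1) := by
    show 2 * n - 1 = 2 * (n - 1) + 1
    omega
  rw [h1, Nat.size_bit]
  show 2 * (n - 1) + 1 ≠ 0
  omega

private theorem dbl_le {n : ℕ} (x y : Fin n) (b c : Fin 2) : dbl x b ≤ dbl y c ↔ x < y ∨ (x = y ∧ b ≤ c) := by
  rw [Fin.le_def, Fin.lt_def, Fin.le_def, dbl_val, dbl_val, Fin.ext_iff]
  omega

private theorem dbl_add {n : ℕ} (x y z : Fin n) (b c d : Fin 2) :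
    ((dbl x b : Fin (2 * n)) : ℕ) + (dbl y c : Fin (2 * n)) = (dbl z d : Fin (2 * n)) ↔
      ((b : ℕ) + c = d ∧ (x : ℕ) + y = z) ∨ ((b : ℕ) + c = d + 2 ∧ ∃ w : Fin n, (x : ℕ) + y = w ∧ (z : ℕ) = w + 1) := by
  rw [dbl_val, dbl_val, dbl_val]
  constructor
  · intro h
    rcases Nat.lt_or_ge ((b : ℕ) + c) 2 with h1 | h1
    · left
      omega
    · right
      refine ⟨by omega, ⟨(x : ℕ) + y, by omega⟩, rfl, ?_⟩
      simp only
      omega
  · rintro (⟨h1, h2⟩ | ⟨h1, w, h2, h3⟩)
    · omega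
    · omega

private theorem dbl_gen {S : ℕ → Type} {B : Readers S} {ι : Type} {F : RF S ι}
    (h : NCP S B ι F) :
    ∀ (S' : ℕ → Type) (B' : Readers S') (π : Type) (_ : Finite π)
      (f : ∀ n, S' n → (π → Fin n) → S (2 * n)),
      (∀ (ι : Type) (_ : Finite ι) (P : RF S ι) (e : ι → Fin 2), B ι P → NCP S' B' (π ⊕ ι)
        (fun n s z => P (2 * n) (f n s (fun i => z (Sum.inl i))) (fun i => dbl (z (Sum.inr i)) (e i)))) →
      ∀ e : ι → Fin 2, NCP S' B' (π ⊕ ι)
        (fun n s z => F (2 * n) (f n s (fun i => z (Sum.inl i))) (fun i => dbl (z (Sum.inr i)) (e i))) := by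
  induction h with
  | base hι hP => exact fun S' B' π hπ f hB e => hB _ hι _ e hP
  | comap hκ e h ih =>
    intro S' B' π hπ f hB e'
    exact NCP.comap (κ := π ⊕ _) inferInstance (Sum.map id e) (ih S' B' π hπ f hB fun i => e' (e i))
  | @le S B ι hι i j =>
    intro S' B' π hπ f hB e
    have h1 : NCP S' B' (π ⊕ ι) (fun n s z => z (Sum.inr i) < z (Sum.inr j) ∨ (z (Sum.inr i) = z (Sum.inr j) ∧ e i ≤ e j)) :=
      NCP.or (NCP.lt inferInstance _ _) (NCP.and (NCP.eq inferInstance _ _) (NCP.const inferInstance _))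
    exact h1.congr fun n s z => (dbl_le _ _ _ _).symm
  | @add S B ι hι i j k =>
    intro S' B' π hπ f hB e
    have h0 : NCP S' B' (π ⊕ ι) (fun n s z => ∃ w : Fin n, (z (Sum.inr i) : ℕ) + z (Sum.inr j) = w ∧ (z (Sum.inr k) : ℕ) = w + 1) := by
      refine NCP.ex1 (R := fun n _ (z : π ⊕ ι → Fin n) w => (z (Sum.inr i) : ℕ) + z (Sum.inr j) = w ∧ (z (Sum.inr k) : ℕ) = w + 1) ?_
      exact NCP.and (NCP.add inferInstance _ _ _) (NCP.succ inferInstance _ _)
    have h1 : NCP S' B' (π ⊕ ι) (fun n s z => ((e i : ℕ) + e j = e k ∧ (z (Sum.inr i) : ℕ) + z (Sum.inr j) = z (Sum.inr k)) ∨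
        ((e i : ℕ) + e j = e k + 2 ∧ ∃ w : Fin n, (z (Sum.inr i) : ℕ) + z (Sum.inr j) = w ∧ (z (Sum.inr k) : ℕ) = w + 1)) :=
      NCP.or (NCP.and (NCP.const inferInstance _) (NCP.add inferInstance _ _ _)) (NCP.and (NCP.const inferInstance _) h0)
    exact h1.congr fun n s z => (dbl_add _ _ _ _ _ _).symm
  | not _ ih => exact fun S' B' π hπ f hB e => NCP.not (ih S' B' π hπ f hB e)
  | and _ _ ih₁ ih₂ =>
    exact fun S' B' π hπ f hB e => NCP.and (ih₁ S' B' π hπ f hB e) (ih₂ S' B' π hπ f hB e)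
  | @ex S B ι P h ih =>
    intro S' B' π hπ f hB e
    have hfin : Finite (Option ι) := h.finite
    have hfin' : Finite ι := Finite.of_injective (some : ι → Option ι) (Option.some_injective ι)
    have h0 : ∀ b : Fin 2, NCP S' B' (π ⊕ ι) (fun n s z => ∃ a : Fin n, P (2 * n) (f n s (fun i => z (Sum.inl i)))
        (fun o => o.elim (dbl a b) (fun i => dbl (z (Sum.inr i)) (e i)))) := by
      intro b
      have h1 := NCP.comap (κ := Option (π ⊕ ι)) inferInstance
        (fun o : π ⊕ Option ι => match o with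
          | Sum.inl i => some (Sum.inl i)
          | Sum.inr none => none
          | Sum.inr (some j) => some (Sum.inr j)) (ih S' B' π hπ f hB (fun o => o.elim b e))
      refine (NCP.ex h1).congr fun n s z => ?_
      apply exists_congr
      intro a
      have e1 : (fun i : Option ι => (dbl ((fun o' : Option (π ⊕ ι) => o'.elim a z)
          ((fun o : π ⊕ Option ι => match o with
            | Sum.inl i => some (Sum.inl i)
            | Sum.inr none => none
            | Sum.inr (some j) => some (Sum.inr j)) (Sum.inr i))) (i.elim b e) : Fin (2 * n))) =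
          fun o : Option ι => o.elim (dbl a b) (fun i => dbl (z (Sum.inr i)) (e i)) := by
        funext o
        cases o <;> rfl
      rw [← e1]
      exact Iff.rfl
    have h2 := NCP.exFin (J := Fin 2) (inferInstance : Finite (π ⊕ ι)) h0
    refine h2.congr fun n s z => ?_
    exact (dbl_exists (P := fun a => P (2 * n) (f n s (fun i => z (Sum.inl i)))
      (fun o => o.elim a (fun i => dbl (z (Sum.inr i)) (e i))))).symm
  | @iter S B κ Fl hFl H F hH hF g ihH ihF =>
    intro S' B' π hπ f hB e₀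
    have hκ : Finite κ := (hH g).finite
    have hFF : ∀ g' : Fl × (κ → Fin 2), NCP (fun n => S' n × RelF (π ⊕ κ) (Fl × (κ → Fin 2)) n) (Ext B' (π ⊕ κ) (Fl × (κ → Fin 2))) (π ⊕ κ)
        (fun n s z => F g'.1 (2 * n) (f n s.1 (fun i => z (Sum.inl i)),
          fun l y => s.2 (l, fun i => prt (y i)) (Sum.elim (fun i => z (Sum.inl i)) (fun i => hlf (y i)))) (fun i => dbl (z (Sum.inr i)) (g'.2 i))) := by
      intro g'
      refine ihF g'.1 (fun n => S' n × RelF (π ⊕ κ) (Fl × (κ → Fin 2)) n) (Ext B' (π ⊕ κ) (Fl × (κ → Fin 2))) π hπ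
          (fun n s p => (f n s.1 p, fun l y => s.2 (l, fun i => prt (y i)) (Sum.elim p (fun i => hlf (y i))))) ?_ g'.2
      intro ι' hι' P e' hP
      cases hP with
      | old hP' => exact Pool.Agent.PMNC.Br.ncp_weaken (hB _ hι' _ e' hP')
      | new l =>
        have h2 : NCP (fun n => S' n × RelF (π ⊕ κ) (Fl × (κ → Fin 2)) n) (Ext B' (π ⊕ κ) (Fl × (κ → Fin 2))) (π ⊕ κ)
            (fun _ s z => s.2 (l, e') z) := NCP.base inferInstance (Ext.new (l, e'))
        refine h2.congr fun n s z => ?_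
        have e1 : Sum.elim (fun i => z (Sum.inl i)) (fun i => hlf (dbl (z (Sum.inr i)) (e' i))) = z := by
          funext o
          cases o with
          | inl i => rfl
          | inr i => exact hlf_dbl _ _
        have e2 : (fun i => prt (dbl (z (Sum.inr i)) (e' i))) = e' := by
          funext i
          exact prt_dbl _ _
        show s.2 (l, e') z ↔ s.2 (l, fun i => prt (dbl (z (Sum.inr i)) (e' i)))
          (Sum.elim (fun i => z (Sum.inl i)) (fun i => hlf (dbl (z (Sum.inr i)) (e' i))))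
        rw [e1, e2]
    have hHH : ∀ g' : Fl × (κ → Fin 2), NCP S' B' (π ⊕ κ) (fun n s z => H g'.1 (2 * n) (f n s (fun i => z (Sum.inl i))) (fun i => dbl (z (Sum.inr i)) (g'.2 i))) :=
      fun g' => ihH g'.1 S' B' π hπ f hB g'.2
    have h1 : ∀ g' : Fl × (κ → Fin 2), NCP S' B' (π ⊕ κ) _ := fun g' => NCP.iter (S := S') (B := B') (κ := π ⊕ κ) (Fl := Fl × (κ → Fin 2)) inferInstance
      (H := fun g' n s z => H g'.1 (2 * n) (f n s (fun i => z (Sum.inl i))) (fun i => dbl (z (Sum.inr i)) (g'.2 i)))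
      (F := fun g' n s z => F g'.1 (2 * n) (f n s.1 (fun i => z (Sum.inl i)),
          fun l y => s.2 (l, fun i => prt (y i)) (Sum.elim (fun i => z (Sum.inl i)) (fun i => hlf (y i)))) (fun i => dbl (z (Sum.inr i)) (g'.2 i)))
      hHH hFF g'
    -- the iterates agree
    have key : ∀ (n : ℕ) (s : S' n) (p : π → Fin n) (j : ℕ), ∀ (g : Fl) (y : κ → Fin (2 * n)),
        ((fun (R : RelF (π ⊕ κ) (Fl × (κ → Fin 2)) n) (g' : Fl × (κ → Fin 2)) (z : π ⊕ κ → Fin n) =>
          F g'.1 (2 * n) (f n s (fun i => z (Sum.inl i)),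
            fun l y => R (l, fun i => prt (y i)) (Sum.elim (fun i => z (Sum.inl i)) (fun i => hlf (y i)))) (fun i => dbl (z (Sum.inr i)) (g'.2 i)))^[j]
          (fun g' z => H g'.1 (2 * n) (f n s (fun i => z (Sum.inl i))) (fun i => dbl (z (Sum.inr i)) (g'.2 i)))) (g, fun i => prt (y i))
          (Sum.elim p (fun i => hlf (y i))) =
        ((fun (R : RelF κ Fl (2 * n)) (g : Fl) (x : κ → Fin (2 * n)) =>
          F g (2 * n) (f n s p, R) x)^[j]
          (fun g x => H g (2 * n) (f n s p) x)) g y := by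
      intro n s p j
      induction j with
      | zero =>
        intro g y
        simp only [Function.iterate_zero, id_eq, Sum.elim_inl, Sum.elim_inr, dbl_hlf]
      | succ j ihj =>
        intro g y
        rw [Function.iterate_succ_apply', Function.iterate_succ_apply']
        simp only [Sum.elim_inl, Sum.elim_inr, dbl_hlf]
        have e : (fun (l : Fl) (y : κ → Fin (2 * n)) =>
            ((fun (R : RelF (π ⊕ κ) (Fl × (κ → Fin 2)) n) (g' : Fl × (κ → Fin 2)) (z : π ⊕ κ → Fin n) =>
              F g'.1 (2 * n) (f n s (fun i => z (Sum.inl i)),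
                fun l y => R (l, fun i => prt (y i)) (Sum.elim (fun i => z (Sum.inl i)) (fun i => hlf (y i)))) (fun i => dbl (z (Sum.inr i)) (g'.2 i)))^[j]
              (fun g' z => H g'.1 (2 * n) (f n s (fun i => z (Sum.inl i))) (fun i => dbl (z (Sum.inr i)) (g'.2 i)))) (l, fun i => prt (y i))
              (Sum.elim p (fun i => hlf (y i)))) =
            ((fun (R : RelF κ Fl (2 * n)) (g : Fl) (x : κ → Fin (2 * n)) =>
              F g (2 * n) (f n s p, R) x)^[j]
              (fun g x => H g (2 * n) (f n s p) x)) := by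
          funext l y
          exact ihj l y
        rw [e]
    -- one more application
    have hlast : NCP S' B' (π ⊕ κ) (fun n s z => F g (2 * n) (f n s (fun i => z (Sum.inl i)),
        ((fun (R : RelF κ Fl (2 * n)) (g : Fl) (x : κ → Fin (2 * n)) =>
          F g (2 * n) (f n s (fun i => z (Sum.inl i)), R) x)^[Nat.size (n - 1)]
          (fun g x => H g (2 * n) (f n s (fun i => z (Sum.inl i))) x))) (fun i => dbl (z (Sum.inr i)) (e₀ i))) := by
      refine ihF g S' B' π hπ (fun n s p => (f n s p, ((fun (R : RelF κ Fl (2 * n)) (g : Fl) (x : κ → Fin (2 * n)) =>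
          F g (2 * n) (f n s p, R) x)^[Nat.size (n - 1)] (fun g x => H g (2 * n) (f n s p) x)))) ?_ e₀
      intro ι' hι' P e' hP
      cases hP with
      | old hP' => exact hB _ hι' _ e' hP'
      | new l =>
        refine (h1 (l, e')).congr fun n s z => ?_
        have hk := key n s (fun i => z (Sum.inl i)) (Nat.size (n - 1)) l (fun i => dbl (z (Sum.inr i)) (e' i))
        have e1 : Sum.elim (fun i => z (Sum.inl i)) (fun i => hlf (dbl (z (Sum.inr i)) (e' i))) = z := by
          funext o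
          cases o with
          | inl i => rfl
          | inr i => exact hlf_dbl _ _
        have e2 : (fun i => prt (dbl (z (Sum.inr i)) (e' i))) = e' := by
          funext i
          exact prt_dbl _ _
        rw [e1, e2] at hk
        exact iff_of_eq hk
    have hpos : NCP S' B' (π ⊕ κ) (fun n s z => 0 < n) := by
      have h3 : NCP S' B' (π ⊕ κ) (fun n s z => ∃ a : Fin n, a ≤ a) :=
        NCP.ex1 (R := fun n _ (z : π ⊕ κ → Fin n) a => a ≤ a) (NCP.le inferInstance _ _)
      refine h3.congr fun n s z => ?_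
      constructor
      · rintro ⟨a, -⟩
        exact lt_of_le_of_lt (Nat.zero_le _) a.2
      · intro h
        exact ⟨⟨0, h⟩, le_rfl⟩
    have hzero : NCP S' B' (π ⊕ κ) (fun n s z => H g (2 * n) (f n s (fun i => z (Sum.inl i))) (fun i => dbl (z (Sum.inr i)) (e₀ i))) :=
      ihH g S' B' π hπ f hB e₀
    have h5 := NCP.or (NCP.and hpos hlast) (NCP.and (NCP.not hpos) hzero)
    refine h5.congr fun n s z => ?_
    rcases Nat.eq_zero_or_pos n with hn | hn
    · subst hn
      simp only [Nat.lt_irrefl, false_and, not_false_eq_true, true_and, false_or]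
      exact Iff.rfl
    · have e1 : Nat.size (2 * n - 1) = Nat.size (n - 1) + 1 := dbl_size hn
      show _ ↔ ((fun (R : RelF κ Fl (2 * n)) (g : Fl) (x : κ → Fin (2 * n)) =>
          F g (2 * n) (f n s (fun i => z (Sum.inl i)), R) x)^[Nat.size (2 * n - 1)]
          (fun g x => H g (2 * n) (f n s (fun i => z (Sum.inl i))) x)) g (fun i => dbl (z (Sum.inr i)) (e₀ i))
      rw [e1, Function.iterate_succ_apply']
      simp only [hn, true_and, not_true, false_and, or_false]

/-- Programs evaluated on an input with twice as many points, which depends on parameters. -/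
theorem dblParam {S : ℕ → Type} {B : Readers S} {ι : Type} {F : RF S ι} (h : NCP S B ι F)
    {S' : ℕ → Type} {B' : Readers S'} {π : Type} (hπ : Finite π)
    (f : ∀ n, S' n → (π → Fin n) → S (2 * n))
    (hB : ∀ (ι : Type) (_ : Finite ι) (P : RF S ι) (e : ι → Fin 2), B ι P → NCP S' B' (π ⊕ ι)
        (fun n s z => P (2 * n) (f n s (fun i => z (Sum.inl i))) (fun i => dbl (z (Sum.inr i)) (e i)))) (e : ι → Fin 2) :
    NCP S' B' (π ⊕ ι)
      (fun n s z => F (2 * n) (f n s (fun i => z (Sum.inl i))) (fun i => dbl (z (Sum.inr i)) (e i))) :=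
  dbl_gen h S' B' π hπ f hB e

end Pool.Agent.TW
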