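import Pool.Agent.Lib.MP_0087d5_lc.TW.Base

/-!
# T2: the rounds (job Del)

`Si G k cut i = (stepG G k cut)^[i] ∅`: the vertices removed in the first `i` rounds.
`si_mono`: `Function.iterate_succ_apply'`, `S ⊆ stepG S`. `del_del_le`: if `S ⊆ S'` then `del G S' ≤ del G S`.
`not_mem_of_reach`: if `x` is reachable in `del G S` from some `y ≠ x` then `x` has a neighbour in `del G S` (first step of a walk from `x` to `y`), so `x ∉ S`.
`reach_del`: induction on the walk from `u` to `v` in `H'` (or `ReflTransGen` of adjacency, `SimpleGraph.reachable_iff_reflTransGen`): all its vertices are reachable from `u` in `H'`, so not in `Y`.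
-/

set_option autoImplicit false
set_option linter.all false

namespace Pool.Agent.TW

open Relation

variable {n : ℕ} {G H H' : SimpleGraph (Fin n)} {k : ℕ} {cut : SimpleGraph (Fin n) → Set (Fin n) → Set (Fin n) → Set (Fin n)}

/-- the vertices removed in the first `i` rounds -/
def Si (G : SimpleGraph (Fin n)) (k : ℕ) (cut : SimpleGraph (Fin n) → Set (Fin n) → Set (Fin n) → Set (Fin n)) (i : ℕ) : Set (Fin n) :=
  (stepG G k cut)^[i] ∅

theorem del_le (S : Set (Fin n)) : del G S ≤ G := fun _ _ h => h.1

theorem del_anti {S S' : Set (Fin n)} (h : S ⊆ S') : del G S' ≤ del G S := by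
  intro x y hxy
  exact ⟨hxy.1, fun hx => hxy.2.1 (h hx), fun hy => hxy.2.2 (h hy)⟩

theorem del_mono {S : Set (Fin n)} (h : H ≤ G) : del H S ≤ del G S := by
  intro x y hxy
  exact ⟨h hxy.1, hxy.2.1, hxy.2.2⟩

theorem si_succ (i : ℕ) : Si G k cut (i + 1) = Si G k cut i ∪ newG G (del G (Si G k cut i)) k (cut (del G (Si G k cut i))) := by
  unfold Si
  rw [Function.iterate_succ_apply']
  rfl

theorem si_mono {i j : ℕ} (h : i ≤ j) : Si G k cut i ⊆ Si G k cut j := by
  induction h with
  | refl => exact subset_rfl
  | step _ ih =>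
    refine ih.trans ?_
    intro x hx
    have h2 := si_succ (G := G) (k := k) (cut := cut)
    rw [Nat.succ_eq_add_one, h2]
    exact Or.inl hx

theorem not_mem_of_reach {S : Set (Fin n)} {x y : Fin n} (h : (del G S).Reachable x y) (hne : x ≠ y) : x ∉ S := by
  rw [SimpleGraph.reachable_iff_reflTransGen] at h
  rcases Relation.ReflTransGen.cases_head h with h1 | ⟨z, hz, _⟩
  · exact absurd h1 hne
  · exact hz.2.1

/-- a component with at least two vertices contains no removed vertex -/
theorem not_mem_of_card {S : Set (Fin n)} {x y : Fin n} (h : (del G S).Reachable x y) (hc : 1 < (cmp (del G S) x).ncard) : y ∉ S := by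
  have hfin : (cmp (del G S) x).Finite := Set.toFinite _
  obtain ⟨a, ha, hay⟩ := Set.exists_ne_of_one_lt_ncard hc y
  have h1 : (del G S).Reachable x a := ha
  exact not_mem_of_reach (h.symm.trans h1) (fun e => hay e.symm)

/-- a connection in a smaller graph avoids `Y` -/
theorem reach_del (hH : H' ≤ H) {Y : Set (Fin n)} {u v : Fin n} (hY : ∀ x, H'.Reachable u x → x ∉ Y) (h : H'.Reachable u v) : (del H Y).Reachable u v := by
  rw [SimpleGraph.reachable_iff_reflTransGen] at h
  induction h with
  | refl => exact SimpleGraph.Reachable.refl _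
  | @tail b c hb hbc ih =>
    have h1 : H'.Reachable u b := by
      rw [SimpleGraph.reachable_iff_reflTransGen]; exact hb
    have h2 : H'.Reachable u c := h1.trans (SimpleGraph.Adj.reachable hbc)
    have h3 : (del H Y).Adj b c := ⟨hH hbc, hY b h1, hY c h2⟩
    exact ih.trans (SimpleGraph.Adj.reachable h3)

theorem cmp_mono (hH : H' ≤ H) (x : Fin n) : cmp H' x ⊆ cmp H x := by
  intro y hy
  exact SimpleGraph.Reachable.mono hH hy

end Pool.Agent.TW
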