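import Pool.Agent.Lib.MP_0087d5_lc.TW.SepDefs
import Pool.Agent.Lib.MP_0087d5_lc.EXA.LoopE

/-!
# The separating set from a maximum matching (König)
-/

set_option autoImplicit false
set_option linter.all false

namespace Pool.Agent.TW

open Relation Pool.Agent.AUG Pool.Agent.SUB Pool.Agent.EXA

variable {n : ℕ}

/-- A matching between the left and the right copies. -/
structure LM (E : Fin n → Fin n → Prop) (M : Fin n → Fin n → Prop) : Prop where
  sub : ∀ u v, M u v → E u v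
  left : ∀ u v v', M u v → M u v' → v = v'
  right : ∀ u u' v, M u v → M u' v → u = u'

/-- The number of matched left copies. -/
noncomputable def lc (M : Fin n → Fin n → Prop) : ℕ := {u | ∃ v, M u v}.ncard

theorem bip_adj {E : Fin n → Fin n → Prop} {u v : Fin n} : (bip E).Adj (dbl u 0) (dbl v 1) ↔ E u v := by
  show ((prt (dbl u 0) = 0 ∧ prt (dbl v 1) = 1 ∧ E (hlf (dbl u 0)) (hlf (dbl v 1))) ∨
    (prt (dbl v 1) = 0 ∧ prt (dbl u 0) = 1 ∧ E (hlf (dbl v 1)) (hlf (dbl u 0)))) ↔ E u v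
  rw [prt_dbl, prt_dbl, hlf_dbl, hlf_dbl]
  constructor
  · rintro (⟨-, -, h⟩ | ⟨h, -, -⟩)
    · exact h
    · exact absurd h (by decide)
  · exact fun h => Or.inl ⟨rfl, rfl, h⟩

/-- The edges of `bip M` correspond to the matched left copies. -/
theorem bip_edges {E M : Fin n → Fin n → Prop} (h : LM E M) : (bip M).edgeSet.ncard = lc M := by
  have hch : ∀ u : {u // ∃ v, M u v}, ∃ v, M u.1 v := fun u => u.2
  choose f hf using hch
  unfold lc
  rw [← Nat.card_coe_set_eq, ← Nat.card_coe_set_eq]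
  refine (Nat.card_congr (Equiv.ofBijective (fun u : {u // ∃ v, M u v} =>
    (⟨s(dbl u.1 0, dbl (f u) 1), bip_adj.2 (hf u)⟩ : (bip M).edgeSet)) ⟨?_, ?_⟩)).symm
  · intro u u' h1
    have h2 := congrArg Subtype.val h1
    simp only at h2
    rw [Sym2.eq_iff] at h2
    apply Subtype.ext
    rcases h2 with ⟨h3, -⟩ | ⟨h3, -⟩
    · exact (dbl_inj h3).1
    · exact absurd (dbl_inj h3).2 (by decide)
  · rintro ⟨e, he⟩
    induction e with
    | h x y =>
      obtain ⟨x, b, rfl⟩ := dbl_surj x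
      obtain ⟨y, c, rfl⟩ := dbl_surj y
      have he' : (bip M).Adj (dbl x b) (dbl y c) := he
      rcases he' with ⟨h1, h2, h3⟩ | ⟨h1, h2, h3⟩
      · rw [prt_dbl] at h1 h2
        rw [hlf_dbl, hlf_dbl] at h3
        subst h1
        subst h2
        refine ⟨⟨x, y, h3⟩, Subtype.ext ?_⟩
        simp only
        rw [h.left _ _ _ (hf ⟨x, y, h3⟩) h3]
      · rw [prt_dbl] at h1 h2
        rw [hlf_dbl, hlf_dbl] at h3
        subst h1
        subst h2
        refine ⟨⟨y, x, h3⟩, Subtype.ext ?_⟩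
        simp only
        rw [h.left _ _ _ (hf ⟨y, x, h3⟩) h3]
        exact Sym2.eq_swap

/-- Every subgraph of a bipartite graph `bip E` is of this form. -/
theorem eq_bip {E : Fin n → Fin n → Prop} {N : SimpleGraph (Fin (2 * n))} (h : N ≤ bip E) :
    N = bip (fun u v => N.Adj (dbl u 0) (dbl v 1)) := by
  ext x y
  obtain ⟨x, b, rfl⟩ := dbl_surj x
  obtain ⟨y, c, rfl⟩ := dbl_surj y
  constructor
  · intro h1
    rcases h h1 with ⟨h2, h3, h4⟩ | ⟨h2, h3, h4⟩
    · left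
      refine ⟨h2, h3, ?_⟩
      rw [prt_dbl] at h2 h3
      rw [hlf_dbl, hlf_dbl]
      subst h2
      subst h3
      exact h1
    · right
      refine ⟨h2, h3, ?_⟩
      rw [prt_dbl] at h2 h3
      rw [hlf_dbl, hlf_dbl]
      subst h2
      subst h3
      exact h1.symm
  · rintro (⟨h2, h3, h4⟩ | ⟨h2, h3, h4⟩)
    · rw [prt_dbl] at h2 h3
      rw [hlf_dbl, hlf_dbl] at h4
      subst h2
      subst h3
      exact h4
    · rw [prt_dbl] at h2 h3
      rw [hlf_dbl, hlf_dbl] at h4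
      subst h2
      subst h3
      exact h4.symm

theorem lm_of_mat {E : Fin n → Fin n → Prop} {N : SimpleGraph (Fin (2 * n))} (h : IsMat (bip E) N) :
    LM E (fun u v => N.Adj (dbl u 0) (dbl v 1)) := by
  refine ⟨fun u v h1 => bip_adj.1 (h.1 h1), fun u v v' h1 h2 => (dbl_inj (h.2 _ _ _ h1 h2)).1,
    fun u u' v h1 h2 => (dbl_inj (h.2 _ _ _ h1.symm h2.symm)).1⟩

theorem mat_of_lm {E M : Fin n → Fin n → Prop} (h : LM E M) : IsMat (bip E) (bip M) := by
  constructor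
  · intro x y hxy
    rcases hxy with ⟨h2, h3, h4⟩ | ⟨h2, h3, h4⟩
    · exact Or.inl ⟨h2, h3, h.sub _ _ h4⟩
    · exact Or.inr ⟨h2, h3, h.sub _ _ h4⟩
  · intro x y y' h1 h2
    obtain ⟨x, b, rfl⟩ := dbl_surj x
    obtain ⟨y, c, rfl⟩ := dbl_surj y
    obtain ⟨y', c', rfl⟩ := dbl_surj y'
    rcases h1 with ⟨h3, h4, h5⟩ | ⟨h3, h4, h5⟩ <;> rcases h2 with ⟨h6, h7, h8⟩ | ⟨h6, h7, h8⟩ <;>
      rw [prt_dbl] at h3 h4 h6 h7 <;> rw [hlf_dbl, hlf_dbl] at h5 h8 <;> subst h3 <;> subst h4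
    · subst h7
      rw [h.left _ _ _ h5 h8]
    · exact absurd h7 (by decide)
    · exact absurd h6 (by decide)
    · subst h6
      rw [h.right _ _ _ h5 h8]

/-- Weak duality: a matching is not larger than a vertex cover. -/
theorem lc_le_cover {E M : Fin n → Fin n → Prop} (h : LM E M) (KL KR : Set (Fin n))
    (hK : ∀ u v, E u v → u ∈ KL ∨ v ∈ KR) : lc M ≤ KL.ncard + KR.ncard := by
  classical
  have hch : ∀ u : {u // ∃ v, M u v}, ∃ v, M u.1 v := fun u => u.2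
  choose f hf using hch
  have h1 : {u | ∃ v, M u v} ⊆ KL ∪ {u | ∃ v ∈ KR, M u v} := by
    rintro u ⟨v, hv⟩
    rcases hK u v (h.sub _ _ hv) with h2 | h2
    · exact Or.inl h2
    · exact Or.inr ⟨v, h2, hv⟩
  have h2 : {u | ∃ v ∈ KR, M u v}.ncard ≤ KR.ncard := by
    refine Set.ncard_le_ncard_of_injOn (fun u => if hu : ∃ v, M u v then f ⟨u, hu⟩ else u) ?_ ?_ (Set.toFinite _)
    · rintro u ⟨v, hv, huv⟩
      have hu : ∃ v, M u v := ⟨v, huv⟩
      simp only [hu, dif_pos]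
      rw [h.left _ _ _ (hf ⟨u, hu⟩) huv]
      exact hv
    · rintro u ⟨v, hv, huv⟩ u' ⟨v', hv', huv'⟩ he
      have hu : ∃ v, M u v := ⟨v, huv⟩
      have hu' : ∃ v, M u' v := ⟨v', huv'⟩
      simp only [hu, hu', dif_pos] at he
      have h3 := hf ⟨u, hu⟩
      rw [he] at h3
      exact h.right _ _ _ h3 (hf ⟨u', hu'⟩)
  calc lc M ≤ (KL ∪ {u | ∃ v ∈ KR, M u v}).ncard := Set.ncard_le_ncard h1 (Set.toFinite _)
    _ ≤ KL.ncard + {u | ∃ v ∈ KR, M u v}.ncard := Set.ncard_union_le _ _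
    _ ≤ KL.ncard + KR.ncard := Nat.add_le_add_left h2 _

end Pool.Agent.TW
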