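import Pool.Agent.Lib.MP_0087d5_lc.TW.Koe

/-!
# The separating set from a maximum matching (König): the theorem
-/

set_option autoImplicit false
set_option linter.all false

namespace Pool.Agent.TW

open Relation Pool.Agent.AUG Pool.Agent.SUB Pool.Agent.EXA

variable {n : ℕ} {H : SimpleGraph (Fin n)} {A B : Set (Fin n)}

/-- Paths in `del H X` starting outside `X` stay outside `X`. -/
theorem del_reach_notMem {X : Set (Fin n)} {a b : Fin n} (ha : a ∉ X) (h : (del H X).Reachable a b) : b ∉ X := by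
  rw [SimpleGraph.reachable_iff_reflTransGen] at h
  induction h with
  | refl => exact ha
  | tail _ h1 _ => exact h1.2.2

/-- The set belonging to a matching separates (for every `N`). -/
theorem sp_kX (N : SimpleGraph (Fin (2 * n))) : Sp H (kX H A B N) A B := by
  intro a ha b hb haX hbX hr
  -- invariant along the path: either the point is in `A`, or it is reached on the right
  have key : ∀ v, (del H (kX H A B N)).Reachable a v → v ∉ kX H A B N → v ∉ B ∧ zL H A B N v := by
    intro v hv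
    rw [SimpleGraph.reachable_iff_reflTransGen] at hv
    have hA : ∀ v, v ∈ A → v ∉ kX H A B N → v ∉ B ∧ zL H A B N v := by
      intro v h1 h2
      by_cases h3 : v ∈ B
      · exact absurd (Or.inl ⟨h1, h3⟩) h2
      · refine ⟨h3, ?_⟩
        by_contra h4
        exact h2 (Or.inr (Or.inl ⟨h1, h3, h4⟩))
    induction hv with
    | refl => exact hA a ha
    | @tail v w _ h1 ih =>
      intro hw
      obtain ⟨h2, h3⟩ := ih h1.2.1
      by_cases h4 : w ∈ A
      · exact hA w h4 hw
      · have h5 : zR H A B N w := ⟨v, h3, h2, h4, Or.inr h1.1⟩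
        by_cases h6 : w ∈ B
        · exact absurd (Or.inr (Or.inr (Or.inl ⟨h4, h6, h5⟩))) hw
        · refine ⟨h6, ?_⟩
          by_contra h7
          exact hw (Or.inr (Or.inr (Or.inr ⟨h4, h6, h7, h5⟩)))
  exact (key b hr hbX).1 hb

open Classical in
private theorem ncard_sum (P : Fin n → Prop) : {v | P v}.ncard = ∑ v : Fin n, if P v then 1 else 0 := by
  rw [Finset.sum_boole, Set.ncard_eq_toFinset_card']
  simp

theorem bm_lc : lc (fun u v : Fin n => u ∉ B ∧ v ∉ A ∧ u = v) = {v | v ∉ A ∧ v ∉ B}.ncard := by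
  unfold lc
  congr 1
  ext u
  constructor
  · rintro ⟨v, h1, h2, rfl⟩
    exact ⟨h2, h1⟩
  · rintro ⟨h1, h2⟩
    exact ⟨u, h2, h1, rfl⟩

theorem bm_lm : LM (bE H A B) (fun u v => u ∉ B ∧ v ∉ A ∧ u = v) :=
  ⟨fun u v h => ⟨h.1, h.2.1, Or.inl h.2.2⟩, fun u v v' h h' => h.2.2.symm.trans h'.2.2,
    fun u u' v h h' => h.2.2.trans h'.2.2.symm⟩

/-- Weak duality for separating sets. -/
theorem lc_le_sep {M : Fin n → Fin n → Prop} (h : LM (bE H A B) M) {Y : Set (Fin n)} (hY : Sp H Y A B) :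
    lc M + {v | v ∈ A ∧ v ∈ B}.ncard ≤ {v | v ∉ A ∧ v ∉ B}.ncard + Y.ncard := by
  classical
  let Rc : Fin n → Prop := fun u => u ∉ Y ∧ ∃ a ∈ A, a ∉ Y ∧ (del H Y).Reachable a u
  have h1 := lc_le_cover h {u | u ∉ B ∧ (u ∈ Y ∨ ¬ Rc u)} {v | v ∉ A ∧ (v ∈ Y ∨ Rc v)} (by
    rintro u v ⟨h1, h2, h3⟩
    by_cases h4 : u ∈ Y ∨ ¬ Rc u
    · exact Or.inl ⟨h1, h4⟩
    · right
      push Not at h4
      refine ⟨h2, ?_⟩
      by_cases h5 : v ∈ Y
      · exact Or.inl h5
      · right
        obtain ⟨h6, a, ha, haY, har⟩ := h4.2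
        rcases h3 with rfl | h3
        · exact ⟨h6, a, ha, haY, har⟩
        · refine ⟨h5, a, ha, haY, har.trans ?_⟩
          exact SimpleGraph.Adj.reachable (G := del H Y) ⟨h3, h6, h5⟩)
  have h2 : {u | u ∉ B ∧ (u ∈ Y ∨ ¬ Rc u)}.ncard + {v | v ∉ A ∧ (v ∈ Y ∨ Rc v)}.ncard + {v | v ∈ A ∧ v ∈ B}.ncard ≤
      {v | v ∉ A ∧ v ∉ B}.ncard + {v | v ∈ Y}.ncard := by
    rw [ncard_sum, ncard_sum, ncard_sum, ncard_sum, ncard_sum, ← Finset.sum_add_distrib, ← Finset.sum_add_distrib,
      ← Finset.sum_add_distrib]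
    refine Finset.sum_le_sum fun v _ => ?_
    have hAB : v ∈ A → v ∈ B → v ∈ Y := by
      intro h3 h4
      by_contra h5
      exact hY v h3 v h4 h5 h5 (SimpleGraph.Reachable.refl v)
    have hAR : v ∈ A → v ∉ Y → Rc v := fun h3 h4 => ⟨h4, v, h3, h4, SimpleGraph.Reachable.refl v⟩
    have hBR : v ∈ B → ¬ Rc v := by
      rintro h3 ⟨h4, a, ha, haY, har⟩
      exact hY a ha v h3 haY h4 har
    have hRY : Rc v → v ∉ Y := fun h3 => h3.1
    clear_value Rc
    by_cases h3 : v ∈ A <;> by_cases h4 : v ∈ B <;> by_cases h5 : v ∈ Y <;> by_cases h6 : Rc v <;>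
      simp only [h3, h4, h5, h6, not_true_eq_false, not_false_eq_true, true_and, and_true, false_and, and_false, true_or, or_true,
        false_or, or_false, if_true, if_false, and_self, or_self] <;>
      first | omega | exact absurd (hAR h3 h5) h6 | exact absurd h6 (hBR h4) | exact absurd (hAB h3 h4) h5 | exact absurd h5 (hRY h6)
  have h3 : {v | v ∈ Y} = Y := rfl
  rw [h3] at h2
  omega

/-- The relation form of the reachability. -/
def St (E M : Fin n → Fin n → Prop) (u w : Fin n) : Prop := ∃ v, E u v ∧ M w v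

/-- An alternating path of length `m` from `u0` to `u`. -/
def Ch (E M : Fin n → Fin n → Prop) (u0 : Fin n) : ℕ → Fin n → Prop
  | 0, u => u = u0
  | m + 1, w => ∃ u, Ch E M u0 m u ∧ St E M u w

theorem ch_of_rtg {E M : Fin n → Fin n → Prop} {u0 u : Fin n} (h : ReflTransGen (St E M) u0 u) : ∃ m, Ch E M u0 m u := by
  induction h with
  | refl => exact ⟨0, rfl⟩
  | tail _ h1 ih =>
    obtain ⟨m, hm⟩ := ih
    exact ⟨m + 1, _, hm, h1⟩

/-- An alternating path from an unmatched left copy to an unmatched right copy gives a larger matching. -/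
theorem augment {E : Fin n → Fin n → Prop} (u0 : Fin n) : ∀ (m : ℕ) (M : Fin n → Fin n → Prop), LM E M → (∀ v, ¬ M u0 v) →
    ∀ u v, Ch E M u0 m u → E u v → (∀ w, ¬ M w v) → ∃ M', LM E M' ∧ lc M < lc M' := by
  intro m
  induction m using Nat.strong_induction_on with
  | _ m ih =>
    intro M hM h0 u v hc hE hv
    by_cases hs : ∃ j < m, Ch E M u0 j u
    · obtain ⟨j, hj, hcj⟩ := hs
      exact ih j hj M hM h0 u v hcj hE hv
    · push Not at hs
      rcases m with _ | m
      · have hu : u = u0 := hc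
        subst hu
        refine ⟨fun a b => M a b ∨ (a = u ∧ b = v), ⟨?_, ?_, ?_⟩, ?_⟩
        · rintro a b (h1 | ⟨rfl, rfl⟩)
          · exact hM.sub _ _ h1
          · exact hE
        · rintro a b b' (h1 | ⟨rfl, rfl⟩) (h2 | ⟨h2, rfl⟩)
          · exact hM.left _ _ _ h1 h2
          · subst h2
            exact absurd h1 (h0 _)
          · exact absurd h2 (h0 _)
          · rfl
        · rintro a a' b (h1 | ⟨rfl, rfl⟩) (h2 | ⟨rfl, h2⟩)
          · exact hM.right _ _ _ h1 h2
          · subst h2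
            exact absurd h1 (hv _)
          · exact absurd h2 (hv _)
          · rfl
        · unfold lc
          refine Set.ncard_lt_ncard ?_ (Set.toFinite _)
          refine ⟨?_, ?_⟩
          · rintro a ⟨b, hb⟩
            exact ⟨b, Or.inl hb⟩
          · intro hsub
            obtain ⟨b, hb⟩ := hsub (show u ∈ {a | ∃ b, M a b ∨ (a = u ∧ b = v)} from ⟨v, Or.inr ⟨rfl, rfl⟩⟩)
            exact h0 b hb
      · obtain ⟨u', hu', v', hE', hM'⟩ := hc
        -- replace the edge `u v'` by `u v`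
        have hu0 : u ≠ u0 := fun h => hs 0 (Nat.succ_pos m) h
        let M1 : Fin n → Fin n → Prop := fun a b => (M a b ∧ a ≠ u) ∨ (a = u ∧ b = v)
        have hM1 : LM E M1 := by
          refine ⟨?_, ?_, ?_⟩
          · rintro a b (⟨h1, -⟩ | ⟨rfl, rfl⟩)
            · exact hM.sub _ _ h1
            · exact hE
          · rintro a b b' (⟨h1, h1'⟩ | ⟨rfl, rfl⟩) (⟨h2, h2'⟩ | ⟨h2, rfl⟩)
            · exact hM.left _ _ _ h1 h2
            · exact absurd h2 h1'
            · exact absurd rfl h2'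
            · rfl
          · rintro a a' b (⟨h1, h1'⟩ | ⟨rfl, rfl⟩) (⟨h2, h2'⟩ | ⟨rfl, h2⟩)
            · exact hM.right _ _ _ h1 h2
            · subst h2
              exact absurd h1 (hv _)
            · exact absurd h2 (hv _)
            · rfl
        have hlc : lc M1 = lc M := by
          unfold lc
          congr 1
          ext a
          constructor
          · rintro ⟨b, ⟨h1, -⟩ | ⟨rfl, rfl⟩⟩
            · exact ⟨b, h1⟩
            · exact ⟨v', hM'⟩
          · rintro ⟨b, h1⟩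
            by_cases h2 : a = u
            · exact ⟨v, Or.inr ⟨h2, rfl⟩⟩
            · exact ⟨b, Or.inl ⟨h1, h2⟩⟩
        have h01 : ∀ b, ¬ M1 u0 b := by
          rintro b (⟨h1, -⟩ | ⟨h1, -⟩)
          · exact h0 b h1
          · exact hu0 h1.symm
        have hch : ∀ j, j ≤ m → ∀ w, Ch E M u0 j w → Ch E M1 u0 j w := by
          intro j
          induction j with
          | zero => exact fun _ w h => h
          | succ j ihj =>
            rintro hj w ⟨w', hw', b, hb, hb'⟩
            refine ⟨w', ihj (by omega) w' hw', b, hb, Or.inl ⟨hb', ?_⟩⟩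
            rintro rfl
            exact hs (j + 1) (by omega) ⟨w', hw', b, hb, hb'⟩
        have hv' : ∀ w, ¬ M1 w v' := by
          rintro w (⟨h1, h2⟩ | ⟨-, h2⟩)
          · exact h2 (hM.right _ _ _ h1 hM')
          · rw [h2] at hM'
            exact hv _ hM'
        obtain ⟨M', h1, h2⟩ := ih m (Nat.lt_succ_self m) M1 hM1 h01 u' v' (hch m le_rfl u' hu') hE' hv'
        exact ⟨M', h1, by rwa [hlc] at h2⟩

/-- For a maximum matching the set is small. -/
theorem kX_le {N : SimpleGraph (Fin (2 * n))} (h : IsMaxMat (bG H A B) N) {Y : Set (Fin n)} (hY : Sp H Y A B) :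
    (kX H A B N).ncard ≤ Y.ncard := by
  classical
  let M : Fin n → Fin n → Prop := fun u v => N.Adj (dbl u 0) (dbl v 1)
  have hM : LM (bE H A B) M := lm_of_mat h.1
  have hNe : N.edgeSet.ncard = lc M := by
    have h1 : N = bip M := eq_bip h.1.1
    have h2 := bip_edges hM
    rw [← h1] at h2
    exact h2
  have hmax : ∀ M', LM (bE H A B) M' → lc M' ≤ lc M := by
    intro M' hM'
    have h1 := h.2 (bip M') (mat_of_lm hM')
    rw [bip_edges hM', hNe] at h1
    exact h1
  -- the right copies that are reached are matched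
  have hR : ∀ v, zR H A B N v → ∃ w, M w v ∧ zL H A B N w := by
    rintro v ⟨u, ⟨u0, hu0, hun, hr⟩, hE⟩
    by_cases h1 : ∃ w, M w v
    · obtain ⟨w, hw⟩ := h1
      exact ⟨w, hw, u0, hu0, hun, hr.tail ⟨v, hE, hw⟩⟩
    · push Not at h1
      obtain ⟨m, hm⟩ := ch_of_rtg (E := bE H A B) (M := M) hr
      obtain ⟨M', h2, h3⟩ := augment u0 m M hM hun u v hm hE h1
      exact absurd (hmax M' h2) (by omega)
  have hL : ∀ u, u ∉ B → ¬ zL H A B N u → ∃ v, M u v := by
    intro u h1 h2
    by_contra h3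
    push Not at h3
    exact h2 ⟨u, h1, h3, ReflTransGen.refl⟩
  -- the vertex cover is not larger than the matching
  have hch : ∀ v : {v // zR H A B N v}, ∃ w, M w v.1 ∧ zL H A B N w := fun v => hR v.1 v.2
  choose f hf using hch
  have h1 : {v | v ∉ A ∧ zR H A B N v}.ncard ≤ {u | zL H A B N u ∧ ∃ v, M u v}.ncard := by
    refine Set.ncard_le_ncard_of_injOn (fun v => if hv : zR H A B N v then f ⟨v, hv⟩ else v) ?_ ?_ (Set.toFinite _)
    · rintro v ⟨-, hv⟩
      simp only [hv, dif_pos]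
      exact ⟨(hf ⟨v, hv⟩).2, v, (hf ⟨v, hv⟩).1⟩
    · rintro v ⟨-, hv⟩ v' ⟨-, hv'⟩ he
      simp only [hv, hv', dif_pos] at he
      have h3 := (hf ⟨v, hv⟩).1
      rw [he] at h3
      exact hM.left _ _ _ h3 (hf ⟨v', hv'⟩).1
  have h2 : {u | u ∉ B ∧ ¬ zL H A B N u}.ncard ≤ {u | ¬ zL H A B N u ∧ ∃ v, M u v}.ncard := by
    refine Set.ncard_le_ncard ?_ (Set.toFinite _)
    rintro u ⟨h3, h4⟩
    exact ⟨h4, hL u h3 h4⟩
  have h3 : {u | zL H A B N u ∧ ∃ v, M u v}.ncard + {u | ¬ zL H A B N u ∧ ∃ v, M u v}.ncard = lc M := by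
    unfold lc
    rw [ncard_sum, ncard_sum, ncard_sum, ← Finset.sum_add_distrib]
    refine Finset.sum_congr rfl fun v _ => ?_
    by_cases h4 : zL H A B N v <;> by_cases h5 : ∃ w, M v w <;> simp [h4, h5]
  have h4 : {v | v ∈ kX H A B N}.ncard + {v | v ∉ A ∧ v ∉ B}.ncard ≤
      {u | u ∉ B ∧ ¬ zL H A B N u}.ncard + {v | v ∉ A ∧ zR H A B N v}.ncard + {v | v ∈ A ∧ v ∈ B}.ncard := by
    rw [ncard_sum, ncard_sum, ncard_sum, ncard_sum, ncard_sum, ← Finset.sum_add_distrib, ← Finset.sum_add_distrib,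
      ← Finset.sum_add_distrib]
    refine Finset.sum_le_sum fun v _ => ?_
    have hz : v ∉ A → v ∉ B → zL H A B N v → zR H A B N v := fun h5 h6 h7 => ⟨v, h7, h6, h5, Or.inl rfl⟩
    have hk : v ∈ kX H A B N ↔ ((v ∈ A ∧ v ∈ B) ∨ (v ∈ A ∧ v ∉ B ∧ ¬ zL H A B N v) ∨ (v ∉ A ∧ v ∈ B ∧ zR H A B N v) ∨
      (v ∉ A ∧ v ∉ B ∧ ¬ zL H A B N v ∧ zR H A B N v)) := Iff.rfl
    by_cases h5 : v ∈ A <;> by_cases h6 : v ∈ B <;> by_cases h7 : zL H A B N v <;> by_cases h8 : zR H A B N v <;>
      simp only [hk, h5, h6, h7, h8, not_true_eq_false, not_false_eq_true, true_and, and_true, false_and, and_false, true_or, or_true,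
        false_or, or_false, if_true, if_false, and_self, or_self] <;> first | omega | exact absurd (hz h5 h6 h7) h8
  have h5 : {v | v ∈ kX H A B N} = kX H A B N := rfl
  rw [h5] at h4
  have h6 := lc_le_sep hM hY
  omega

theorem kcut_ncard (H : SimpleGraph (Fin n)) (A B : Set (Fin n)) (t k : ℕ) : (kcut H A B t k).ncard ≤ k := by
  unfold kcut
  split_ifs with h
  · exact h
  · rw [Set.ncard_empty]
    exact Nat.zero_le k

/-- `kcut` separates if there is a separating set with at most `k` elements. -/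
theorem kcut_sp {t k : ℕ} (hk : k < t) {Y : Set (Fin n)} (hYk : Y.ncard ≤ k) (hY : Sp H Y A B) : Sp H (kcut H A B t k) A B := by
  have h0 : IsMat (bG H A B) (bM A B) := mat_of_lm bm_lm
  obtain ⟨h1, h2⟩ := sAug_it h0 t
  have h3 : IsMaxMat (bG H A B) (bN H A B t) := by
    rcases h2 with h2 | ⟨h2, -⟩
    · exact h2
    · exfalso
      have hM : LM (bE H A B) (fun u v => (bN H A B t).Adj (dbl u 0) (dbl v 1)) := lm_of_mat h1
      have h4 := lc_le_sep hM hY
      have h5 : (bN H A B t).edgeSet.ncard = lc (fun u v => (bN H A B t).Adj (dbl u 0) (dbl v 1)) := by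
        have h6 : bN H A B t = bip (fun u v => (bN H A B t).Adj (dbl u 0) (dbl v 1)) := eq_bip h1.1
        have h7 := bip_edges hM
        rw [← h6] at h7
        exact h7
      have h6 : (bM A B).edgeSet.ncard = {v | v ∉ A ∧ v ∉ B}.ncard := by
        rw [← bm_lc]
        exact bip_edges (bm_lm (H := H))
      have h7 : (bN H A B t).edgeSet.ncard = ((sAug (2 * n) (bG H A B))^[t] (bM A B)).edgeSet.ncard := rfl
      omega
  have h4 := kX_le h3 hY
  unfold kcut
  rw [if_pos (h4.trans hYk)]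
  exact sp_kX _

end Pool.Agent.TW
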