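import Pool.Agent.Lib.MP_0087d5_lc.TW.TFin
import Pool.Agent.Lib.MP_0087d5_lc.TW.Comb

/-!
# Maximum matchings of graphs of polylogarithmic treewidth: the final statements
-/

set_option autoImplicit false
set_option linter.all false

namespace Pool.Agent.TW

open Relation Pool.Agent.UPM Pool.Agent.AUG Pool.Agent.EXA

/-- One function in NC: augmenting, locally maximal, and maximum on graphs of treewidth at most `(log n)^c`. -/
theorem tw_all (c : ℕ) : ∃ F : ∀ n : ℕ, SimpleGraph (Fin n) → SimpleGraph (Fin n) → SimpleGraph (Fin n), FunNC2 F ∧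
    ∀ (n : ℕ) (G M : SimpleGraph (Fin n)), IsMat G M → IsMat G (F n G M) ∧ (F n G M = M ↔ IsMaxMat G M) ∧
      (IsMaxMat G (F n G M) ∨ M.edgeSet.ncard + Nat.log 2 n ^ c ≤ (F n G M).edgeSet.ncard) ∧
      LocMax G (F n G M) (Nat.log 2 n ^ c) ∧ (Impr G (Nat.log 2 n ^ c) → IsMaxMat G (F n G M)) ∧
      (TwLE G (Nat.log 2 n ^ c) → IsMaxMat G (F n G M)) := by
  obtain ⟨T, hT, hTs⟩ := tw_graph c
  obtain ⟨F, h1, h2⟩ := comb c T hT (fun n G => TwLE G (Nat.log 2 n ^ c)) hTs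
  exact ⟨F, relNC2_of_NCP h1, h2⟩

end Pool.Agent.TW
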