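import Pool.Agent.Lib.MP_0087d5_lc.TW.Base

/-!
# T2, F1: roots and parents (job Par)

`rt_exists`: the least element of the finite set `{y | H.Reachable y x}`. `rt_same`: `Rt` only depends on the component.
`par_exists`: take a walk from `x` to `r` of length `H.dist x r > 0` (`SimpleGraph.Reachable.exists_walk_length_eq_dist`); it is `cons (h : H.Adj x y) q` with `q.length + 1 = dist`, so
`H.dist r y ≤ q.length` (`SimpleGraph.dist_le`, `SimpleGraph.dist_comm`) and `H.dist r x ≤ H.dist r y + 1` (`SimpleGraph.Connected.dist_triangle` needs `Connected`; use `SimpleGraph.dist_le` for the walk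
`q'.concat` of a shortest walk `q'` from `r` to `y`). So `Nr H y x`; then take the least `z` with `Nr H z x`.
`par_lt`: from the definition of `Nr` (the root is unique: `rt_unique`). `par_ne_root`: `H.dist r r = 0`.
-/

set_option autoImplicit false
set_option linter.all false

namespace Pool.Agent.TW

open Relation

variable {n : ℕ} {H : SimpleGraph (Fin n)}

theorem rt_exists (x : Fin n) : ∃ r, Rt H r x := by
  classical
  have hne : (Finset.univ.filter (fun y => H.Reachable y x)).Nonempty :=
    ⟨x, Finset.mem_filter.2 ⟨Finset.mem_univ _, SimpleGraph.Reachable.refl x⟩⟩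
  refine ⟨(Finset.univ.filter (fun y => H.Reachable y x)).min' hne, ?_, ?_⟩
  · exact (Finset.mem_filter.1 (Finset.min'_mem _ hne)).2
  · intro y hy
    exact Finset.min'_le (Finset.univ.filter (fun y => H.Reachable y x)) y (Finset.mem_filter.2 ⟨Finset.mem_univ _, hy⟩)

theorem rt_unique {r s x : Fin n} (h : Rt H r x) (h' : Rt H s x) : r = s := by
  exact le_antisymm (h.2 s h'.1) (h'.2 r h.1)

theorem rt_same {r x y : Fin n} (h : Rt H r x) (hxy : H.Reachable x y) : Rt H r y := by
  exact ⟨h.1.trans hxy, fun z hz => h.2 z (hz.trans hxy.symm)⟩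

theorem par_adj {y x : Fin n} (h : Par H y x) : H.Adj x y := h.1.1

theorem par_unique {a b x : Fin n} (h : Par H a x) (h' : Par H b x) : a = b :=
  le_antisymm (h.2 b h'.1) (h'.2 a h.1)

theorem par_dist {y x r : Fin n} (h : Par H y x) (hr : Rt H r x) : H.dist r y + 1 = H.dist r x := by
  obtain ⟨r', hr', hd⟩ := h.1.2
  have e : r' = r := rt_unique hr' hr
  rw [e] at hd
  exact hd

theorem par_exists {r x : Fin n} (hr : Rt H r x) (hx : x ≠ r) : ∃ y, Par H y x := by
  classical
  have key : ∃ y, Nr H y x := by
    obtain ⟨p, hp⟩ := (hr.1.symm).exists_walk_length_eq_dist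
    cases p with
    | nil => exact absurd rfl hx
    | cons hadj q =>
      rename_i y
      refine ⟨y, hadj, r, hr, ?_⟩
      have h1 : H.dist r y ≤ q.length := by
        rw [SimpleGraph.dist_comm]
        exact SimpleGraph.dist_le q
      have h2 : q.length + 1 = H.dist r x := by
        rw [SimpleGraph.dist_comm, ← hp]
        rfl
      have hry : H.Reachable r y := (q.reachable).symm
      obtain ⟨q', hq'⟩ := hry.exists_walk_length_eq_dist
      have h3 : H.dist r x ≤ H.dist r y + 1 := by
        have := SimpleGraph.dist_le (q'.concat hadj.symm)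
        rw [SimpleGraph.Walk.length_concat, hq'] at this
        exact this
      omega
  obtain ⟨y0, hy0⟩ := key
  have hne : (Finset.univ.filter (fun y => Nr H y x)).Nonempty :=
    ⟨y0, Finset.mem_filter.2 ⟨Finset.mem_univ _, hy0⟩⟩
  refine ⟨(Finset.univ.filter (fun y => Nr H y x)).min' hne, ?_, ?_⟩
  · exact (Finset.mem_filter.1 (Finset.min'_mem _ hne)).2
  · intro z hz
    exact Finset.min'_le (Finset.univ.filter (fun y => Nr H y x)) z (Finset.mem_filter.2 ⟨Finset.mem_univ _, hz⟩)

end Pool.Agent.TW
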