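import Pool.Agent.Lib.MP_0087d5_lc.TW.Bef

/-!
# T2, F5: the positions in the preorder (job Pre)

`pre_lt`: `{u | Bef H u a} ⊂ {u | Bef H u b}` (`bef_trans`; `a` is in the second set but not in the first one: `bef_irrefl`), `Set.ncard_lt_ncard` (`Set.toFinite`).
`pre_iff`: `bef_total`, `pre_lt`. `pre_inj`: `bef_total`, `pre_lt`.
`pre_bound`: `{u | Bef H u v} ⊆ cmp H v \ {v}`, `v ∈ cmp H v`.
`pre_surj`: `pre H` is injective on `cmp H v` (`pre_inj`) with values `< (cmp H v).ncard` (`cmp H u = cmp H v` for `u ∈ cmp H v`), so it is surjective onto the range: the image of the finite set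
`cmp H v` in `Finset.range (cmp H v).ncard` has the same number of elements (`Finset.card_image_of_injOn`, `Finset.eq_of_subset_of_card_le`).
`pre_sub`: `sub_interval` with `pre_iff`. `pre_anc`: `Anc H x v` gives `x = v` or `Bef H x v`.
-/

set_option autoImplicit false
set_option linter.all false

namespace Pool.Agent.TW

open Relation

variable {n : ℕ} {H : SimpleGraph (Fin n)}

theorem cmp_eq {x y : Fin n} (h : H.Reachable x y) : cmp H x = cmp H y := by
  ext z
  exact ⟨fun hz => h.symm.trans hz, fun hz => h.trans hz⟩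

theorem pre_lt {a b : Fin n} (h : Bef H a b) : pre H a < pre H b := by
  apply Set.ncard_lt_ncard _ (Set.toFinite _)
  refine ⟨fun u hu => bef_trans hu h, fun hs => ?_⟩
  exact bef_irrefl a (hs (show a ∈ {u | Bef H u b} from h))

theorem pre_iff {a b : Fin n} (h : H.Reachable a b) : pre H a < pre H b ↔ Bef H a b := by
  refine ⟨fun hlt => ?_, pre_lt⟩
  by_cases hab : a = b
  · subst hab
    exact absurd hlt (lt_irrefl _)
  · rcases bef_total h hab with hb | hb
    · exact hb
    · exact absurd (pre_lt hb) (by omega)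

theorem pre_inj {a b : Fin n} (h : H.Reachable a b) (he : pre H a = pre H b) : a = b := by
  by_contra hab
  rcases bef_total h hab with hb | hb
  · have := pre_lt hb
    omega
  · have := pre_lt hb
    omega

theorem pre_bound (v : Fin n) : pre H v < (cmp H v).ncard := by
  apply Set.ncard_lt_ncard _ (Set.toFinite _)
  refine ⟨fun u hu => (bef_reach hu).symm, fun hs => ?_⟩
  exact bef_irrefl v (hs (show v ∈ cmp H v from SimpleGraph.Reachable.refl v))

theorem pre_surj {v : Fin n} {i : ℕ} (hi : i < (cmp H v).ncard) : ∃ u, H.Reachable v u ∧ pre H u = i := by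
  classical
  have hfin : (cmp H v).Finite := Set.toFinite _
  have hmem : ∀ u, u ∈ hfin.toFinset ↔ H.Reachable v u := fun u => by
    rw [Set.Finite.mem_toFinset]
    exact Iff.rfl
  have hcard : hfin.toFinset.card = (cmp H v).ncard := (Set.ncard_eq_toFinset_card _ hfin).symm
  have hinj : Set.InjOn (pre H) (hfin.toFinset : Set (Fin n)) := by
    intro a ha b hb hab
    have ha' := (hmem a).1 (Finset.mem_coe.1 ha)
    have hb' := (hmem b).1 (Finset.mem_coe.1 hb)
    exact pre_inj (ha'.symm.trans hb') hab
  have hsub : hfin.toFinset.image (pre H) ⊆ Finset.range (cmp H v).ncard := by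
    intro j hj
    obtain ⟨u, hu, rfl⟩ := Finset.mem_image.1 hj
    have hu' := (hmem u).1 hu
    rw [Finset.mem_range, cmp_eq hu']
    exact pre_bound u
  have heq : hfin.toFinset.image (pre H) = Finset.range (cmp H v).ncard := by
    apply Finset.eq_of_subset_of_card_le hsub
    rw [Finset.card_image_of_injOn hinj, Finset.card_range, hcard]
  have hi' : i ∈ hfin.toFinset.image (pre H) := by
    rw [heq]
    exact Finset.mem_range.2 hi
  obtain ⟨u, hu, hui⟩ := Finset.mem_image.1 hi'
  exact ⟨u, (hmem u).1 hu, hui⟩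

theorem pre_anc {x v : Fin n} (h : Anc H x v) : pre H x ≤ pre H v := by
  by_cases hxv : x = v
  · rw [hxv]
  · exact (pre_lt (Or.inl ⟨h, hxv⟩)).le

/-- the subtree of `x` is an interval -/
theorem pre_sub {x a b v : Fin n} (ha : Anc H x a) (hb : Anc H x b) (hv : H.Reachable x v) (h1 : pre H a ≤ pre H v) (h2 : pre H v ≤ pre H b) : Anc H x v := by
  have hav : H.Reachable a v := (anc_reach ha).symm.trans hv
  have hvb : H.Reachable v b := hv.symm.trans (anc_reach hb)
  apply sub_interval ha hb
  · rcases h1.eq_or_lt with h | h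
    · exact Or.inl (pre_inj hav h)
    · exact Or.inr ((pre_iff hav).1 h)
  · rcases h2.eq_or_lt with h | h
    · exact Or.inl (pre_inj hvb h)
    · exact Or.inr ((pre_iff hvb).1 h)

end Pool.Agent.TW
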