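import Pool.Agent.Lib.MP_0087d5_lc.TW.PrgW

/-!
# Programs for the blocks and the hulls
-/

set_option autoImplicit false
set_option linter.all false

namespace Pool.Agent.TW

open Relation Pool.Agent.UPM Pool.Agent.AUG

variable {S : ℕ → Type} {B : Readers S} {G H : ∀ n, S n → SimpleGraph (Fin n)}

/-- The blocks. -/
theorem ncp_blk (hG : NCP S B (Fin 2) (fun n s x => (G n s).Adj (x 0) (x 1))) (hH : NCP S B (Fin 2) (fun n s x => (H n s).Adj (x 0) (x 1)))
    (hpre : NCP S B (Fin 2) (fun n s x => pre (H n s) (x 0) = (x 1 : ℕ))) (hpl : ∀ n s v, pre (H n s) v < n) (K c : ℕ)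
    {ι : Type} (hι : Finite ι) (i j : ι) : NCP S B ι (fun n s x => Blk (G n s) (H n s) (K * Nat.size (n - 1) ^ c) (x i) (x j)) := by
  -- the four numbers `w, a, b, d`
  have h1 : NCP S B (Option (Option (Option (Option ι)))) (fun n s z =>
      wd (G n s) (K * Nat.size (n - 1) ^ c) (z (some (some (some (some i))))) = (z (some (some (some none))) : ℕ) ∧
      pre (H n s) (z (some (some (some (some i))))) = (z (some (some none)) : ℕ) ∧
      pre (H n s) (z (some (some (some (some j))))) = (z (some none) : ℕ) ∧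
      (z (some (some (some none))) : ℕ) ∣ (z (some (some none)) : ℕ) ∧
      (z (some (some none)) : ℕ) + (z none : ℕ) = (z (some none) : ℕ) ∧ z none < z (some (some (some none)))) := by
    refine NCP.and (ncp_wd hG K c inferInstance _ _) (NCP.and ?_ (NCP.and ?_ (NCP.and (ncp_dvd inferInstance _ _)
      (NCP.and (NCP.add inferInstance _ _ _) (NCP.lt inferInstance _ _)))))
    · exact NCP.comap inferInstance ![some (some (some (some i))), some (some none)] hpre
    · exact NCP.comap inferInstance ![some (some (some (some j))), some none] hpre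
  have h2 : NCP S B ι (fun n s x => ∃ w a b d : Fin n, wd (G n s) (K * Nat.size (n - 1) ^ c) (x i) = (w : ℕ) ∧ pre (H n s) (x i) = (a : ℕ) ∧
      pre (H n s) (x j) = (b : ℕ) ∧ (w : ℕ) ∣ (a : ℕ) ∧ (a : ℕ) + (d : ℕ) = (b : ℕ) ∧ d < w) :=
    NCP.ex (NCP.ex (NCP.ex (NCP.ex h1)))
  refine (NCP.and (TWR.ncp_reach hH hι i j) h2).congr fun n s x => ?_
  unfold Blk
  refine and_congr_right fun _ => ?_
  constructor
  · rintro ⟨w, a, b, d, h3, h4, h5, h6, h7, h8⟩
    have h9 : (d : ℕ) < (w : ℕ) := h8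
    rw [h3, h4, h5]
    exact ⟨h6, by omega, by omega⟩
  · rintro ⟨h3, h4, h5⟩
    have h6 : wd (G n s) (K * Nat.size (n - 1) ^ c) (x i) < n := by
      unfold wd
      refine lt_of_le_of_lt (Nat.div_le_self _ _) ?_
      rw [cmp_card, Nat.add_sub_cancel]
      exact cmp_card_lt _ _
    have h7 := hpl n s (x i)
    have h8 := hpl n s (x j)
    refine ⟨⟨_, h6⟩, ⟨_, h7⟩, ⟨_, h8⟩, ⟨pre (H n s) (x j) - pre (H n s) (x i), by omega⟩, rfl, rfl, rfl, h3, ?_, ?_⟩
    · show pre (H n s) (x i) + (pre (H n s) (x j) - pre (H n s) (x i)) = pre (H n s) (x j)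
      omega
    · show pre (H n s) (x j) - pre (H n s) (x i) < wd (G n s) (K * Nat.size (n - 1) ^ c) (x i)
      omega

/-- Comparison of the positions. -/
theorem ncp_pre_le (hpre : NCP S B (Fin 2) (fun n s x => pre (H n s) (x 0) = (x 1 : ℕ))) (hpl : ∀ n s v, pre (H n s) v < n)
    {ι : Type} (hι : Finite ι) (i j : ι) : NCP S B ι (fun n s x => pre (H n s) (x i) ≤ pre (H n s) (x j)) := by
  have h1 : NCP S B (Option (Option ι)) (fun n s z => pre (H n s) (z (some (some i))) = (z (some none) : ℕ) ∧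
      pre (H n s) (z (some (some j))) = (z none : ℕ) ∧ z (some none) ≤ z none) := by
    refine NCP.and ?_ (NCP.and ?_ (NCP.le inferInstance _ _))
    · exact NCP.comap inferInstance ![some (some i), some none] hpre
    · exact NCP.comap inferInstance ![some (some j), none] hpre
  have h2 : NCP S B ι (fun n s x => ∃ a b : Fin n, pre (H n s) (x i) = (a : ℕ) ∧ pre (H n s) (x j) = (b : ℕ) ∧ a ≤ b) :=
    NCP.ex (NCP.ex h1)
  refine h2.congr fun n s x => ?_
  constructor
  · rintro ⟨a, b, h3, h4, h5⟩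
    rw [h3, h4]
    exact h5
  · intro h3
    exact ⟨⟨_, hpl n s (x i)⟩, ⟨_, hpl n s (x j)⟩, rfl, rfl, h3⟩

/-- The last vertex of a block. -/
theorem ncp_lst (hG : NCP S B (Fin 2) (fun n s x => (G n s).Adj (x 0) (x 1))) (hH : NCP S B (Fin 2) (fun n s x => (H n s).Adj (x 0) (x 1)))
    (hpre : NCP S B (Fin 2) (fun n s x => pre (H n s) (x 0) = (x 1 : ℕ))) (hpl : ∀ n s v, pre (H n s) v < n) (K c : ℕ)
    {ι : Type} (hι : Finite ι) (i j : ι) : NCP S B ι (fun n s x => Lst (G n s) (H n s) (K * Nat.size (n - 1) ^ c) (x i) (x j)) := by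
  refine (NCP.and (ncp_blk hG hH hpre hpl K c hι i j) (NCP.all1 (R := fun n s x v => Blk (G n s) (H n s) (K * Nat.size (n - 1) ^ c) (x i) v →
    pre (H n s) v ≤ pre (H n s) (x j)) (NCP.imp (ncp_blk hG hH hpre hpl K c inferInstance (some i) none)
      (ncp_pre_le hpre hpl inferInstance none (some j))))).congr fun n s x => Iff.rfl

/-- The lowest common ancestor of a block: arguments `z`, `m`. -/
theorem ncp_zm (hG : NCP S B (Fin 2) (fun n s x => (G n s).Adj (x 0) (x 1))) (hH : NCP S B (Fin 2) (fun n s x => (H n s).Adj (x 0) (x 1)))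
    (hAnc : NCP S B (Fin 2) (fun n s x => Anc (H n s) (x 0) (x 1)))
    (hpre : NCP S B (Fin 2) (fun n s x => pre (H n s) (x 0) = (x 1 : ℕ))) (hpl : ∀ n s v, pre (H n s) v < n) (K c : ℕ)
    {ι : Type} (hι : Finite ι) (i j : ι) : NCP S B ι (fun n s x => Zm (G n s) (H n s) (K * Nat.size (n - 1) ^ c) (x i) (x j)) := by
  have hA : ∀ {κ : Type} (hκ : Finite κ) (a b : κ), NCP S B κ (fun n s x => Anc (H n s) (x a) (x b)) := fun hκ a b =>
    NCP.rel2 (R := fun n s a b => Anc (H n s) a b) hκ hAnc a b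
  exact NCP.ex1 (R := fun n s x l => Lst (G n s) (H n s) (K * Nat.size (n - 1) ^ c) (x j) l ∧ Anc (H n s) (x i) (x j) ∧ Anc (H n s) (x i) l ∧
      ∀ y, Anc (H n s) y (x j) → Anc (H n s) y l → Anc (H n s) y (x i))
    (NCP.and (ncp_lst hG hH hpre hpl K c inferInstance (some j) none) (NCP.and (hA inferInstance (some i) (some j))
      (NCP.and (hA inferInstance (some i) none)
        (NCP.all1 (R := fun n s z y => Anc (H n s) y (z (some j)) → Anc (H n s) y (z none) → Anc (H n s) y (z (some i)))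
          (NCP.imp (hA inferInstance none (some (some j))) (NCP.imp (hA inferInstance none (some none)) (hA inferInstance none (some (some i)))))))))

/-- The hull of a block: arguments `m`, `x`. -/
theorem ncp_hull (hG : NCP S B (Fin 2) (fun n s x => (G n s).Adj (x 0) (x 1))) (hH : NCP S B (Fin 2) (fun n s x => (H n s).Adj (x 0) (x 1)))
    (hAnc : NCP S B (Fin 2) (fun n s x => Anc (H n s) (x 0) (x 1)))
    (hpre : NCP S B (Fin 2) (fun n s x => pre (H n s) (x 0) = (x 1 : ℕ))) (hpl : ∀ n s v, pre (H n s) v < n) (K c : ℕ)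
    {ι : Type} (hι : Finite ι) (i j : ι) : NCP S B ι (fun n s x => x j ∈ Hull (G n s) (H n s) (K * Nat.size (n - 1) ^ c) (x i)) := by
  have hA : ∀ {κ : Type} (hκ : Finite κ) (a b : κ), NCP S B κ (fun n s x => Anc (H n s) (x a) (x b)) := fun hκ a b =>
    NCP.rel2 (R := fun n s a b => Anc (H n s) a b) hκ hAnc a b
  exact NCP.or (ncp_blk hG hH hpre hpl K c hι i j) (NCP.and (hA hι j i)
    (NCP.ex1 (R := fun n s x z => Zm (G n s) (H n s) (K * Nat.size (n - 1) ^ c) z (x i) ∧ Anc (H n s) z (x j))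
      (NCP.and (ncp_zm hG hH hAnc hpre hpl K c inferInstance none (some i)) (hA inferInstance none (some j)))))

end Pool.Agent.TW
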