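import Pool.Agent.Lib.MP_0087d5_lc.TW.Base
import Pool.Agent.Lib.MP_0087d5_lc.AUG.Prog

/-!
# Programs for the breadth first search forest

For a graph whose adjacency is a program: `pf_reach` (reachability), `pf_dist` (distances), `pf_rt` (roots), `pf_nr`, `pf_par` (parents), `pf_anc` (ancestors), `pf_bef` (the preorder), `pf_pre` (the positions in the preorder).
-/

set_option autoImplicit false
set_option linter.all false

namespace Pool.Agent.TW

open Relation Pool.Agent.UPM Pool.Agent.AUG

/-! ### Walks of a given length -/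

/-- One step of a walk with a counter. -/
private def pfS {n : ℕ} (H : SimpleGraph (Fin n)) (a b : Fin n × Fin n) : Prop := H.Adj a.1 b.1 ∧ (b.2 : ℕ) = (a.2 : ℕ) + 1

private theorem pf_walk1 {n : ℕ} (H : SimpleGraph (Fin n)) {a b : Fin n × Fin n} (h : ReflTransGen (pfS H) a b) :
    ∃ p : H.Walk a.1 b.1, (b.2 : ℕ) = (a.2 : ℕ) + p.length := by
  induction h with
  | refl => exact ⟨SimpleGraph.Walk.nil, rfl⟩
  | tail _ hbc ih =>
    obtain ⟨p, hp⟩ := ih
    refine ⟨p.concat hbc.1, ?_⟩
    rw [SimpleGraph.Walk.length_concat, hbc.2, hp]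
    omega

private theorem pf_walk2 {n : ℕ} (H : SimpleGraph (Fin n)) {u v : Fin n} (p : H.Walk u v) :
    ∀ (i j : Fin n), (j : ℕ) = (i : ℕ) + p.length → ReflTransGen (pfS H) (u, i) (v, j) := by
  induction p with
  | nil =>
    intro i j h
    have : j = i := Fin.ext (by simpa using h)
    rw [this]
  | cons hadj p ih =>
    intro i j h
    rw [SimpleGraph.Walk.length_cons] at h
    have hi : (i : ℕ) + 1 < n := by
      have := j.2
      omega
    refine ReflTransGen.head (b := (_, ⟨(i : ℕ) + 1, hi⟩)) ⟨hadj, rfl⟩ (ih _ _ ?_)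
    show (j : ℕ) = (i : ℕ) + 1 + p.length
    omega

private theorem pf_walk {n : ℕ} (H : SimpleGraph (Fin n)) (u v k : Fin n) :
    (∃ z : Fin n, (z : ℕ) = 0 ∧ ReflTransGen (pfS H) (u, z) (v, k)) ↔ ∃ p : H.Walk u v, p.length = (k : ℕ) := by
  constructor
  · rintro ⟨z, hz, h⟩
    obtain ⟨p, hp⟩ := pf_walk1 H h
    refine ⟨p, ?_⟩
    have h2 : (k : ℕ) = (z : ℕ) + p.length := hp
    omega
  · rintro ⟨p, hp⟩
    have hn : 0 < n := by
      have := k.2
      omega
    refine ⟨⟨0, hn⟩, rfl, pf_walk2 H p _ _ ?_⟩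
    show (k : ℕ) = 0 + p.length
    omega

private theorem pf_lt {n : ℕ} {H : SimpleGraph (Fin n)} {u v : Fin n} (h : H.Reachable u v) : H.dist u v < n := by
  obtain ⟨p, hp⟩ := h.exists_isPath
  have h1 := SimpleGraph.dist_le p
  have h2 := hp.length_lt
  rw [Fintype.card_fin] at h2
  omega

private theorem pf_dist_iff {n : ℕ} (H : SimpleGraph (Fin n)) (u v : Fin n) (k : Fin n) :
    ((∃ p : H.Walk u v, p.length = (k : ℕ)) ∧ ∀ j : Fin n, j < k → ¬ ∃ p : H.Walk u v, p.length = (j : ℕ)) ↔
      H.Reachable u v ∧ H.dist u v = (k : ℕ) := by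
  constructor
  · rintro ⟨⟨p, hp⟩, h⟩
    have hr : H.Reachable u v := ⟨p⟩
    refine ⟨hr, ?_⟩
    have h1 : H.dist u v ≤ (k : ℕ) := by
      rw [← hp]
      exact SimpleGraph.dist_le p
    by_contra hne
    obtain ⟨q, hq⟩ := hr.exists_walk_length_eq_dist
    refine h ⟨H.dist u v, pf_lt hr⟩ ?_ ⟨q, hq⟩
    rw [Fin.lt_def]
    show H.dist u v < (k : ℕ)
    omega
  · rintro ⟨hr, hd⟩
    obtain ⟨q, hq⟩ := hr.exists_walk_length_eq_dist
    refine ⟨⟨q, hq.trans hd⟩, ?_⟩
    rintro j hj ⟨p, hp⟩
    have h1 := SimpleGraph.dist_le p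
    rw [Fin.lt_def] at hj
    omega

section programs

variable {S : ℕ → Type} {B : Readers S} {H : ∀ n, S n → SimpleGraph (Fin n)}

/-- Reachability. -/
theorem pf_reach (h : NCP S B (Fin 2) (fun n s x => (H n s).Adj (x 0) (x 1))) {ι : Type} (hι : Finite ι) (i j : ι) :
    NCP S B ι (fun n s z => (H n s).Reachable (z i) (z j)) := by
  have h1 : NCP S B (Option (Option Empty)) (fun n s z => (H n s).Adj (z (some none)) (z none)) :=
    NCP.rel2 (R := fun n s a b => (H n s).Adj a b) inferInstance h (some none) none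
  have h2 := NCP.tc1 (ι := Empty) inferInstance (Q := fun n s _ a b => (H n s).Adj a b) h1
  have h3 : NCP S B ι (fun n s z => TransGen (H n s).Adj (z i) (z j)) :=
    NCP.comap hι (fun o : Option (Option Empty) => match o with
      | some (some e) => e.elim
      | some none => i
      | none => j) h2
  refine (NCP.or (NCP.eq hι i j) h3).congr fun n s z => ?_
  rw [SimpleGraph.reachable_iff_reflTransGen, reflTransGen_iff_eq_or_transGen]
  exact or_congr_left eq_comm

/-- Walks of a given length. -/
private theorem pf_wk (h : NCP S B (Fin 2) (fun n s x => (H n s).Adj (x 0) (x 1))) {ι : Type} (hι : Finite ι) (i j k : ι) :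
    NCP S B ι (fun n s z => ∃ p : (H n s).Walk (z i) (z j), p.length = ((z k : Fin n) : ℕ)) := by
  have h1 : NCP S B (Fin 5) (fun n s x => pfS (H n s) (x 1, x 2) (x 3, x 4)) :=
    NCP.and (NCP.rel2 (R := fun n s a b => (H n s).Adj a b) inferInstance h 1 3) (NCP.succ inferInstance 4 2)
  have h2 := rtc2 (S := S) (B := B) (R := fun n s _ => pfS (H n s)) h1
  have h3 : NCP S B (Option ι) (fun n s z => ReflTransGen (pfS (H n s)) (z (some i), z none) (z (some j), z (some k))) :=
    NCP.comap inferInstance ![none, some i, none, some j, some k] h2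
  refine (NCP.ex1 (R := fun n s z a => (a : ℕ) = 0 ∧ ReflTransGen (pfS (H n s)) (z i, a) (z j, z k))
    (NCP.and (NCP.zero inferInstance none) h3)).congr fun n s z => ?_
  exact pf_walk (H n s) (z i) (z j) (z k)

/-- Distances. -/
theorem pf_dist (h : NCP S B (Fin 2) (fun n s x => (H n s).Adj (x 0) (x 1))) {ι : Type} (hι : Finite ι) (i j k : ι) :
    NCP S B ι (fun n s z => (H n s).Reachable (z i) (z j) ∧ (H n s).dist (z i) (z j) = ((z k : Fin n) : ℕ)) := by
  have h1 := pf_wk h hι i j k
  have h2 : NCP S B ι (fun n s z => ∀ a : Fin n, a < z k → ¬ ∃ p : (H n s).Walk (z i) (z j), p.length = (a : ℕ)) :=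
    NCP.all1 (R := fun n s z a => a < z k → ¬ ∃ p : (H n s).Walk (z i) (z j), p.length = (a : ℕ))
      (NCP.imp (NCP.lt inferInstance none (some k)) (NCP.not (pf_wk (ι := Option ι) h inferInstance (some i) (some j) none)))
  refine (NCP.and h1 h2).congr fun n s z => ?_
  exact pf_dist_iff (H n s) (z i) (z j) (z k)

/-- Roots. -/
theorem pf_rt (h : NCP S B (Fin 2) (fun n s x => (H n s).Adj (x 0) (x 1))) {ι : Type} (hι : Finite ι) (i j : ι) :
    NCP S B ι (fun n s z => Rt (H n s) (z i) (z j)) := by
  refine NCP.and (pf_reach h hι i j) (NCP.all1 (R := fun n s z a => (H n s).Reachable a (z j) → z i ≤ a) ?_)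
  exact NCP.imp (pf_reach (ι := Option ι) h inferInstance none (some j)) (NCP.le inferInstance (some i) none)

/-- Neighbours which are nearer to the root. -/
theorem pf_nr (h : NCP S B (Fin 2) (fun n s x => (H n s).Adj (x 0) (x 1))) {ι : Type} (hι : Finite ι) (i j : ι) :
    NCP S B ι (fun n s z => Nr (H n s) (z i) (z j)) := by
  have h1 : NCP S B ι (fun n s z => (H n s).Adj (z j) (z i)) :=
    NCP.rel2 (R := fun n s a b => (H n s).Adj a b) hι h j i
  have h2 : NCP S B ι (fun n s z => ∃ r : Fin n, ∃ c : Fin n, ∃ d : Fin n, Rt (H n s) r (z j) ∧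
      ((H n s).Reachable r (z i) ∧ (H n s).dist r (z i) = (c : ℕ)) ∧
      ((H n s).Reachable r (z j) ∧ (H n s).dist r (z j) = (d : ℕ)) ∧ (d : ℕ) = (c : ℕ) + 1) := by
    refine NCP.ex1 (R := fun n s z r => ∃ c : Fin n, ∃ d : Fin n, Rt (H n s) r (z j) ∧
      ((H n s).Reachable r (z i) ∧ (H n s).dist r (z i) = (c : ℕ)) ∧
      ((H n s).Reachable r (z j) ∧ (H n s).dist r (z j) = (d : ℕ)) ∧ (d : ℕ) = (c : ℕ) + 1) ?_
    refine NCP.ex1 (R := fun n s z c => ∃ d : Fin n, Rt (H n s) (z none) (z (some j)) ∧
      ((H n s).Reachable (z none) (z (some i)) ∧ (H n s).dist (z none) (z (some i)) = (c : ℕ)) ∧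
      ((H n s).Reachable (z none) (z (some j)) ∧ (H n s).dist (z none) (z (some j)) = (d : ℕ)) ∧ (d : ℕ) = (c : ℕ) + 1) ?_
    refine NCP.ex1 (R := fun n s z d => Rt (H n s) (z (some none)) (z (some (some j))) ∧
      ((H n s).Reachable (z (some none)) (z (some (some i))) ∧ (H n s).dist (z (some none)) (z (some (some i))) = ((z none : Fin n) : ℕ)) ∧
      ((H n s).Reachable (z (some none)) (z (some (some j))) ∧ (H n s).dist (z (some none)) (z (some (some j))) = (d : ℕ)) ∧
        (d : ℕ) = ((z none : Fin n) : ℕ) + 1) ?_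
    exact NCP.and (pf_rt (ι := Option (Option (Option ι))) h inferInstance (some (some none)) (some (some (some j))))
      (NCP.and (pf_dist h inferInstance (some (some none)) (some (some (some i))) (some none))
        (NCP.and (pf_dist h inferInstance (some (some none)) (some (some (some j))) none)
          (NCP.succ inferInstance none (some none))))
  refine (NCP.and h1 h2).congr fun n s z => ?_
  unfold Nr
  refine and_congr_right fun hadj => exists_congr fun r => ?_
  constructor
  · rintro ⟨c, d, h3, ⟨-, h4⟩, ⟨-, h5⟩, h6⟩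
    exact ⟨h3, by omega⟩
  · rintro ⟨h3, h4⟩
    have h5 : (H n s).Reachable r (z i) := h3.1.trans hadj.reachable
    exact ⟨⟨_, pf_lt h5⟩, ⟨_, pf_lt h3.1⟩, h3, ⟨h5, rfl⟩, ⟨h3.1, rfl⟩, h4.symm⟩

/-- Parents. -/
theorem pf_par (h : NCP S B (Fin 2) (fun n s x => (H n s).Adj (x 0) (x 1))) {ι : Type} (hι : Finite ι) (i j : ι) :
    NCP S B ι (fun n s z => Par (H n s) (z i) (z j)) := by
  refine NCP.and (pf_nr h hι i j) (NCP.all1 (R := fun n s z a => Nr (H n s) a (z j) → z i ≤ a) ?_)
  exact NCP.imp (pf_nr (ι := Option ι) h inferInstance none (some j)) (NCP.le inferInstance (some i) none)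

/-- Ancestors. -/
theorem pf_anc (h : NCP S B (Fin 2) (fun n s x => (H n s).Adj (x 0) (x 1))) {ι : Type} (hι : Finite ι) (i j : ι) :
    NCP S B ι (fun n s z => Anc (H n s) (z i) (z j)) := by
  have h1 : NCP S B (Option (Option Empty)) (fun n s z => Par (H n s) (z (some none)) (z none)) :=
    pf_par h inferInstance (some none) none
  have h2 := NCP.tc1 (ι := Empty) inferInstance (Q := fun n s _ a b => Par (H n s) a b) h1
  have h3 : NCP S B ι (fun n s z => TransGen (Par (H n s)) (z i) (z j)) :=
    NCP.comap hι (fun o : Option (Option Empty) => match o with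
      | some (some e) => e.elim
      | some none => i
      | none => j) h2
  refine (NCP.or (NCP.eq hι i j) h3).congr fun n s z => ?_
  unfold Anc
  rw [reflTransGen_iff_eq_or_transGen]
  exact or_congr_left eq_comm

/-- The preorder. -/
theorem pf_bef (h : NCP S B (Fin 2) (fun n s x => (H n s).Adj (x 0) (x 1))) {ι : Type} (hι : Finite ι) (i j : ι) :
    NCP S B ι (fun n s z => Bef (H n s) (z i) (z j)) := by
  refine NCP.or (NCP.and (pf_anc h hι i j) (NCP.not (NCP.eq hι i j))) ?_
  refine NCP.ex1 (R := fun n s z a => ∃ b w, Par (H n s) w a ∧ Par (H n s) w b ∧ a < b ∧ Anc (H n s) a (z i) ∧ Anc (H n s) b (z j)) ?_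
  refine NCP.ex1 (R := fun n s z b => ∃ w, Par (H n s) w (z none) ∧ Par (H n s) w b ∧ z none < b ∧ Anc (H n s) (z none) (z (some i)) ∧
    Anc (H n s) b (z (some j))) ?_
  refine NCP.ex1 (R := fun n s z w => Par (H n s) w (z (some none)) ∧ Par (H n s) w (z none) ∧ z (some none) < z none ∧
    Anc (H n s) (z (some none)) (z (some (some i))) ∧ Anc (H n s) (z none) (z (some (some j)))) ?_
  exact NCP.and (pf_par (ι := Option (Option (Option ι))) h inferInstance none (some (some none)))
    (NCP.and (pf_par h inferInstance none (some none)) (NCP.and (NCP.lt inferInstance (some (some none)) (some none))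
      (NCP.and (pf_anc h inferInstance (some (some none)) (some (some (some i))))
        (pf_anc h inferInstance (some none) (some (some (some j)))))))

/-- The positions in the preorder. -/
theorem pf_pre (h : NCP S B (Fin 2) (fun n s x => (H n s).Adj (x 0) (x 1))) {ι : Type} (hι : Finite ι) (i j : ι) :
    NCP S B ι (fun n s z => pre (H n s) (z i) = ((z j : Fin n) : ℕ)) := by
  have h1 : NCP S B (Option Unit) (fun n s z => Bef (H n s) (z none) (z (some ()))) := pf_bef h inferInstance none (some ())
  have h2 := NCP.count (ι := Unit) (Q := fun n s z a => Bef (H n s) a (z ())) h1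
  exact NCP.comap hι (fun o : Option Unit => match o with
    | some _ => i
    | none => j) h2

/-- The sizes of the components. -/
theorem pf_cmp (h : NCP S B (Fin 2) (fun n s x => (H n s).Adj (x 0) (x 1))) {ι : Type} (hι : Finite ι) (i j : ι) :
    NCP S B ι (fun n s z => (cmp (H n s) (z i)).ncard = ((z j : Fin n) : ℕ)) := by
  have h1 : NCP S B (Option Unit) (fun n s z => (H n s).Reachable (z (some ())) (z none)) := pf_reach h inferInstance (some ()) none
  have h2 := NCP.count (ι := Unit) (Q := fun n s z a => (H n s).Reachable (z ()) a) h1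
  exact NCP.comap hι (fun o : Option Unit => match o with
    | some _ => i
    | none => j) h2

/-- The sizes of the components, minus one (this is always a number less than `n`). -/
theorem pf_cmp1 (h : NCP S B (Fin 2) (fun n s x => (H n s).Adj (x 0) (x 1))) {ι : Type} (hι : Finite ι) (i j : ι) :
    NCP S B ι (fun n s z => (cmp (H n s) (z i)).ncard = ((z j : Fin n) : ℕ) + 1) := by
  have h1 : NCP S B (Option Unit) (fun n s z => (H n s).Reachable (z (some ())) (z none) ∧ ¬ (z (some ()) = z none)) :=
    NCP.and (pf_reach h inferInstance (some ()) none) (NCP.not (NCP.eq inferInstance (some ()) none))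
  have h2 := NCP.count (ι := Unit) (Q := fun n s z a => (H n s).Reachable (z ()) a ∧ ¬ (z () = a)) h1
  have h3 : NCP S B ι (fun n s z => {a | (H n s).Reachable (z i) a ∧ ¬ (z i = a)}.ncard = ((z j : Fin n) : ℕ)) :=
    NCP.comap hι (fun o : Option Unit => match o with
      | some _ => i
      | none => j) h2
  refine h3.congr fun n s z => ?_
  have e : cmp (H n s) (z i) = insert (z i) {a | (H n s).Reachable (z i) a ∧ ¬ (z i = a)} := by
    ext a
    constructor
    · intro ha
      by_cases hz : z i = a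
      · exact Or.inl hz.symm
      · exact Or.inr ⟨ha, hz⟩
    · rintro (ha | ha)
      · rw [ha]
        exact SimpleGraph.Reachable.refl _
      · exact ha.1
  rw [e, Set.ncard_insert_of_notMem (fun ha => ha.2 rfl) (Set.toFinite _)]
  exact ⟨fun h => by rw [h], fun h => Nat.succ_injective h⟩

end programs

end Pool.Agent.TW
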