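import Pool.Agent.Lib.MP_0087d5_lc.TW.PrgN
import Pool.Agent.Lib.MP_0087d5_lc.TW.Koe2

/-!
# The program for the cut
-/

set_option autoImplicit false
set_option linter.all false

namespace Pool.Agent.TW

open Relation Pool.Agent.UPM Pool.Agent.AUG Pool.Agent.SUB Pool.Agent.EXA

/-- The cut with the parameters for the exponent `c`. -/
noncomputable def kc (c n : ℕ) (H : SimpleGraph (Fin n)) (A B : Set (Fin n)) : Set (Fin n) :=
  kcut H A B (3 * Nat.size (2 * n - 1) ^ c) (2 * Nat.size (n - 1) ^ c)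

section

variable {ι : Type}

private theorem pk_adj (hι : Finite ι) (i j : ι) : NCP CS CB ι (fun n s z => s.1.Adj (z i) (z j)) :=
  NCP.comap hι ![i, j] (NCP.base inferInstance CB.adj)

private theorem pk_A (hι : Finite ι) (i : ι) : NCP CS CB ι (fun n s z => z i ∈ s.2.1) :=
  NCP.comap hι ![i] (NCP.base inferInstance CB.lft)

private theorem pk_B (hι : Finite ι) (i : ι) : NCP CS CB ι (fun n s z => z i ∈ s.2.2) :=
  NCP.comap hι ![i] (NCP.base inferInstance CB.rgt)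

private theorem pk_bE (hι : Finite ι) (i j : ι) : NCP CS CB ι (fun n s z => bE s.1 s.2.1 s.2.2 (z i) (z j)) :=
  NCP.and (NCP.not (pk_B hι i)) (NCP.and (NCP.not (pk_A hι j)) (NCP.or (NCP.eq hι i j) (pk_adj hι i j)))

private theorem pk_bip {E : ∀ n, CS n → Fin n → Fin n → Prop} (hE : ∀ {ι : Type} (_ : Finite ι) (i j : ι), NCP CS CB ι (fun n s z => E n s (z i) (z j)))
    (hι : Finite ι) (i j : ι) (b d : Fin 2) : NCP CS CB ι (fun n s z => (bip (E n s)).Adj (dbl (z i) b) (dbl (z j) d)) := by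
  have h : NCP CS CB ι (fun n s z => (b = 0 ∧ d = 1 ∧ E n s (z i) (z j)) ∨ (d = 0 ∧ b = 1 ∧ E n s (z j) (z i))) :=
    NCP.or (NCP.and (NCP.const hι _) (NCP.and (NCP.const hι _) (hE hι i j)))
      (NCP.and (NCP.const hι _) (NCP.and (NCP.const hι _) (hE hι j i)))
  refine h.congr fun n s z => ?_
  show _ ↔ ((prt (dbl (z i) b) = 0 ∧ prt (dbl (z j) d) = 1 ∧ E n s (hlf (dbl (z i) b)) (hlf (dbl (z j) d))) ∨
    (prt (dbl (z j) d) = 0 ∧ prt (dbl (z i) b) = 1 ∧ E n s (hlf (dbl (z j) d)) (hlf (dbl (z i) b))))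
  rw [prt_dbl, prt_dbl, hlf_dbl, hlf_dbl]

/-- The matching. -/
private theorem pk_bN (c : ℕ) (hι : Finite ι) (i j : ι) :
    NCP CS CB ι (fun n s z => (bN s.1 s.2.1 s.2.2 (3 * Nat.size (2 * n - 1) ^ c)).Adj (dbl (z i) 0) (dbl (z j) 1)) := by
  have h0 : NCP GS2 GB2 (Fin 2) (fun n s x => ((sAug n s.1)^[3 * Nat.size (n - 1) ^ c] s.2).Adj (x 0) (x 1)) :=
    it_ncp (A := fun n G M => sAug n G M) q_sAug 3 c
  have h1 := dblParam (S := GS2) (B := GB2) (S' := CS) (B' := CB) (π := Empty) h0 inferInstance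
    (fun n (s : CS n) _ => ((bG s.1 s.2.1 s.2.2, bM s.2.1 s.2.2) : GS2 (2 * n))) (fun κ hκ P e hP => by
      cases hP with
      | fst => exact pk_bip (E := fun n (s : CS n) => bE s.1 s.2.1 s.2.2) (fun hι i j => pk_bE hι i j) inferInstance _ _ _ _
      | snd =>
        exact pk_bip (E := fun n (s : CS n) u v => u ∉ s.2.2 ∧ v ∉ s.2.1 ∧ u = v)
          (fun hι i j => NCP.and (NCP.not (pk_B hι i)) (NCP.and (NCP.not (pk_A hι j)) (NCP.eq hι i j))) inferInstance _ _ _ _)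
    ![0, 1]
  exact NCP.comap hι (Sum.elim (fun e => e.elim) ![i, j]) h1

private theorem pk_aSt (c : ℕ) (hι : Finite ι) (i j : ι) :
    NCP CS CB ι (fun n s z => aSt s.1 s.2.1 s.2.2 (bN s.1 s.2.1 s.2.2 (3 * Nat.size (2 * n - 1) ^ c)) (z i) (z j)) :=
  NCP.ex1 (R := fun n (s : CS n) z v => bE s.1 s.2.1 s.2.2 (z i) v ∧ (bN s.1 s.2.1 s.2.2 (3 * Nat.size (2 * n - 1) ^ c)).Adj (dbl (z j) 0) (dbl v 1))
    (NCP.and (pk_bE inferInstance (some i) none) (pk_bN c inferInstance (some j) none))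

private theorem pk_zL (c : ℕ) (hι : Finite ι) (i : ι) :
    NCP CS CB ι (fun n s z => zL s.1 s.2.1 s.2.2 (bN s.1 s.2.1 s.2.2 (3 * Nat.size (2 * n - 1) ^ c)) (z i)) := by
  have h1 : NCP CS CB (Option (Option Empty)) (fun n s z => aSt s.1 s.2.1 s.2.2 (bN s.1 s.2.1 s.2.2 (3 * Nat.size (2 * n - 1) ^ c)) (z (some none)) (z none)) :=
    pk_aSt c inferInstance (some none) none
  have h2 := NCP.tc1 (ι := Empty) inferInstance (Q := fun n (s : CS n) _ a b => aSt s.1 s.2.1 s.2.2 (bN s.1 s.2.1 s.2.2 (3 * Nat.size (2 * n - 1) ^ c)) a b) h1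
  have h3 : NCP CS CB (Option ι) (fun n s z => TransGen (aSt s.1 s.2.1 s.2.2 (bN s.1 s.2.1 s.2.2 (3 * Nat.size (2 * n - 1) ^ c))) (z none) (z (some i))) :=
    NCP.comap (κ := Option ι) inferInstance (fun o : Option (Option Empty) => match o with
      | some (some e) => e.elim
      | some none => none
      | none => some i) h2
  have h4 : NCP CS CB (Option ι) (fun n s z => ReflTransGen (aSt s.1 s.2.1 s.2.2 (bN s.1 s.2.1 s.2.2 (3 * Nat.size (2 * n - 1) ^ c))) (z none) (z (some i))) := by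
    refine (NCP.or (NCP.eq inferInstance (some i) none) h3).congr fun n s z => ?_
    rw [reflTransGen_iff_eq_or_transGen]
  exact NCP.ex1 (R := fun n (s : CS n) z u => u ∉ s.2.2 ∧ (∀ v, ¬ (bN s.1 s.2.1 s.2.2 (3 * Nat.size (2 * n - 1) ^ c)).Adj (dbl u 0) (dbl v 1)) ∧
      ReflTransGen (aSt s.1 s.2.1 s.2.2 (bN s.1 s.2.1 s.2.2 (3 * Nat.size (2 * n - 1) ^ c))) u (z i))
    (NCP.and (NCP.not (pk_B inferInstance none)) (NCP.and (NCP.all1
      (R := fun n (s : CS n) z v => ¬ (bN s.1 s.2.1 s.2.2 (3 * Nat.size (2 * n - 1) ^ c)).Adj (dbl (z none) 0) (dbl v 1))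
      (NCP.not (pk_bN c inferInstance (some none) none))) h4))

private theorem pk_zR (c : ℕ) (hι : Finite ι) (i : ι) :
    NCP CS CB ι (fun n s z => zR s.1 s.2.1 s.2.2 (bN s.1 s.2.1 s.2.2 (3 * Nat.size (2 * n - 1) ^ c)) (z i)) :=
  NCP.ex1 (R := fun n (s : CS n) z u => zL s.1 s.2.1 s.2.2 (bN s.1 s.2.1 s.2.2 (3 * Nat.size (2 * n - 1) ^ c)) u ∧ bE s.1 s.2.1 s.2.2 u (z i))
    (NCP.and (pk_zL c inferInstance none) (pk_bE inferInstance none (some i)))

private theorem pk_kX (c : ℕ) (hι : Finite ι) (i : ι) :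
    NCP CS CB ι (fun n s z => z i ∈ kX s.1 s.2.1 s.2.2 (bN s.1 s.2.1 s.2.2 (3 * Nat.size (2 * n - 1) ^ c))) :=
  NCP.or (NCP.and (pk_A hι i) (pk_B hι i)) (NCP.or (NCP.and (pk_A hι i) (NCP.and (NCP.not (pk_B hι i)) (NCP.not (pk_zL c hι i))))
    (NCP.or (NCP.and (NCP.not (pk_A hι i)) (NCP.and (pk_B hι i) (pk_zR c hι i)))
      (NCP.and (NCP.not (pk_A hι i)) (NCP.and (NCP.not (pk_B hι i)) (NCP.and (NCP.not (pk_zL c hι i)) (pk_zR c hι i))))))

private theorem pk_le (c : ℕ) (hι : Finite ι) :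
    NCP CS CB ι (fun n s z => (kX s.1 s.2.1 s.2.2 (bN s.1 s.2.1 s.2.2 (3 * Nat.size (2 * n - 1) ^ c))).ncard ≤ 2 * Nat.size (n - 1) ^ c) := by
  have hc : ∀ {κ : Type} (hκ : Finite κ) (i : κ), NCP CS CB κ (fun n s z =>
      (kX s.1 s.2.1 s.2.2 (bN s.1 s.2.1 s.2.2 (3 * Nat.size (2 * n - 1) ^ c))).ncard = ((z i : Fin n) : ℕ)) := by
    intro κ hκ i
    have h1 : NCP CS CB (Option Empty) (fun n s z => z none ∈ kX s.1 s.2.1 s.2.2 (bN s.1 s.2.1 s.2.2 (3 * Nat.size (2 * n - 1) ^ c))) :=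
      pk_kX c inferInstance none
    have h2 := NCP.count (ι := Empty) (Q := fun n (s : CS n) _ a => a ∈ kX s.1 s.2.1 s.2.2 (bN s.1 s.2.1 s.2.2 (3 * Nat.size (2 * n - 1) ^ c))) h1
    exact NCP.comap hκ (fun o : Option Empty => match o with
      | none => i
      | some e => e.elim) h2
  have h1 : NCP CS CB ι (fun n s z => ∃ a : Fin n, (kX s.1 s.2.1 s.2.2 (bN s.1 s.2.1 s.2.2 (3 * Nat.size (2 * n - 1) ^ c))).ncard = (a : ℕ) ∧
      ¬ ∃ p : Fin n, (p : ℕ) = 2 * Nat.size (n - 1) ^ c ∧ p < a) :=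
    NCP.ex1 (R := fun n (s : CS n) z a => (kX s.1 s.2.1 s.2.2 (bN s.1 s.2.1 s.2.2 (3 * Nat.size (2 * n - 1) ^ c))).ncard = (a : ℕ) ∧
      ¬ ∃ p : Fin n, (p : ℕ) = 2 * Nat.size (n - 1) ^ c ∧ p < a) (NCP.and (hc inferInstance none) (NCP.not
        (NCP.ex1 (R := fun n (s : CS n) z p => (p : ℕ) = 2 * Nat.size (n - 1) ^ c ∧ p < z none)
          (NCP.and (ncp_numS 2 c inferInstance none) (NCP.lt inferInstance none (some none))))))
  have h2 : NCP CS CB ι (fun n s z => ¬ ∃ p : Fin n, (p : ℕ) = 2 * Nat.size (n - 1) ^ c) :=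
    NCP.not (NCP.ex1 (R := fun n (s : CS n) z p => (p : ℕ) = 2 * Nat.size (n - 1) ^ c) (ncp_numS 2 c inferInstance none))
  refine (NCP.or h1 h2).congr fun n s z => ?_
  have hb : (kX s.1 s.2.1 s.2.2 (bN s.1 s.2.1 s.2.2 (3 * Nat.size (2 * n - 1) ^ c))).ncard ≤ n := by
    calc _ ≤ (Set.univ : Set (Fin n)).ncard := Set.ncard_le_ncard (Set.subset_univ _) (Set.toFinite _)
      _ = n := by rw [Set.ncard_univ, Nat.card_eq_fintype_card, Fintype.card_fin]
  generalize (kX s.1 s.2.1 s.2.2 (bN s.1 s.2.1 s.2.2 (3 * Nat.size (2 * n - 1) ^ c))).ncard = m at hb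
  generalize 2 * Nat.size (n - 1) ^ c = k
  constructor
  · rintro (⟨a, h3, h4⟩ | h3)
    · by_contra h5
      have h6 := a.2
      exact h4 ⟨⟨k, by omega⟩, rfl, Fin.lt_def.2 (by show k < (a : ℕ); omega)⟩
    · by_contra h5
      exact h3 ⟨⟨k, by omega⟩, rfl⟩
  · intro h3
    rcases Nat.lt_or_ge m n with h4 | h4
    · refine Or.inl ⟨⟨m, h4⟩, rfl, ?_⟩
      rintro ⟨p, h5, h6⟩
      have h7 : (p : ℕ) < m := h6
      omega
    · refine Or.inr ?_
      rintro ⟨p, h5⟩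
      have := p.2
      omega

end

/-- The cut is a program. -/
theorem ncp_kc (c : ℕ) : NCP CS CB (Fin 1) (fun n s x => x 0 ∈ kc c n s.1 s.2.1 s.2.2) := by
  classical
  refine (NCP.and (pk_le c inferInstance) (pk_kX c inferInstance 0)).congr fun n s x => ?_
  unfold kc kcut
  split_ifs with h
  · exact ⟨fun h1 => h1.2, fun h1 => ⟨h, h1⟩⟩
  · constructor
    · rintro ⟨h1, -⟩
      exact absurd h1 h
    · intro h1
      exact absurd h1 (Set.notMem_empty _)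

end Pool.Agent.TW
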