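import Pool.Agent.Lib.MP_0087d5_lc.TW.PrgF
import Pool.Agent.Lib.MP_0087d5_lc.TW.PrgB
import Pool.Agent.Lib.MP_0087d5_lc.TW.Pre

/-!
# Programs for the separators

`CS`, `CB`: the input of the program of the cut, a graph with two sets of vertices. `ncp_cut`: the cut of two definable sets. `ncp_newG`, `ncp_stepG`, `ncp_SepG`: one round and the separators.
-/

set_option autoImplicit false
set_option linter.all false

namespace Pool.Agent.TW

open Relation Pool.Agent.UPM Pool.Agent.AUG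

/-- A graph with two sets of vertices. -/
abbrev CS (n : ℕ) : Type := SimpleGraph (Fin n) × (Set (Fin n) × Set (Fin n))

/-- The readers for `CS`. -/
inductive CB : Readers CS
  | adj : CB (Fin 2) (fun _ s x => s.1.Adj (x 0) (x 1))
  | lft : CB (Fin 1) (fun _ s x => x 0 ∈ s.2.1)
  | rgt : CB (Fin 1) (fun _ s x => x 0 ∈ s.2.2)

theorem pre_lt_n {n : ℕ} (H : SimpleGraph (Fin n)) (v : Fin n) : pre H v < n := by
  have h1 := pre_bound (H := H) v
  have h2 : (cmp H v).ncard ≤ n := by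
    calc (cmp H v).ncard ≤ (Set.univ : Set (Fin n)).ncard := Set.ncard_le_ncard (Set.subset_univ _) (Set.toFinite _)
      _ = n := by rw [Set.ncard_univ, Nat.card_eq_fintype_card, Fintype.card_fin]
  omega

section

variable {S : ℕ → Type} {B : Readers S} {G H : ∀ n, S n → SimpleGraph (Fin n)} {cut : ∀ n, SimpleGraph (Fin n) → Set (Fin n) → Set (Fin n) → Set (Fin n)}

/-- The cut of two definable sets `P n s p`, `Q n s q`, where `p`, `q` are vertices. -/
theorem ncp_cut (hcut : NCP CS CB (Fin 1) (fun n s x => x 0 ∈ cut n s.1 s.2.1 s.2.2))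
    (hH : NCP S B (Fin 2) (fun n s x => (H n s).Adj (x 0) (x 1))) {P Q : ∀ n, S n → Fin n → Set (Fin n)}
    (hP : NCP S B (Fin 2) (fun n s x => x 1 ∈ P n s (x 0))) (hQ : NCP S B (Fin 2) (fun n s x => x 1 ∈ Q n s (x 0)))
    {ι : Type} (hι : Finite ι) (i j l : ι) : NCP S B ι (fun n s z => z l ∈ cut n (H n s) (P n s (z i)) (Q n s (z j))) := by
  have h1 : NCP S B (Fin 2 ⊕ Fin 1) (fun n s z => z (Sum.inr 0) ∈ cut n (H n s) (P n s (z (Sum.inl 0))) (Q n s (z (Sum.inl 1)))) := by
    refine LF.param (S := CS) (B := CB) (S' := S) (B' := B) (π := Fin 2) hcut inferInstance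
      (fun n (s : S n) p => ((H n s, (P n s (p 0), Q n s (p 1))) : CS n)) (fun ι hι R hR => ?_)
    cases hR with
    | adj => exact NCP.rel2 (R := fun n s a b => (H n s).Adj a b) inferInstance hH (Sum.inr 0) (Sum.inr 1)
    | lft => exact NCP.rel2 (R := fun n s a b => b ∈ P n s a) inferInstance hP (Sum.inl 0) (Sum.inr 0)
    | rgt => exact NCP.rel2 (R := fun n s a b => b ∈ Q n s a) inferInstance hQ (Sum.inl 1) (Sum.inr 0)
  exact NCP.comap hι (Sum.elim ![i, j] ![l]) h1

/-- The vertices removed in one round. -/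
theorem ncp_newG (hcut : NCP CS CB (Fin 1) (fun n s x => x 0 ∈ cut n s.1 s.2.1 s.2.2))
    (hG : NCP S B (Fin 2) (fun n s x => (G n s).Adj (x 0) (x 1))) (hH : NCP S B (Fin 2) (fun n s x => (H n s).Adj (x 0) (x 1)))
    (K c : ℕ) : NCP S B (Fin 1) (fun n s x => x 0 ∈ newG (G n s) (H n s) (K * Nat.size (n - 1) ^ c) (cut n (H n s))) := by
  have hAnc : NCP S B (Fin 2) (fun n s x => Anc (H n s) (x 0) (x 1)) := pf_anc hH inferInstance 0 1
  have hpre : NCP S B (Fin 2) (fun n s x => pre (H n s) (x 0) = (x 1 : ℕ)) := pf_pre hH inferInstance 0 1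
  have hpl : ∀ n s v, pre (H n s) v < n := fun n s v => pre_lt_n (H n s) v
  have hHull : NCP S B (Fin 2) (fun n s x => x 1 ∈ Hull (G n s) (H n s) (K * Nat.size (n - 1) ^ c) (x 0)) :=
    ncp_hull hG hH hAnc hpre hpl K c inferInstance 0 1
  refine NCP.or ?_ ?_
  · exact NCP.ex1 (R := fun n s x m => Big (G n s) (H n s) m ∧ Zm (G n s) (H n s) (K * Nat.size (n - 1) ^ c) (x 0) m)
      (NCP.and (ncp_big hG hH inferInstance none) (ncp_zm hG hH hAnc hpre hpl K c inferInstance (some 0) none))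
  · refine NCP.ex1 (R := fun n s x m => ∃ m', Big (G n s) (H n s) m ∧ (H n s).Reachable m (x 0) ∧ (H n s).Reachable m m' ∧ m < m' ∧
      Blk (G n s) (H n s) (K * Nat.size (n - 1) ^ c) m m ∧ Blk (G n s) (H n s) (K * Nat.size (n - 1) ^ c) m' m' ∧
      x 0 ∈ cut n (H n s) (Hull (G n s) (H n s) (K * Nat.size (n - 1) ^ c) m) (Hull (G n s) (H n s) (K * Nat.size (n - 1) ^ c) m')) ?_
    refine NCP.ex1 (R := fun n s z m' => Big (G n s) (H n s) (z none) ∧ (H n s).Reachable (z none) (z (some 0)) ∧ (H n s).Reachable (z none) m' ∧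
      z none < m' ∧ Blk (G n s) (H n s) (K * Nat.size (n - 1) ^ c) (z none) (z none) ∧ Blk (G n s) (H n s) (K * Nat.size (n - 1) ^ c) m' m' ∧
      z (some 0) ∈ cut n (H n s) (Hull (G n s) (H n s) (K * Nat.size (n - 1) ^ c) (z none)) (Hull (G n s) (H n s) (K * Nat.size (n - 1) ^ c) m')) ?_
    exact NCP.and (ncp_big hG hH inferInstance (some none)) (NCP.and (pf_reach hH inferInstance (some none) (some (some 0)))
      (NCP.and (pf_reach hH inferInstance (some none) none) (NCP.and (NCP.lt inferInstance (some none) none)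
        (NCP.and (ncp_blk hG hH hpre hpl K c inferInstance (some none) (some none)) (NCP.and (ncp_blk hG hH hpre hpl K c inferInstance none none)
          (ncp_cut hcut hH hHull hHull inferInstance (some none) none (some (some 0))))))))

end

/-- One round is a program. -/
theorem ncp_stepG {cut : ∀ n, SimpleGraph (Fin n) → Set (Fin n) → Set (Fin n) → Set (Fin n)}
    (hcut : NCP CS CB (Fin 1) (fun n s x => x 0 ∈ cut n s.1 s.2.1 s.2.2)) (K c : ℕ) :
    NCP (fun n => GS n × RelF (Fin 1) Unit n) (Ext GB (Fin 1) Unit) (Fin 1)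
      (fun n s x => x 0 ∈ stepG s.1 (K * Nat.size (n - 1) ^ c) (cut n) {v | s.2 () (fun _ => v)}) := by
  have hS : ∀ {κ : Type} (hκ : Finite κ) (a : κ), NCP (fun n => GS n × RelF (Fin 1) Unit n) (Ext GB (Fin 1) Unit) κ
      (fun n s x => s.2 () (fun _ => x a)) := fun hκ a =>
    NCP.comap hκ (fun _ => a) (NCP.base inferInstance (Ext.new ()))
  have hG : NCP (fun n => GS n × RelF (Fin 1) Unit n) (Ext GB (Fin 1) Unit) (Fin 2) (fun n s x => s.1.Adj (x 0) (x 1)) :=
    NCP.base inferInstance (Ext.old GB.adj)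
  have hH : NCP (fun n => GS n × RelF (Fin 1) Unit n) (Ext GB (Fin 1) Unit) (Fin 2)
      (fun n s x => (del s.1 {v | s.2 () (fun _ => v)}).Adj (x 0) (x 1)) :=
    NCP.and hG (NCP.and (NCP.not (hS inferInstance 0)) (NCP.not (hS inferInstance 1)))
  exact NCP.or (hS inferInstance 0) (ncp_newG (G := fun n (s : GS n × RelF (Fin 1) Unit n) => s.1)
    (H := fun n (s : GS n × RelF (Fin 1) Unit n) => del s.1 {v | s.2 () (fun _ => v)}) hcut hG hH K c)

/-- The separators are a program. -/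
theorem ncp_SepG {cut : ∀ n, SimpleGraph (Fin n) → Set (Fin n) → Set (Fin n) → Set (Fin n)}
    (hcut : NCP CS CB (Fin 1) (fun n s x => x 0 ∈ cut n s.1 s.2.1 s.2.2)) (K c k : ℕ) :
    NCP GS GB (Fin 1) (fun n G x => x 0 ∈ SepG G (K * Nat.size (n - 1) ^ c) (cut n) (k * Nat.size (n - 1) ^ c)) := by
  have h1 := TWR.it_rel0 (A := fun n (G : GS n) (R : (Fin 1 → Fin n) → Prop) (x : Fin 1 → Fin n) =>
    x 0 ∈ stepG G (K * Nat.size (n - 1) ^ c) (cut n) {v | R (fun _ => v)}) (ncp_stepG hcut K c) k c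
  have h2 : NCP GS GB (Fin 1) (fun n G x => (cmp G (x 0)).ncard ≤ 8 * (K * Nat.size (n - 1) ^ c)) :=
    ncp_small (G := fun n (G : GS n) => G) (NCP.base inferInstance GB.adj) K c inferInstance 0
  refine (NCP.or h2 h1).congr fun n G x => ?_
  have key : ∀ t : ℕ, ∀ y : Fin 1 → Fin n, ((fun (R : (Fin 1 → Fin n) → Prop) (x : Fin 1 → Fin n) =>
      x 0 ∈ stepG G (K * Nat.size (n - 1) ^ c) (cut n) {v | R (fun _ => v)})^[t] (fun _ => False)) y ↔
        y 0 ∈ (stepG G (K * Nat.size (n - 1) ^ c) (cut n))^[t] ∅ := by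
    intro t
    induction t with
    | zero => intro y; exact Iff.rfl
    | succ t ih =>
      intro y
      rw [Function.iterate_succ_apply', Function.iterate_succ_apply']
      have e : {v : Fin n | ((fun (R : (Fin 1 → Fin n) → Prop) (x : Fin 1 → Fin n) =>
          x 0 ∈ stepG G (K * Nat.size (n - 1) ^ c) (cut n) {v | R (fun _ => v)})^[t] (fun _ => False)) (fun _ => v)} =
          (stepG G (K * Nat.size (n - 1) ^ c) (cut n))^[t] ∅ := by
        ext v
        exact ih (fun _ => v)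
      show y 0 ∈ stepG G (K * Nat.size (n - 1) ^ c) (cut n) _ ↔ _
      rw [e]
  exact or_congr Iff.rfl (key _ _)

end Pool.Agent.TW
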