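import Pool.Agent.Lib.MP_0087d5_lc.TW.RecNC
import Pool.Agent.Lib.MP_0087d5_lc.TW.Base

/-!
# Programs for the numbers in the definition of the separators

`ncp_numS`, `ncp_mulS`: the number `K * Nat.size (n - 1) ^ c` and multiplication by it. `ncp_cm1`: the size of a component. `ncp_wd`: the width of the blocks. `ncp_dvd`: divisibility. `ncp_big`, `ncp_small`: comparisons of sizes.
-/

set_option autoImplicit false
set_option linter.all false

namespace Pool.Agent.TW

open Relation Pool.Agent.UPM Pool.Agent.AUG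

variable {S : ℕ → Type} {B : Readers S}

/-- Iterating an operator on relations with a given start. -/
theorem it_relS {κ : Type} {A : ∀ n, S n → ((κ → Fin n) → Prop) → (κ → Fin n) → Prop}
    (hA : NCP (fun n => S n × RelF κ Unit n) (Ext B κ Unit) κ (fun n s x => A n s.1 (s.2 ()) x))
    {R0 : ∀ n, S n → (κ → Fin n) → Prop} (h0 : NCP S B κ (fun n s x => R0 n s x)) (k c : ℕ) :
    NCP S B κ (fun n s x => (A n s)^[k * Nat.size (n - 1) ^ c] (R0 n s) x) := by
  have h := TWR.it_rel hA k c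
  refine NCP.pull (S := fun n => S n × RelF κ Unit n) (B := Ext B κ Unit) (S' := S) (B' := B)
    (fun n (s : S n) => ((s, fun _ => R0 n s) : S n × RelF κ Unit n)) (fun ι hι P hP => ?_) h
  cases hP with
  | old hP => exact NCP.base hι hP
  | new f => exact h0

/-- The number `K * Nat.size (n - 1) ^ c`. -/
theorem ncp_numS (K c : ℕ) {ι : Type} (hι : Finite ι) (i : ι) :
    NCP S B ι (fun n _ x => (x i : ℕ) = K * Nat.size (n - 1) ^ c) := by
  have hR : NCP (fun n => S n × RelF (Fin 1) Unit n) (Ext B (Fin 1) Unit) (Option (Fin 1)) (fun n s z => s.2 () (fun _ => z none)) :=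
    NCP.comap inferInstance (fun _ => none) (NCP.base inferInstance (Ext.new ()))
  have hA : NCP (fun n => S n × RelF (Fin 1) Unit n) (Ext B (Fin 1) Unit) (Fin 1)
      (fun n s x => ∃ a : Fin n, s.2 () (fun _ => a) ∧ (x 0 : ℕ) = (a : ℕ) + 1) :=
    NCP.ex1 (R := fun n (s : S n × RelF (Fin 1) Unit n) x a => s.2 () (fun _ => a) ∧ (x 0 : ℕ) = (a : ℕ) + 1)
      (NCP.and hR (NCP.succ inferInstance (some 0) none))
  have h := it_relS (S := S) (B := B) (κ := Fin 1) (A := fun n s R x => ∃ a : Fin n, R (fun _ => a) ∧ (x 0 : ℕ) = (a : ℕ) + 1) hA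
    (R0 := fun n s x => (x 0 : ℕ) = 0) (NCP.zero inferInstance 0) K c
  have h2 := NCP.comap hι (fun _ : Fin 1 => i) h
  refine h2.congr fun n s x => ?_
  have key : ∀ t : ℕ, ∀ y : Fin 1 → Fin n, ((fun (R : (Fin 1 → Fin n) → Prop) (x : Fin 1 → Fin n) => ∃ a : Fin n, R (fun _ => a) ∧ (x 0 : ℕ) = (a : ℕ) + 1)^[t]
      (fun x => (x 0 : ℕ) = 0)) y ↔ (y 0 : ℕ) = t := by
    intro t
    induction t with
    | zero => intro y; exact Iff.rfl
    | succ t ih =>
      intro y
      rw [Function.iterate_succ_apply']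
      constructor
      · rintro ⟨a, h3, h4⟩
        rw [ih] at h3
        omega
      · intro h3
        have := (y 0).2
        refine ⟨⟨t, by omega⟩, (ih _).2 rfl, h3⟩
  exact key _ _

/-- Multiplication by `K * Nat.size (n - 1) ^ c`. -/
theorem ncp_mulS (K c : ℕ) {ι : Type} (hι : Finite ι) (i j : ι) :
    NCP S B ι (fun n _ x => (x j : ℕ) = (x i : ℕ) * (K * Nat.size (n - 1) ^ c)) := by
  have hR : NCP (fun n => S n × RelF (Fin 2) Unit n) (Ext B (Fin 2) Unit) (Option (Fin 2)) (fun n s z => s.2 () ![z (some 0), z none]) := by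
    refine (NCP.comap inferInstance ![some 0, none] (NCP.base inferInstance (Ext.new ()))).congr fun n s z => ?_
    have e : (fun i => z (![some 0, none] i)) = ![z (some 0), z none] := by
      funext i
      fin_cases i <;> rfl
    rw [e]
  have hA : NCP (fun n => S n × RelF (Fin 2) Unit n) (Ext B (Fin 2) Unit) (Fin 2)
      (fun n s x => ∃ a : Fin n, s.2 () ![x 0, a] ∧ (a : ℕ) + (x 0 : ℕ) = (x 1 : ℕ)) :=
    NCP.ex1 (R := fun n (s : S n × RelF (Fin 2) Unit n) x a => s.2 () ![x 0, a] ∧ (a : ℕ) + (x 0 : ℕ) = (x 1 : ℕ))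
      (NCP.and hR (NCP.add inferInstance none (some 0) (some 1)))
  have h := it_relS (S := S) (B := B) (κ := Fin 2) (A := fun n s R x => ∃ a : Fin n, R ![x 0, a] ∧ (a : ℕ) + (x 0 : ℕ) = (x 1 : ℕ)) hA
    (R0 := fun n s x => (x 1 : ℕ) = 0) (NCP.zero inferInstance 1) K c
  have h2 := NCP.comap hι ![i, j] h
  refine h2.congr fun n s x => ?_
  have key : ∀ t : ℕ, ∀ y : Fin 2 → Fin n, ((fun (R : (Fin 2 → Fin n) → Prop) (x : Fin 2 → Fin n) => ∃ a : Fin n, R ![x 0, a] ∧ (a : ℕ) + (x 0 : ℕ) = (x 1 : ℕ))^[t]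
      (fun x => (x 1 : ℕ) = 0)) y ↔ (y 1 : ℕ) = (y 0 : ℕ) * t := by
    intro t
    induction t with
    | zero => intro y; exact Iff.rfl
    | succ t ih =>
      intro y
      rw [Function.iterate_succ_apply']
      constructor
      · rintro ⟨a, h3, h4⟩
        rw [ih] at h3
        have h5 : (a : ℕ) = (y 0 : ℕ) * t := h3
        rw [Nat.mul_succ]
        omega
      · intro h3
        rw [Nat.mul_succ] at h3
        have := (y 1).2
        refine ⟨⟨(y 0 : ℕ) * t, by omega⟩, (ih _).2 rfl, h3.symm⟩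
  exact key _ _

/-- The number of the other vertices of the component. -/
theorem cmp_card {n : ℕ} (G : SimpleGraph (Fin n)) (x : Fin n) : (cmp G x).ncard = {y | y ≠ x ∧ G.Reachable x y}.ncard + 1 := by
  have h1 : cmp G x = insert x {y | y ≠ x ∧ G.Reachable x y} := by
    ext y
    rw [Set.mem_insert_iff]
    constructor
    · intro hy
      by_cases h : y = x
      · exact Or.inl h
      · exact Or.inr ⟨h, hy⟩
    · rintro (rfl | hy)
      · exact SimpleGraph.Reachable.refl _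
      · exact hy.2
  rw [h1]
  exact Set.ncard_insert_of_notMem (fun h => h.1 rfl) (Set.toFinite _)

theorem cmp_card_lt {n : ℕ} (G : SimpleGraph (Fin n)) (x : Fin n) : {y | y ≠ x ∧ G.Reachable x y}.ncard < n := by
  have h1 : {y | y ≠ x ∧ G.Reachable x y}.ncard < (Set.univ : Set (Fin n)).ncard :=
    Set.ncard_lt_ncard ⟨Set.subset_univ _, fun h => (h (Set.mem_univ x)).1 rfl⟩ (Set.toFinite _)
  rwa [Set.ncard_univ, Nat.card_eq_fintype_card, Fintype.card_fin] at h1

variable {G H : ∀ n, S n → SimpleGraph (Fin n)}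

/-- The size of a component. -/
theorem ncp_cm1 (hG : NCP S B (Fin 2) (fun n s x => (G n s).Adj (x 0) (x 1))) {ι : Type} (hι : Finite ι) (i j : ι) :
    NCP S B ι (fun n s x => (cmp (G n s) (x i)).ncard = (x j : ℕ) + 1) := by
  have h1 : NCP S B (Option (Fin 1)) (fun n s z => z none ≠ z (some 0) ∧ (G n s).Reachable (z (some 0)) (z none)) :=
    NCP.and (NCP.not (NCP.eq inferInstance none (some 0))) (TWR.ncp_reach hG inferInstance (some 0) none)
  have h2 := NCP.count (Q := fun n s (p : Fin 1 → Fin n) a => a ≠ p 0 ∧ (G n s).Reachable (p 0) a) h1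
  have h3 := NCP.comap hι (fun o : Option (Fin 1) => match o with
    | none => j
    | some _ => i) h2
  refine h3.congr fun n s x => ?_
  rw [cmp_card]
  exact ⟨fun h => congrArg (· + 1) h, fun h => Nat.succ.inj h⟩

/-- Divisibility. -/
theorem ncp_dvd {ι : Type} (hι : Finite ι) (i j : ι) : NCP S B ι (fun n _ x => (x i : ℕ) ∣ (x j : ℕ)) := by
  have h1 : NCP S B (Option (Option (Fin 1))) (fun n s z => (z (some none) : ℕ) + (z (some (some 0)) : ℕ) = (z none : ℕ)) :=
    NCP.add inferInstance _ _ _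
  have h2 := NCP.tc1 (ι := Fin 1) inferInstance (Q := fun n s p a b => (a : ℕ) + (p 0 : ℕ) = (b : ℕ)) h1
  have h3 : NCP S B (Option ι) (fun n s z => TransGen (fun a b : Fin n => (a : ℕ) + (z (some i) : ℕ) = (b : ℕ)) (z none) (z (some j))) :=
    NCP.comap (κ := Option ι) inferInstance (fun o : Option (Option (Fin 1)) => match o with
      | some (some _) => some i
      | some none => none
      | none => some j) h2
  have h4 : NCP S B ι (fun n s z => ∃ o : Fin n, (o : ℕ) = 0 ∧ TransGen (fun a b : Fin n => (a : ℕ) + (z i : ℕ) = (b : ℕ)) o (z j)) :=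
    NCP.ex1 (R := fun n s z o => (o : ℕ) = 0 ∧ TransGen (fun a b : Fin n => (a : ℕ) + (z i : ℕ) = (b : ℕ)) o (z j)) (NCP.and (NCP.zero inferInstance none) h3)
  refine (NCP.or (NCP.zero hι j) h4).congr fun n s x => ?_
  constructor
  · rintro (h5 | ⟨o, h5, h6⟩)
    · rw [h5]
      exact dvd_zero _
    · have key : ∀ b : Fin n, TransGen (fun a b : Fin n => (a : ℕ) + (x i : ℕ) = (b : ℕ)) o b → (x i : ℕ) ∣ (b : ℕ) := by
        intro b hb
        induction hb with
        | single h7 => rw [← h7, h5, Nat.zero_add]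
        | tail _ h7 ih => rw [← h7]; exact dvd_add ih dvd_rfl
      exact key _ h6
  · rintro ⟨q, hq⟩
    by_cases h0 : (x j : ℕ) = 0
    · exact Or.inl h0
    right
    have hn : 0 < n := lt_of_le_of_lt (Nat.zero_le _) (x j).2
    refine ⟨⟨0, hn⟩, rfl, ?_⟩
    have key : ∀ q : ℕ, 1 ≤ q → ∀ b : Fin n, (b : ℕ) = (x i : ℕ) * q → TransGen (fun a b : Fin n => (a : ℕ) + (x i : ℕ) = (b : ℕ)) ⟨0, hn⟩ b := by
      intro q
      induction q with
      | zero => intro h; omega
      | succ q ih =>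
        intro _ b hb
        rw [Nat.mul_succ] at hb
        have hbn := b.2
        rcases Nat.eq_zero_or_pos q with h7 | h7
        · subst h7
          rw [Nat.mul_zero] at hb
          exact TransGen.single hb.symm
        · exact TransGen.tail (ih h7 ⟨(x i : ℕ) * q, by omega⟩ rfl) hb.symm
    refine key q ?_ (x j) hq
    rcases Nat.eq_zero_or_pos q with h7 | h7
    · rw [h7, Nat.mul_zero] at hq
      exact absurd hq h0
    · exact h7

/-- Quotients by `K * Nat.size (n - 1) ^ c`. -/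
theorem ncp_divS (K c : ℕ) {ι : Type} (hι : Finite ι) (i j : ι) :
    NCP S B ι (fun n _ x => (x i : ℕ) / (K * Nat.size (n - 1) ^ c) = (x j : ℕ)) := by
  -- `x j * m ≤ x i`
  have h1 : NCP S B ι (fun n s x => ∃ p : Fin n, (p : ℕ) = (x j : ℕ) * (K * Nat.size (n - 1) ^ c) ∧ p ≤ x i) :=
    NCP.ex1 (R := fun n s x p => (p : ℕ) = (x j : ℕ) * (K * Nat.size (n - 1) ^ c) ∧ p ≤ x i)
      (NCP.and (ncp_mulS K c inferInstance (some j) none) (NCP.le inferInstance none (some i)))
  -- `(x j + 1) * m ≤ x i`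
  have h2 : NCP S B ι (fun n s x => ∃ w : Fin n, (w : ℕ) = (x j : ℕ) + 1 ∧ ∃ p : Fin n, (p : ℕ) = (w : ℕ) * (K * Nat.size (n - 1) ^ c) ∧ p ≤ x i) :=
    NCP.ex1 (R := fun n s x w => (w : ℕ) = (x j : ℕ) + 1 ∧ ∃ p : Fin n, (p : ℕ) = (w : ℕ) * (K * Nat.size (n - 1) ^ c) ∧ p ≤ x i)
      (NCP.and (NCP.succ inferInstance none (some j))
        (NCP.ex1 (R := fun n s z p => (p : ℕ) = (z none : ℕ) * (K * Nat.size (n - 1) ^ c) ∧ p ≤ z (some i))
          (NCP.and (ncp_mulS K c inferInstance (some none) none) (NCP.le inferInstance none (some (some i))))))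
  -- the number `0`
  have h3 : NCP S B ι (fun n s x => ∃ p : Fin n, (p : ℕ) = K * Nat.size (n - 1) ^ c ∧ (p : ℕ) = 0) :=
    NCP.ex1 (R := fun n s x p => (p : ℕ) = K * Nat.size (n - 1) ^ c ∧ (p : ℕ) = 0)
      (NCP.and (ncp_numS K c inferInstance none) (NCP.zero inferInstance none))
  refine (NCP.or (NCP.and h3 (NCP.zero hι j)) (NCP.and (NCP.not h3) (NCP.and h1 (NCP.not h2)))).congr fun n s x => ?_
  have hxi := (x i).2
  have hxj := (x j).2
  generalize K * Nat.size (n - 1) ^ c = m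
  rcases Nat.eq_zero_or_pos m with hm | hm
  · subst hm
    rw [Nat.div_zero]
    constructor
    · rintro (⟨-, h4⟩ | ⟨h4, -⟩)
      · exact h4.symm
      · exact absurd ⟨⟨0, by omega⟩, rfl, rfl⟩ h4
    · intro h4
      exact Or.inl ⟨⟨⟨0, by omega⟩, rfl, rfl⟩, h4.symm⟩
  · have hm' : ¬ ∃ p : Fin n, (p : ℕ) = m ∧ (p : ℕ) = 0 := by
      rintro ⟨p, h4, h5⟩
      omega
    constructor
    · rintro (⟨h4, -⟩ | ⟨-, ⟨p, h4, h5⟩, h6⟩)
      · exact absurd h4 hm'
      · have h7 : (p : ℕ) ≤ (x i : ℕ) := h5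
        rw [h4] at h7
        refine Nat.div_eq_of_lt_le h7 ?_
        by_contra hlt
        push Not at hlt
        have h8 : (x j : ℕ) + 1 ≤ ((x j : ℕ) + 1) * m := Nat.le_mul_of_pos_right _ hm
        exact h6 ⟨⟨(x j : ℕ) + 1, by omega⟩, rfl, ⟨((x j : ℕ) + 1) * m, by omega⟩, rfl, hlt⟩
    · intro h4
      right
      refine ⟨hm', ?_, ?_⟩
      · have h5 : (x j : ℕ) * m ≤ (x i : ℕ) := by
          rw [← h4]
          exact Nat.div_mul_le_self _ _
        exact ⟨⟨(x j : ℕ) * m, by omega⟩, rfl, h5⟩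
      · rintro ⟨w, h5, p, h6, h7⟩
        have h8 : (p : ℕ) ≤ (x i : ℕ) := h7
        have h9 : (x i : ℕ) < ((x j : ℕ) + 1) * m := by
          rw [← Nat.div_lt_iff_lt_mul hm, h4]
          exact Nat.lt_succ_self _
        rw [← h5, ← h6] at h9
        omega

/-- The width of the blocks. -/
theorem ncp_wd (hG : NCP S B (Fin 2) (fun n s x => (G n s).Adj (x 0) (x 1))) (K c : ℕ) {ι : Type} (hι : Finite ι) (i j : ι) :
    NCP S B ι (fun n s x => wd (G n s) (K * Nat.size (n - 1) ^ c) (x i) = (x j : ℕ)) := by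
  refine (NCP.ex1 (R := fun n s x a => (cmp (G n s) (x i)).ncard = (a : ℕ) + 1 ∧ (a : ℕ) / (8 * K * Nat.size (n - 1) ^ c) = (x j : ℕ))
    (NCP.and (ncp_cm1 hG inferInstance (some i) none) (ncp_divS (8 * K) c inferInstance none (some j)))).congr fun n s x => ?_
  unfold wd
  rw [← Nat.mul_assoc]
  constructor
  · rintro ⟨a, h1, h2⟩
    rw [h1, Nat.add_sub_cancel]
    exact h2
  · intro h1
    refine ⟨⟨_, cmp_card_lt (G n s) (x i)⟩, cmp_card _ _, ?_⟩
    rw [cmp_card, Nat.add_sub_cancel] at h1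
    exact h1

/-- The components of at most `8 k` vertices. -/
theorem ncp_small (hG : NCP S B (Fin 2) (fun n s x => (G n s).Adj (x 0) (x 1))) (K c : ℕ) {ι : Type} (hι : Finite ι) (i : ι) :
    NCP S B ι (fun n s x => (cmp (G n s) (x i)).ncard ≤ 8 * (K * Nat.size (n - 1) ^ c)) := by
  refine (NCP.ex1 (R := fun n s x a => (cmp (G n s) (x i)).ncard = (a : ℕ) + 1 ∧ ¬ ∃ p : Fin n, (p : ℕ) = 8 * K * Nat.size (n - 1) ^ c ∧ p ≤ a)
    (NCP.and (ncp_cm1 hG inferInstance (some i) none) (NCP.not (NCP.ex1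
      (R := fun n s z p => (p : ℕ) = 8 * K * Nat.size (n - 1) ^ c ∧ p ≤ z none)
      (NCP.and (ncp_numS (8 * K) c inferInstance none) (NCP.le inferInstance none (some none))))))).congr fun n s x => ?_
  rw [← Nat.mul_assoc]
  constructor
  · rintro ⟨a, h1, h2⟩
    rw [h1]
    by_contra h3
    have := a.2
    refine h2 ⟨⟨8 * K * Nat.size (n - 1) ^ c, by omega⟩, rfl, ?_⟩
    show 8 * K * Nat.size (n - 1) ^ c ≤ (a : ℕ)
    omega
  · intro h1
    refine ⟨⟨_, cmp_card_lt (G n s) (x i)⟩, cmp_card _ _, ?_⟩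
    rintro ⟨p, h2, h3⟩
    have h4 : (p : ℕ) ≤ {y | y ≠ x i ∧ (G n s).Reachable (x i) y}.ncard := h3
    rw [cmp_card] at h1
    omega

/-- The large components. -/
theorem ncp_big (hG : NCP S B (Fin 2) (fun n s x => (G n s).Adj (x 0) (x 1))) (hH : NCP S B (Fin 2) (fun n s x => (H n s).Adj (x 0) (x 1)))
    {ι : Type} (hι : Finite ι) (i : ι) : NCP S B ι (fun n s x => Big (G n s) (H n s) (x i)) := by
  have hc : NCP S B (Option (Option ι)) (fun n s z => z (some none) ≤ z none ∨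
      ∃ d : Fin n, (z none : ℕ) + (d : ℕ) = (z (some none) : ℕ) ∧ ∃ e : Fin n, (d : ℕ) + (d : ℕ) = (e : ℕ) ∧
        ∃ f : Fin n, (e : ℕ) + (d : ℕ) = (f : ℕ) ∧ f ≤ z none) := by
    refine NCP.or (NCP.le inferInstance _ _) ?_
    refine NCP.ex1 (R := fun n s z d => (z none : ℕ) + (d : ℕ) = (z (some none) : ℕ) ∧ ∃ e : Fin n, (d : ℕ) + (d : ℕ) = (e : ℕ) ∧
        ∃ f : Fin n, (e : ℕ) + (d : ℕ) = (f : ℕ) ∧ f ≤ z none) (NCP.and (NCP.add inferInstance (some none) none (some (some none))) ?_)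
    refine NCP.ex1 (R := fun n s z e => (z none : ℕ) + (z none : ℕ) = (e : ℕ) ∧
        ∃ f : Fin n, (e : ℕ) + (z none : ℕ) = (f : ℕ) ∧ f ≤ z (some none)) (NCP.and (NCP.add inferInstance (some none) (some none) none) ?_)
    exact NCP.ex1 (R := fun n s z f => (z none : ℕ) + (z (some none) : ℕ) = (f : ℕ) ∧ f ≤ z (some (some none)))
      (NCP.and (NCP.add inferInstance (some none) (some (some none)) none) (NCP.le inferInstance none (some (some (some none)))))
  refine (NCP.ex1 (R := fun n s x a => (cmp (G n s) (x i)).ncard = (a : ℕ) + 1 ∧ ∃ b : Fin n, (cmp (H n s) (x i)).ncard = (b : ℕ) + 1 ∧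
      (a ≤ b ∨ ∃ d : Fin n, (b : ℕ) + (d : ℕ) = (a : ℕ) ∧ ∃ e : Fin n, (d : ℕ) + (d : ℕ) = (e : ℕ) ∧
        ∃ f : Fin n, (e : ℕ) + (d : ℕ) = (f : ℕ) ∧ f ≤ b))
    (NCP.and (ncp_cm1 hG inferInstance (some i) none) (NCP.ex1
      (R := fun n s z b => (cmp (H n s) (z (some i))).ncard = (b : ℕ) + 1 ∧
        (z none ≤ b ∨ ∃ d : Fin n, (b : ℕ) + (d : ℕ) = (z none : ℕ) ∧ ∃ e : Fin n, (d : ℕ) + (d : ℕ) = (e : ℕ) ∧
          ∃ f : Fin n, (e : ℕ) + (d : ℕ) = (f : ℕ) ∧ f ≤ b))
      (NCP.and (ncp_cm1 hH inferInstance (some (some i)) none) hc)))).congr fun n s x => ?_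
  unfold Big
  have hN := cmp_card (G n s) (x i)
  have hN' := cmp_card (H n s) (x i)
  have hl := cmp_card_lt (G n s) (x i)
  have hl' := cmp_card_lt (H n s) (x i)
  generalize {y | y ≠ x i ∧ (G n s).Reachable (x i) y}.ncard = a0 at *
  generalize {y | y ≠ x i ∧ (H n s).Reachable (x i) y}.ncard = b0 at *
  rw [hN, hN']
  constructor
  · rintro ⟨a, h1, b, h2, h3⟩
    rcases h3 with h3 | ⟨d, h4, e, h5, f, h6, h7⟩
    · have h8 : (a : ℕ) ≤ (b : ℕ) := h3
      omega
    · have h8 : (f : ℕ) ≤ (b : ℕ) := h7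
      omega
  · intro h1
    refine ⟨⟨a0, hl⟩, rfl, ⟨b0, hl'⟩, rfl, ?_⟩
    by_cases h2 : a0 ≤ b0
    · exact Or.inl h2
    · refine Or.inr ⟨⟨a0 - b0, by omega⟩, ?_, ⟨(a0 - b0) + (a0 - b0), by omega⟩, rfl, ⟨(a0 - b0) + (a0 - b0) + (a0 - b0), by omega⟩, rfl, ?_⟩
      · show b0 + (a0 - b0) = a0
        omega
      · show (a0 - b0) + (a0 - b0) + (a0 - b0) ≤ b0
        omega

end Pool.Agent.TW
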