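import Pool.Agent.Lib.MP_0087d5_lc.AUG.Berge

/-!
# The recursion over separators: matchings

`del G S`: the vertices of `S` are removed (they become isolated). `rs G S`: the edges inside `S`. `cmp G x`: the component of `x`.
If `M` is a maximum matching of `del H Z` and `C` is a component of `H` then `rs M C` is a matching of `rs H C` with at most `|Z ∩ C|` edges less than a maximum matching (`rec_step`). Maximum matchings of the components give a maximum matching (`glue_max`).
-/

set_option autoImplicit false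
set_option linter.all false

namespace Pool.Agent.TWR

open Pool.Agent.AUG

variable {n : ℕ}

/-- Removing the vertices of `S` (they become isolated). -/
def del (G : SimpleGraph (Fin n)) (S : Set (Fin n)) : SimpleGraph (Fin n) where
  Adj x y := G.Adj x y ∧ x ∉ S ∧ y ∉ S
  symm := ⟨fun _ _ h => ⟨h.1.symm, h.2.2, h.2.1⟩⟩
  loopless := ⟨fun _ h => G.loopless.irrefl _ h.1⟩

/-- The edges inside `S`. -/
def rs (G : SimpleGraph (Fin n)) (S : Set (Fin n)) : SimpleGraph (Fin n) where
  Adj x y := G.Adj x y ∧ x ∈ S ∧ y ∈ S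
  symm := ⟨fun _ _ h => ⟨h.1.symm, h.2.2, h.2.1⟩⟩
  loopless := ⟨fun _ h => G.loopless.irrefl _ h.1⟩

/-- The component of `x`. -/
def cmp (G : SimpleGraph (Fin n)) (x : Fin n) : Set (Fin n) := {y | G.Reachable x y}

/-- No edge leaves `S`. -/
def Cl (G : SimpleGraph (Fin n)) (S : Set (Fin n)) : Prop := ∀ x y, G.Adj x y → (x ∈ S ↔ y ∈ S)

variable {G H M N P : SimpleGraph (Fin n)} {S Z : Set (Fin n)}

theorem del_le (G : SimpleGraph (Fin n)) (S : Set (Fin n)) : del G S ≤ G := fun _ _ h => h.1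

theorem rs_le (G : SimpleGraph (Fin n)) (S : Set (Fin n)) : rs G S ≤ G := fun _ _ h => h.1

theorem rs_mono (h : G ≤ H) (S : Set (Fin n)) : rs G S ≤ rs H S := fun _ _ h' => ⟨h h'.1, h'.2⟩

theorem isMat_le (h : IsMat H M) (hle : H ≤ G) : IsMat G M := ⟨h.1.trans hle, h.2⟩

theorem isMat_sub (h : IsMat G M) (hN : N ≤ M) : IsMat G N :=
  ⟨hN.trans h.1, fun v w w' h1 h2 => h.2 v w w' (hN h1) (hN h2)⟩

theorem isMat_rs (h : IsMat G M) (S : Set (Fin n)) : IsMat (rs G S) (rs M S) :=
  ⟨rs_mono h.1 S, fun v w w' h1 h2 => h.2 v w w' h1.1 h2.1⟩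

theorem isMat_bot (G : SimpleGraph (Fin n)) : IsMat G ⊥ :=
  ⟨bot_le, fun v w w' hw _ => absurd hw (by simp)⟩

theorem cl_compl (h : Cl G S) : Cl G Sᶜ := fun x y hxy => not_congr (h x y hxy)

theorem cl_le (h : Cl H S) (hle : G ≤ H) : Cl G S := fun x y hxy => h x y (hle hxy)

theorem cl_cmp (G : SimpleGraph (Fin n)) (x : Fin n) : Cl G (cmp G x) := fun a b hab =>
  ⟨fun h => SimpleGraph.Reachable.trans h hab.reachable, fun h => SimpleGraph.Reachable.trans h hab.symm.reachable⟩

/-- The edges of a graph are divided by a closed set. -/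
theorem split_edges (h : Cl M S) : M.edgeSet.ncard = (rs M S).edgeSet.ncard + (rs M Sᶜ).edgeSet.ncard := by
  have h1 : M.edgeSet = (rs M S).edgeSet ∪ (rs M Sᶜ).edgeSet := by
    ext e
    induction e with
    | _ x y =>
      rw [Set.mem_union, SimpleGraph.mem_edgeSet, SimpleGraph.mem_edgeSet, SimpleGraph.mem_edgeSet]
      constructor
      · intro hxy
        by_cases hx : x ∈ S
        · exact Or.inl ⟨hxy, hx, (h x y hxy).1 hx⟩
        · exact Or.inr ⟨hxy, hx, fun hy => hx ((h x y hxy).2 hy)⟩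
      · rintro (h2 | h2)
        · exact h2.1
        · exact h2.1
  have h2 : Disjoint (rs M S).edgeSet (rs M Sᶜ).edgeSet := by
    rw [Set.disjoint_left]
    intro e
    induction e with
    | _ x y =>
      rw [SimpleGraph.mem_edgeSet, SimpleGraph.mem_edgeSet]
      intro h3 h4
      exact h4.2.1 h3.2.1
  conv_lhs => rw [h1]
  exact Set.ncard_union_eq h2 (Set.toFinite _) (Set.toFinite _)

/-- The part of a maximum matching in a closed set. -/
theorem max_rs (h : IsMaxMat H M) (hS : Cl H S) : IsMaxMat (rs H S) (rs M S) := by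
  refine ⟨isMat_rs h.1 S, fun P hP => ?_⟩
  have hPM : IsMat H (P ⊔ rs M Sᶜ) := by
    refine ⟨sup_le (hP.1.trans (rs_le H S)) ((rs_le M _).trans h.1.1), ?_⟩
    intro v w w' h1 h2
    rw [SimpleGraph.sup_adj] at h1 h2
    rcases h1 with h1 | h1 <;> rcases h2 with h2 | h2
    · exact hP.2 v w w' h1 h2
    · exact absurd (hP.1 h1).2.1 h2.2.1
    · exact absurd (hP.1 h2).2.1 h1.2.1
    · exact h.1.2 v w w' h1.1 h2.1
  have h1 := split_edges (cl_le hS hPM.1)
  have h2 := split_edges (cl_le hS h.1.1)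
  have h3 : rs (P ⊔ rs M Sᶜ) S = P := by
    ext x y
    constructor
    · rintro ⟨h4, h5, h6⟩
      rw [SimpleGraph.sup_adj] at h4
      rcases h4 with h4 | h4
      · exact h4
      · exact absurd h5 h4.2.1
    · intro h4
      exact ⟨(SimpleGraph.sup_adj ..).2 (Or.inl h4), (hP.1 h4).2⟩
  have h4 : rs (P ⊔ rs M Sᶜ) Sᶜ = rs M Sᶜ := by
    ext x y
    constructor
    · rintro ⟨h4, h5, h6⟩
      rw [SimpleGraph.sup_adj] at h4
      rcases h4 with h4 | h4
      · exact absurd (hP.1 h4).2.1 h5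
      · exact h4
    · intro h4
      exact ⟨(SimpleGraph.sup_adj ..).2 (Or.inr h4), h4.2⟩
  rw [h3, h4] at h1
  have h5 := h.2 _ hPM
  omega

/-- Removing the vertices of `Z` from a matching. -/
theorem del_edges (hP : IsMat G P) (hPS : ∀ x y, P.Adj x y → x ∈ S) (Z : Set (Fin n)) :
    P.edgeSet.ncard ≤ (del P Z).edgeSet.ncard + (Z ∩ S).ncard := by
  classical
  have hex : ∀ z, ∃ y, ∀ w, P.Adj z w → w = y := by
    intro z
    by_cases h : ∃ y, P.Adj z y
    · obtain ⟨y, hy⟩ := h
      exact ⟨y, fun w hw => hP.2 z w y hw hy⟩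
    · exact ⟨z, fun w hw => absurd ⟨w, hw⟩ h⟩
  choose m hm using hex
  have h1 : P.edgeSet ⊆ (del P Z).edgeSet ∪ (fun z => s(z, m z)) '' (Z ∩ S) := by
    intro e
    induction e with
    | _ x y =>
      rw [SimpleGraph.mem_edgeSet]
      intro hxy
      by_cases hx : x ∈ Z
      · refine Or.inr ⟨x, ⟨hx, hPS x y hxy⟩, ?_⟩
        show s(x, m x) = s(x, y)
        rw [← hm x y hxy]
      · by_cases hy : y ∈ Z
        · refine Or.inr ⟨y, ⟨hy, hPS y x hxy.symm⟩, ?_⟩
          show s(y, m y) = s(x, y)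
          rw [← hm y x hxy.symm, Sym2.eq_swap]
        · exact Or.inl ⟨hxy, hx, hy⟩
  calc P.edgeSet.ncard ≤ ((del P Z).edgeSet ∪ (fun z => s(z, m z)) '' (Z ∩ S)).ncard :=
        Set.ncard_le_ncard h1 (Set.toFinite _)
    _ ≤ (del P Z).edgeSet.ncard + ((fun z => s(z, m z)) '' (Z ∩ S)).ncard := Set.ncard_union_le _ _
    _ ≤ _ := Nat.add_le_add_left (Set.ncard_image_le (Set.toFinite _)) _

/-- A maximum matching of `del H Z` has in a component of `H` at most `|Z ∩ C|` edges less than any matching. -/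
theorem rec_step (h : IsMaxMat (del H Z) M) (hS : Cl H S) (hP : IsMat (rs H S) P) :
    P.edgeSet.ncard ≤ (rs M S).edgeSet.ncard + (Z ∩ S).ncard := by
  have h1 := max_rs h (cl_le hS (del_le H Z))
  have h2 : IsMat (rs (del H Z) S) (del P Z) :=
    ⟨fun x y hxy => ⟨⟨(hP.1 hxy.1).1, hxy.2⟩, (hP.1 hxy.1).2⟩, fun v w w' h3 h4 => hP.2 v w w' h3.1 h4.1⟩
  have h3 := h1.2 _ h2
  have h4 := del_edges hP (S := S) (fun x y hxy => (hP.1 hxy).2.1) Z
  omega

/-- The union of graphs given for all components. -/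
def glue (N : Fin n → SimpleGraph (Fin n)) : SimpleGraph (Fin n) := SimpleGraph.fromRel (fun u v => (N u).Adj u v)

theorem glue_adj {N : Fin n → SimpleGraph (Fin n)} (h1 : ∀ x, N x ≤ rs H (cmp H x)) (h2 : ∀ x y, H.Reachable x y → N x = N y)
    {x y : Fin n} : (glue N).Adj x y ↔ (N x).Adj x y := by
  unfold glue
  rw [SimpleGraph.fromRel_adj]
  constructor
  · rintro ⟨-, h3 | h3⟩
    · exact h3
    · rw [h2 x y (h1 y h3).1.symm.reachable]
      exact h3.symm
  · intro h3
    exact ⟨h3.ne, Or.inl h3⟩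

theorem glue_mat {N : Fin n → SimpleGraph (Fin n)} (h1 : ∀ x, IsMat (rs H (cmp H x)) (N x)) (h2 : ∀ x y, H.Reachable x y → N x = N y) :
    IsMat H (glue N) := by
  refine ⟨fun x y hxy => ?_, fun v w w' h3 h4 => ?_⟩
  · rw [glue_adj (fun x => (h1 x).1) h2] at hxy
    exact ((h1 x).1 hxy).1
  · rw [glue_adj (fun x => (h1 x).1) h2] at h3 h4
    exact (h1 v).2 v w w' h3 h4

theorem glue_rs {N : Fin n → SimpleGraph (Fin n)} (h1 : ∀ x, N x ≤ rs H (cmp H x)) (h2 : ∀ x y, H.Reachable x y → N x = N y)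
    (x : Fin n) : rs (glue N) (cmp H x) = N x := by
  ext a b
  constructor
  · rintro ⟨h3, h4, h5⟩
    rw [glue_adj h1 h2] at h3
    rw [h2 x a h4]
    exact h3
  · intro h3
    have h4 := h1 x h3
    refine ⟨?_, h4.2⟩
    rw [glue_adj h1 h2, ← h2 x a h4.2.1]
    exact h3

theorem cl_inter {T : Set (Fin n)} (h : Cl G S) (h' : Cl G T) : Cl G (S ∩ T) := fun x y hxy => and_congr (h x y hxy) (h' x y hxy)

/-- Maximum matchings of all components give a maximum matching. -/
theorem glue_max {N : Fin n → SimpleGraph (Fin n)} (h1 : ∀ x, IsMaxMat (rs H (cmp H x)) (N x)) (h2 : ∀ x y, H.Reachable x y → N x = N y) :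
    IsMaxMat H (glue N) := by
  classical
  have hmat := glue_mat (fun x => (h1 x).1) h2
  refine ⟨hmat, fun P hP => ?_⟩
  have key : ∀ k : ℕ, ∀ S : Set (Fin n), S.ncard ≤ k → Cl H S → (rs P S).edgeSet.ncard ≤ (rs (glue N) S).edgeSet.ncard := by
    intro k
    induction k with
    | zero =>
      intro S hS hcl
      have hS0 : S = ∅ := by
        rw [← Set.ncard_eq_zero (Set.toFinite _)]
        omega
      subst hS0
      have : (rs P ∅).edgeSet = ∅ := by
        rw [Set.eq_empty_iff_forall_notMem]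
        intro e
        induction e with
        | _ x y =>
          rw [SimpleGraph.mem_edgeSet]
          intro h3
          exact h3.2.1
      rw [this, Set.ncard_empty]
      exact Nat.zero_le _
    | succ k ih =>
      intro S hS hcl
      rcases Set.eq_empty_or_nonempty S with h0 | ⟨x, hx⟩
      · exact ih S (by rw [h0, Set.ncard_empty]; exact Nat.zero_le _) hcl
      · have hsub : cmp H x ⊆ S := by
          intro y hy
          have hy' : H.Reachable x y := hy
          rw [SimpleGraph.reachable_iff_reflTransGen] at hy'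
          induction hy' with
          | refl => exact hx
          | tail h3 h4 ih' =>
            refine (hcl _ _ h4).1 (ih' ?_)
            exact (SimpleGraph.reachable_iff_reflTransGen ..).2 h3
        have hxx : x ∈ cmp H x := SimpleGraph.Reachable.refl x
        have hrest : (S ∩ (cmp H x)ᶜ).ncard ≤ k := by
          have h3 : (S ∩ (cmp H x)ᶜ).ncard < S.ncard := by
            refine Set.ncard_lt_ncard ⟨Set.inter_subset_left, fun h4 => ?_⟩ (Set.toFinite _)
            exact (h4 hx).2 hxx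
          omega
        have h3 := ih _ hrest (cl_inter hcl (cl_compl (cl_cmp H x)))
        have e1 : ∀ Q : SimpleGraph (Fin n), rs (rs Q S) (cmp H x) = rs Q (cmp H x) := by
          intro Q
          ext a b
          exact ⟨fun h => ⟨h.1.1, h.2⟩, fun h => ⟨⟨h.1, hsub h.2.1, hsub h.2.2⟩, h.2⟩⟩
        have e2 : ∀ Q : SimpleGraph (Fin n), rs (rs Q S) (cmp H x)ᶜ = rs Q (S ∩ (cmp H x)ᶜ) := by
          intro Q
          ext a b
          exact ⟨fun h => ⟨h.1.1, ⟨h.1.2.1, h.2.1⟩, ⟨h.1.2.2, h.2.2⟩⟩, fun h => ⟨⟨h.1, h.2.1.1, h.2.2.1⟩, ⟨h.2.1.2, h.2.2.2⟩⟩⟩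
        have h4 := split_edges (M := rs P S) (S := cmp H x) (cl_le (cl_cmp H x) ((rs_le P S).trans hP.1))
        have h5 := split_edges (M := rs (glue N) S) (S := cmp H x) (cl_le (cl_cmp H x) ((rs_le (glue N) S).trans hmat.1))
        rw [e1, e2] at h4 h5
        have h6 : (rs P (cmp H x)).edgeSet.ncard ≤ (rs (glue N) (cmp H x)).edgeSet.ncard := by
          rw [glue_rs (fun x => (h1 x).1.1) h2]
          exact (h1 x).2 _ (isMat_rs hP _)
        omega
  have h3 := key n Set.univ (by rw [Set.ncard_univ, Nat.card_eq_fintype_card, Fintype.card_fin]) (fun x y _ => Iff.rfl)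
  have e : ∀ Q : SimpleGraph (Fin n), rs Q Set.univ = Q := by
    intro Q
    ext a b
    exact ⟨fun h => h.1, fun h => ⟨h, trivial, trivial⟩⟩
  rwa [e, e] at h3

theorem cmp_eq {x y : Fin n} (h : H.Reachable x y) : cmp H x = cmp H y := by
  ext z
  exact ⟨fun h' => SimpleGraph.Reachable.trans h.symm h', fun h' => SimpleGraph.Reachable.trans h h'⟩

end Pool.Agent.TWR
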