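import Pool.Agent.Lib.MP_0087d5_lc.TW.RecMain
import Pool.Agent.Lib.MP_0087d5_lc.TW.Base

/-!
# From separators to maximum matchings: the numbers
-/

set_option autoImplicit false
set_option linter.all false

namespace Pool.Agent.TW

open Relation Pool.Agent.UPM Pool.Agent.AUG

variable {n : ℕ}

theorem twr_del (G : SimpleGraph (Fin n)) (S : Set (Fin n)) : TWR.del G S = del G S := rfl

theorem twr_cmp (G : SimpleGraph (Fin n)) (x : Fin n) : TWR.cmp G x = cmp G x := rfl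

private theorem rf_size {n : ℕ} (hn : 2 ≤ n) : Nat.size (n - 1) ≤ 2 * Nat.log 2 n := by
  have h1 : 1 ≤ Nat.log 2 n := Nat.log_pos one_lt_two hn
  have h2 : n < 2 ^ (Nat.log 2 n + 1) := Nat.lt_pow_succ_log_self one_lt_two n
  have h3 : Nat.size (n - 1) ≤ Nat.log 2 n + 1 := Nat.size_le.2 (by omega)
  omega

/-- The matchings from the separators. -/
theorem rec_fin (c : ℕ) (Z : ∀ n : ℕ, SimpleGraph (Fin n) → Set (Fin n)) (hZ : NCP GS GB (Fin 1) (fun n G x => x 0 ∈ Z n G))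
    (Good : ∀ n : ℕ, SimpleGraph (Fin n) → Prop) (hGood : ∀ n G H, Good n G → H ≤ G → Good n H)
    (hbal : ∀ n (G : SimpleGraph (Fin n)), 2 ≤ n → Good n G → ∀ x y, y ∈ cmp G x → y ∉ Z n G → 4 * (cmp (del G (Z n G)) y).ncard ≤ 3 * (cmp G x).ncard)
    (hcard : ∀ n (G : SimpleGraph (Fin n)), 2 ≤ n → ∀ x, (Z n G ∩ cmp G x).ncard ≤
      8 * (2 * Nat.size (n - 1) ^ c) + (3 * Nat.size (n - 1) ^ c) * (16 * (2 * Nat.size (n - 1) ^ c) + 256 * (2 * Nat.size (n - 1) ^ c) ^ 3)) :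
    ∃ F : ∀ n : ℕ, SimpleGraph (Fin n) → SimpleGraph (Fin n), NCP GS GB (Fin 2) (fun n G x => (F n G).Adj (x 0) (x 1)) ∧
      ∀ (n : ℕ) (G : SimpleGraph (Fin n)), IsMat G (F n G) ∧ (Good n G → IsMaxMat G (F n G)) := by
  refine TWR.rec_main Z hZ Good hGood 2 (4 * c + 1) (2 ^ (6256 * 2 ^ (4 * c) + 2)) ?_ ?_
  · intro n G hn _ x
    have hpos : 2 ^ 2 ≤ 2 ^ (6256 * 2 ^ (4 * c) + 2) := Nat.pow_le_pow_right (by norm_num) (by omega)
    have hn0 : n ≠ 0 := by omega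
    have hL : 6256 * 2 ^ (4 * c) + 2 ≤ Nat.log 2 n := (Nat.le_log_iff_pow_le one_lt_two hn0).2 hn
    have h1 := hcard n G (by omega) x
    have h2 := rf_size (n := n) (by omega)
    rw [twr_cmp]
    refine h1.trans ?_
    have hs1 : 1 ≤ Nat.size (n - 1) := Nat.size_pos.2 (by omega)
    generalize hs : Nat.size (n - 1) = s at *
    generalize hl : Nat.log 2 n = l at *
    have h3 : 1 ≤ s ^ c := Nat.one_le_pow _ _ hs1
    have h4 : 8 * (2 * s ^ c) + (3 * s ^ c) * (16 * (2 * s ^ c) + 256 * (2 * s ^ c) ^ 3) ≤ 6256 * (s ^ c) ^ 4 := by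
      generalize s ^ c = u at h3
      have h5 : u ≤ u ^ 4 := by
        calc u = u * 1 := (Nat.mul_one u).symm
          _ ≤ u * u ^ 3 := Nat.mul_le_mul_left _ (Nat.one_le_pow _ _ h3)
          _ = u ^ 4 := by ring
      have h6 : u ^ 2 ≤ u ^ 4 := by
        calc u ^ 2 = u ^ 2 * 1 := (Nat.mul_one _).symm
          _ ≤ u ^ 2 * u ^ 2 := Nat.mul_le_mul_left _ (Nat.one_le_pow _ _ h3)
          _ = u ^ 4 := by ring
      have e : 8 * (2 * u) + (3 * u) * (16 * (2 * u) + 256 * (2 * u) ^ 3) = 16 * u + 96 * u ^ 2 + 6144 * u ^ 4 := by ring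
      rw [e]
      omega
    refine h4.trans ?_
    calc 6256 * (s ^ c) ^ 4 ≤ 6256 * ((2 * l) ^ c) ^ 4 :=
          Nat.mul_le_mul_left _ (Nat.pow_le_pow_left (Nat.pow_le_pow_left h2 _) _)
      _ = (6256 * 2 ^ (4 * c)) * l ^ (4 * c) := by
          rw [Nat.mul_pow, Nat.mul_pow, ← pow_mul, ← pow_mul, Nat.mul_comm c 4]
          ring
      _ ≤ l * l ^ (4 * c) := Nat.mul_le_mul_right _ (by omega)
      _ = l ^ (4 * c + 1) := by ring
  · intro n G hn hG x hx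
    right
    have hpos : 2 ^ 2 ≤ 2 ^ (6256 * 2 ^ (4 * c) + 2) := Nat.pow_le_pow_right (by norm_num) (by omega)
    have hL : 2 ≤ Nat.log 2 n := (Nat.le_log_iff_pow_le one_lt_two (by omega)).2 (by omega)
    have h1 := hbal n G (by omega) hG x x (SimpleGraph.Reachable.refl x) hx
    rw [twr_cmp, twr_del, twr_cmp]
    have hsub : cmp (del G (Z n G)) x ⊆ cmp G x := fun z hz => SimpleGraph.Reachable.mono (show del G (Z n G) ≤ G from fun _ _ h => h.1) hz
    have hle : (cmp (del G (Z n G)) x).ncard ≤ (cmp G x).ncard := Set.ncard_le_ncard hsub (Set.toFinite _)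
    have h4 : 4 ≤ Nat.log 2 n ^ 2 := by
      calc 4 = 2 ^ 2 := by norm_num
        _ ≤ _ := Nat.pow_le_pow_left hL 2
    generalize (cmp (del G (Z n G)) x).ncard = d at *
    generalize (cmp G x).ncard = C at *
    calc C ≤ (C - d) * 4 := by omega
      _ ≤ (C - d) * Nat.log 2 n ^ 2 := Nat.mul_le_mul_left _ h4

theorem twLE_le {G H : SimpleGraph (Fin n)} {k : ℕ} (h : TwLE G k) (hle : H ≤ G) : TwLE H k := by
  obtain ⟨m, T, B, h1, h2, h3, h4, h5⟩ := h
  exact ⟨m, T, B, h1, h2, h3, fun u v huv => h4 u v (hle huv), h5⟩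

end Pool.Agent.TW
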