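import Pool.Agent.Lib.MP_0087d5_lc.TW.RecNC

/-!
# The recursion over separators: the main theorem

`rec_main`: if separators `Z n G` are computed by a program and are small and balanced in all graphs of a class which is closed under subgraphs, then there is a program for a matching of every graph, which is a maximum matching for the graphs of the class.
-/

set_option autoImplicit false
set_option linter.all false

namespace Pool.Agent.TWR

open Relation Pool.Agent.UPM Pool.Agent.AUG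

variable {n : ℕ}

theorem del_bot (S : Set (Fin n)) : del ⊥ S = ⊥ := le_bot_iff.1 (del_le ⊥ S)

/-- The graphs of the recursion. -/
def seqR (Z : ∀ n : ℕ, SimpleGraph (Fin n) → Set (Fin n)) (n : ℕ) (G : SimpleGraph (Fin n)) : ℕ → SimpleGraph (Fin n)
  | 0 => G
  | j + 1 => del (seqR Z n G j) (Z n (seqR Z n G j))

theorem seqR_anti (Z : ∀ n : ℕ, SimpleGraph (Fin n) → Set (Fin n)) (n : ℕ) (G : SimpleGraph (Fin n)) (j : ℕ) :
    seqR Z n G j ≤ G := by
  induction j with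
  | zero => exact le_rfl
  | succ j ih => exact (del_le _ _).trans ih

theorem gr_false (j : Fin n) : gr (fun _ => False) j = ⊥ := by
  ext u v
  unfold gr
  rw [SimpleGraph.fromRel_adj]
  simp

theorem gr_op1_zero (Z : ∀ n : ℕ, SimpleGraph (Fin n) → Set (Fin n)) (G : SimpleGraph (Fin n)) (T : (Fin 3 → Fin n) → Prop) (h : 0 < n) :
    gr (op1 Z n G T) ⟨0, h⟩ = G := by
  ext u v
  unfold gr
  rw [SimpleGraph.fromRel_adj]
  have e : ∀ u v : Fin n, op1 Z n G T ![⟨0, h⟩, u, v] ↔ G.Adj u v := by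
    intro u v
    constructor
    · rintro (⟨-, h1⟩ | ⟨i, h1, -⟩)
      · exact h1
      · have h2 : (0 : ℕ) = (i : ℕ) + 1 := h1
        omega
    · intro h1
      exact Or.inl ⟨rfl, h1⟩
  rw [e, e]
  constructor
  · rintro ⟨-, h1 | h1⟩
    · exact h1
    · exact h1.symm
  · intro h1
    exact ⟨h1.ne, Or.inl h1⟩

theorem gr_op1_succ (Z : ∀ n : ℕ, SimpleGraph (Fin n) → Set (Fin n)) (G : SimpleGraph (Fin n)) (T : (Fin 3 → Fin n) → Prop) (j : ℕ) (h : j + 1 < n) :
    gr (op1 Z n G T) ⟨j + 1, h⟩ = del (gr T ⟨j, by omega⟩) (Z n (gr T ⟨j, by omega⟩)) := by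
  ext u v
  have e : ∀ u v : Fin n, op1 Z n G T ![⟨j + 1, h⟩, u, v] ↔ (del (gr T ⟨j, by omega⟩) (Z n (gr T ⟨j, by omega⟩))).Adj u v := by
    intro u v
    constructor
    · rintro (⟨h1, -⟩ | ⟨i, h1, h2⟩)
      · have h3 : j + 1 = 0 := h1
        omega
      · have h3 : j + 1 = (i : ℕ) + 1 := h1
        have h4 : i = ⟨j, by omega⟩ := Fin.ext (by show (i : ℕ) = j; omega)
        rw [← h4]
        exact h2
    · intro h1
      exact Or.inr ⟨⟨j, by omega⟩, rfl, h1⟩
  conv_lhs => unfold gr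
  rw [SimpleGraph.fromRel_adj, e, e]
  constructor
  · rintro ⟨-, h1 | h1⟩
    · exact h1
    · exact h1.symm
  · intro h1
    exact ⟨h1.ne, Or.inl h1⟩

theorem gr_tabT (Z : ∀ n : ℕ, SimpleGraph (Fin n) → Set (Fin n)) (G : SimpleGraph (Fin n)) (t : ℕ) (j : Fin n) :
    gr (tabT Z t n G) j = if (j : ℕ) < t then seqR Z n G j else ⊥ := by
  induction t generalizing j with
  | zero =>
    rw [if_neg (by omega)]
    exact gr_false j
  | succ t ih =>
    have h1 : tabT Z (t + 1) n G = op1 Z n G (tabT Z t n G) := by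
      unfold tabT
      rw [Function.iterate_succ_apply']
    rw [h1]
    obtain ⟨j, hj⟩ := j
    cases j with
    | zero =>
      rw [gr_op1_zero, if_pos (by show 0 < t + 1; omega)]
      rfl
    | succ j =>
      rw [gr_op1_succ, ih]
      by_cases h : j < t
      · have h2 : (if ((⟨j, by omega⟩ : Fin n) : ℕ) < t then seqR Z n G ((⟨j, by omega⟩ : Fin n) : ℕ) else ⊥) = seqR Z n G j := if_pos h
        have h3 : (if ((⟨j + 1, hj⟩ : Fin n) : ℕ) < t + 1 then seqR Z n G ((⟨j + 1, hj⟩ : Fin n) : ℕ) else ⊥) = seqR Z n G (j + 1) :=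
          if_pos (by show j + 1 < t + 1; omega)
        rw [h2, h3]
        rfl
      · have h2 : (if ((⟨j, by omega⟩ : Fin n) : ℕ) < t then seqR Z n G ((⟨j, by omega⟩ : Fin n) : ℕ) else ⊥) = ⊥ := if_neg h
        have h3 : (if ((⟨j + 1, hj⟩ : Fin n) : ℕ) < t + 1 then seqR Z n G ((⟨j + 1, hj⟩ : Fin n) : ℕ) else ⊥) = ⊥ :=
          if_neg (by show ¬ j + 1 < t + 1; omega)
        rw [h2, h3]
        exact del_bot _

theorem gr_op2 (F : ∀ n : ℕ, SimpleGraph (Fin n) → SimpleGraph (Fin n) → SimpleGraph (Fin n)) (s : GS n × RelF (Fin 3) Unit n)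
    (Q : (Fin 3 → Fin n) → Prop) (j : Fin n) : gr (op2 F n s Q) j = fst F n (gr (s.2 ()) j) (grN Q ((j : ℕ) + 1)) := by
  ext u v
  have e : ∀ u v : Fin n, op2 F n s Q ![j, u, v] ↔ (fst F n (gr (s.2 ()) j) (grN Q ((j : ℕ) + 1))).Adj u v := fun u v => Iff.rfl
  conv_lhs => unfold gr
  rw [SimpleGraph.fromRel_adj, e, e]
  constructor
  · rintro ⟨-, h1 | h1⟩
    · exact h1
    · exact h1.symm
  · intro h1
    exact ⟨h1.ne, Or.inl h1⟩

theorem isMax_bot {M : SimpleGraph (Fin n)} (h : IsMat ⊥ M) : IsMaxMat ⊥ M := by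
  refine ⟨h, fun N hN => ?_⟩
  rw [le_bot_iff.1 hN.1, le_bot_iff.1 h.1]

theorem fst_mat {F : ∀ n : ℕ, SimpleGraph (Fin n) → SimpleGraph (Fin n) → SimpleGraph (Fin n)} (hF : ∀ G M : SimpleGraph (Fin n), IsMat G M → IsMat G (F n G M))
    {H M : SimpleGraph (Fin n)} (h : IsMat H M) : IsMat H (fst F n H M) := by
  refine glue_mat (fun x => hF _ _ (isMat_rs h _)) (fun x y hxy => ?_)
  unfold app
  rw [cmp_eq hxy]

/-- The matchings of the table are matchings. -/
theorem tabQ_mat {F : ∀ n : ℕ, SimpleGraph (Fin n) → SimpleGraph (Fin n) → SimpleGraph (Fin n)} (hF : ∀ G M : SimpleGraph (Fin n), IsMat G M → IsMat G (F n G M))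
    {G : SimpleGraph (Fin n)} {T : (Fin 3 → Fin n) → Prop} (hT : ∀ (j : ℕ) (h : j + 1 < n), gr T ⟨j + 1, h⟩ ≤ gr T ⟨j, by omega⟩) (t : ℕ) (j : Fin n) :
    IsMat (gr T j) (gr (tabQ F t n (G, fun _ => T)) j) := by
  induction t generalizing j with
  | zero =>
    show IsMat (gr T j) (gr (fun _ => False) j)
    rw [gr_false]
    exact isMat_bot _
  | succ t ih =>
    have h1 : tabQ F (t + 1) n (G, fun _ => T) = op2 F n (G, fun _ => T) (tabQ F t n (G, fun _ => T)) := by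
      unfold tabQ
      rw [Function.iterate_succ_apply']
    rw [h1, gr_op2]
    refine fst_mat hF ?_
    show IsMat (gr T j) _
    by_cases h : (j : ℕ) + 1 < n
    · rw [grN_lt h]
      exact isMat_le (ih ⟨(j : ℕ) + 1, h⟩) (hT j h)
    · rw [grN_ge (by omega)]
      exact isMat_bot _

/-- The matchings of the table are maximum matchings from a certain step. -/
theorem tabQ_max {F : ∀ n : ℕ, SimpleGraph (Fin n) → SimpleGraph (Fin n) → SimpleGraph (Fin n)} {k : ℕ} (hF : ∀ G M : SimpleGraph (Fin n), IsMat G M → IsMat G (F n G M) ∧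
      (IsMaxMat G (F n G M) ∨ M.edgeSet.ncard + k ≤ (F n G M).edgeSet.ncard))
    {Z : ∀ n : ℕ, SimpleGraph (Fin n) → Set (Fin n)} {G : SimpleGraph (Fin n)} {T : (Fin 3 → Fin n) → Prop}
    (hT : ∀ (j : ℕ) (h : j + 1 < n), gr T ⟨j + 1, h⟩ ≤ gr T ⟨j, by omega⟩) {D : ℕ} (hD : D < n)
    (hD0 : ∀ j : Fin n, D ≤ (j : ℕ) → gr T j = ⊥) (hZ : ∀ (j : ℕ) (h : j < D), gr T ⟨j + 1, by omega⟩ = del (gr T ⟨j, by omega⟩) (Z n (gr T ⟨j, by omega⟩)))
    (hk : ∀ (j : ℕ) (h : j < D) (x : Fin n), (Z n (gr T ⟨j, by omega⟩) ∩ cmp (gr T ⟨j, by omega⟩) x).ncard < k) (t : ℕ) (j : Fin n) (htj : D ≤ t + (j : ℕ)) :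
    IsMaxMat (gr T j) (gr (tabQ F t n (G, fun _ => T)) j) := by
  induction t generalizing j with
  | zero =>
    have h1 := tabQ_mat (G := G) (fun G M h => (hF G M h).1) hT 0 j
    rw [hD0 j (by omega)] at h1 ⊢
    exact isMax_bot h1
  | succ t ih =>
    by_cases hjD : D ≤ (j : ℕ)
    · have h1 := tabQ_mat (G := G) (fun G M h => (hF G M h).1) hT (t + 1) j
      rw [hD0 j (by omega)] at h1 ⊢
      exact isMax_bot h1
    · have h1 : tabQ F (t + 1) n (G, fun _ => T) = op2 F n (G, fun _ => T) (tabQ F t n (G, fun _ => T)) := by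
        unfold tabQ
        rw [Function.iterate_succ_apply']
      have hj : (j : ℕ) + 1 < n := by omega
      rw [h1, gr_op2, grN_lt hj]
      show IsMaxMat (gr T j) (fst F n (gr T j) (gr (tabQ F t n (G, fun _ => T)) ⟨(j : ℕ) + 1, hj⟩))
      have h2 := ih ⟨(j : ℕ) + 1, hj⟩ (by show D ≤ t + ((j : ℕ) + 1); omega)
      have h3 : gr T ⟨(j : ℕ) + 1, hj⟩ = del (gr T j) (Z n (gr T j)) := hZ j (by omega)
      have hk' : ∀ x : Fin n, (Z n (gr T j) ∩ cmp (gr T j) x).ncard < k := hk j (by omega)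
      rw [h3] at h2
      generalize gr (tabQ F t n (G, fun _ => T)) ⟨(j : ℕ) + 1, hj⟩ = M at h2 ⊢
      generalize gr T j = H at h2 hk' ⊢
      have hM : IsMat H M := isMat_le h2.1 (del_le _ _)
      refine glue_max (fun x => ?_) (fun x y hxy => ?_)
      · have h4 := hF (rs H (cmp H x)) (rs M (cmp H x)) (isMat_rs hM _)
        rcases h4.2 with h5 | h5
        · exact h5
        · exfalso
          have h6 := rec_step h2 (cl_cmp H x) h4.1
          have h7 := hk' x
          omega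
      · unfold app
        rw [cmp_eq hxy]

/-! ### Numbers -/

private theorem rec_bern (m : ℕ) : 2 * (m - 1) ^ m ≤ m ^ m ∨ m = 0 := by
  rcases Nat.eq_zero_or_pos m with h | h
  · exact Or.inr h
  left
  obtain ⟨l, rfl⟩ : ∃ l, m = l + 1 := ⟨m - 1, by omega⟩
  rw [Nat.add_sub_cancel]
  have h1 : l ^ (l + 1) + (l + 1) * l ^ l ≤ (l + 1) ^ (l + 1) := by
    have h2 : ∀ k : ℕ, l ^ (k + 1) + (k + 1) * l ^ k ≤ (l + 1) ^ (k + 1) := by
      intro k
      induction k with
      | zero => simp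
      | succ k ih =>
        calc l ^ (k + 1 + 1) + (k + 1 + 1) * l ^ (k + 1) = (l ^ (k + 1) * l + (k + 1) * l ^ k * l) + l ^ (k + 1) := by ring
          _ ≤ (l ^ (k + 1) * l + (k + 1) * l ^ k * l) + (l ^ (k + 1) + (k + 1) * l ^ k) := by
              apply Nat.add_le_add_left
              exact Nat.le_add_right _ _
          _ = (l ^ (k + 1) + (k + 1) * l ^ k) * (l + 1) := by ring
          _ ≤ (l + 1) ^ (k + 1) * (l + 1) := Nat.mul_le_mul_right _ ih
          _ = _ := by ring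
    exact h2 l
  have h3 : l ^ (l + 1) ≤ (l + 1) * l ^ l := by
    rw [pow_succ, Nat.mul_comm]
    exact Nat.mul_le_mul_right _ (Nat.le_succ l)
  omega

private theorem rec_bern2 {m t : ℕ} (hm : 1 ≤ m) : 2 ^ t * (m - 1) ^ (m * t) ≤ m ^ (m * t) := by
  rw [pow_mul, pow_mul, ← Nat.mul_pow]
  rcases rec_bern m with h | h
  · exact Nat.pow_le_pow_left h t
  · omega

/-- The components become small. -/
theorem seqR_small {Z : ∀ n : ℕ, SimpleGraph (Fin n) → Set (Fin n)} {Good : SimpleGraph (Fin n) → Prop} (hGood : ∀ G H, Good G → H ≤ G → Good H)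
    {m : ℕ} (hm : 1 ≤ m) (h2 : ∀ G, Good G → ∀ x, x ∉ Z n G → (cmp (del G (Z n G)) x).ncard ≤ 1 ∨
      (cmp G x).ncard ≤ ((cmp G x).ncard - (cmp (del G (Z n G)) x).ncard) * m)
    {G : SimpleGraph (Fin n)} (hG : Good G) (j : ℕ) (x y : Fin n) (hxy : x ≠ y) (hr : (seqR Z n G j).Reachable x y) :
    (cmp (seqR Z n G j) x).ncard * m ^ j ≤ n * (m - 1) ^ j := by
  induction j with
  | zero =>
    rw [pow_zero, pow_zero, Nat.mul_one, Nat.mul_one]
    calc (cmp (seqR Z n G 0) x).ncard ≤ (Set.univ : Set (Fin n)).ncard := Set.ncard_le_ncard (Set.subset_univ _) (Set.toFinite _)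
      _ = n := by rw [Set.ncard_univ, Nat.card_eq_fintype_card, Fintype.card_fin]
  | succ j ih =>
    set H := seqR Z n G j with hH
    have e : seqR Z n G (j + 1) = del H (Z n H) := rfl
    rw [e] at hr ⊢
    have h3 : H.Reachable x y := hr.mono (del_le _ _)
    have h4 := ih h3
    have hx : x ∉ Z n H := by
      rw [SimpleGraph.reachable_iff_reflTransGen] at hr
      rcases Relation.ReflTransGen.cases_head hr with h5 | ⟨z, h5, -⟩
      · exact absurd h5 hxy
      · exact h5.2.1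
    have hsub : cmp (del H (Z n H)) x ⊆ cmp H x := fun z hz => SimpleGraph.Reachable.mono (del_le _ _) hz
    have hle : (cmp (del H (Z n H)) x).ncard ≤ (cmp H x).ncard := Set.ncard_le_ncard hsub (Set.toFinite _)
    have h5 : 1 < (cmp (del H (Z n H)) x).ncard := by
      rw [Set.one_lt_ncard (Set.toFinite _)]
      exact ⟨x, SimpleGraph.Reachable.refl x, y, hr, hxy⟩
    rcases h2 H (hGood _ _ hG (seqR_anti Z n G j)) x hx with h6 | h6
    · omega
    · generalize (cmp (del H (Z n H)) x).ncard = d at *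
      generalize (cmp H x).ncard = C at *
      have h7 : d * m ≤ C * (m - 1) := by
        obtain ⟨r, rfl⟩ : ∃ r, C = d + r := ⟨C - d, by omega⟩
        rw [Nat.add_sub_cancel_left] at h6
        obtain ⟨l, rfl⟩ : ∃ l, m = l + 1 := ⟨m - 1, by omega⟩
        rw [Nat.add_sub_cancel]
        nlinarith
      calc d * m ^ (j + 1) = (d * m) * m ^ j := by ring
        _ ≤ (C * (m - 1)) * m ^ j := Nat.mul_le_mul_right _ h7
        _ = (C * m ^ j) * (m - 1) := by ring
        _ ≤ (n * (m - 1) ^ j) * (m - 1) := Nat.mul_le_mul_right _ h4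
        _ = _ := by ring

theorem seqR_bot {Z : ∀ n : ℕ, SimpleGraph (Fin n) → Set (Fin n)} {Good : SimpleGraph (Fin n) → Prop} (hGood : ∀ G H, Good G → H ≤ G → Good H)
    {m : ℕ} (hm : 1 ≤ m) (h2 : ∀ G, Good G → ∀ x, x ∉ Z n G → (cmp (del G (Z n G)) x).ncard ≤ 1 ∨
      (cmp G x).ncard ≤ ((cmp G x).ncard - (cmp (del G (Z n G)) x).ncard) * m)
    {G : SimpleGraph (Fin n)} (hG : Good G) {j : ℕ} (hj : m * (Nat.log 2 n + 1) ≤ j) : seqR Z n G j = ⊥ := by
  have hanti : ∀ i k : ℕ, seqR Z n G (i + k) ≤ seqR Z n G i := by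
    intro i k
    induction k with
    | zero => exact le_rfl
    | succ k ih => exact (del_le _ _).trans ih
  have key : seqR Z n G (m * (Nat.log 2 n + 1)) = ⊥ := by
    rw [eq_bot_iff]
    intro x y hxy
    exfalso
    have h3 := seqR_small hGood hm h2 hG (m * (Nat.log 2 n + 1)) x y hxy.ne hxy.reachable
    have h4 := rec_bern2 (t := Nat.log 2 n + 1) hm
    have h5 : n < 2 ^ (Nat.log 2 n + 1) := Nat.lt_pow_succ_log_self one_lt_two n
    have h6 : 1 < (cmp (seqR Z n G (m * (Nat.log 2 n + 1))) x).ncard := by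
      rw [Set.one_lt_ncard (Set.toFinite _)]
      exact ⟨x, SimpleGraph.Reachable.refl x, y, hxy.reachable, hxy.ne⟩
    generalize (cmp (seqR Z n G (m * (Nat.log 2 n + 1))) x).ncard = d at *
    have h7 : 0 < m ^ (m * (Nat.log 2 n + 1)) := Nat.pow_pos hm
    generalize m ^ (m * (Nat.log 2 n + 1)) = A at *
    generalize (m - 1) ^ (m * (Nat.log 2 n + 1)) = B at *
    generalize 2 ^ (Nat.log 2 n + 1) = P at *
    have h8 : P * (d * A) ≤ n * A := by
      calc P * (d * A) ≤ P * (n * B) := Nat.mul_le_mul_left _ h3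
        _ = n * (P * B) := by ring
        _ ≤ n * A := Nat.mul_le_mul_left _ h4
    have h9 : (P * d) * A ≤ n * A := by
      calc (P * d) * A = P * (d * A) := by ring
        _ ≤ _ := h8
    have h10 := Nat.le_of_mul_le_mul_right h9 h7
    have h11 : P * 1 ≤ P * d := Nat.mul_le_mul_left _ (by omega)
    omega
  obtain ⟨k, rfl⟩ : ∃ k, j = m * (Nat.log 2 n + 1) + k := ⟨j - m * (Nat.log 2 n + 1), by omega⟩
  have h3 := hanti (m * (Nat.log 2 n + 1)) k
  rw [key] at h3
  exact le_bot_iff.1 h3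

/-- Powers of the logarithm are small. -/
theorem log_small (a : ℕ) : ∃ n1 : ℕ, ∀ n ≥ n1, Nat.log 2 n ^ a * (Nat.log 2 n + 1) < n := by
  have h1 : Filter.Tendsto (fun l : ℕ => ((l : ℝ) ^ (a + 2)) / (2 : ℝ) ^ l) Filter.atTop (nhds 0) :=
    tendsto_pow_const_div_const_pow_of_one_lt (a + 2) (by norm_num)
  obtain ⟨l0, hl0⟩ := (h1.eventually (gt_mem_nhds (zero_lt_one))).exists_forall_of_atTop
  refine ⟨2 ^ (l0 + 2), fun n hn => ?_⟩
  have hn0 : n ≠ 0 := by
    have := Nat.two_pow_pos (l0 + 2)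
    omega
  have hl : l0 + 2 ≤ Nat.log 2 n := (Nat.le_log_iff_pow_le one_lt_two hn0).2 hn
  have h2 := hl0 (Nat.log 2 n) (by omega)
  rw [div_lt_one (by positivity)] at h2
  have h3 : Nat.log 2 n ^ (a + 2) < 2 ^ Nat.log 2 n := by exact_mod_cast h2
  have h4 : 2 ^ Nat.log 2 n ≤ n := Nat.pow_log_le_self 2 hn0
  have h5 : Nat.log 2 n + 1 ≤ Nat.log 2 n ^ 2 := by
    rw [pow_two]
    nlinarith
  calc Nat.log 2 n ^ a * (Nat.log 2 n + 1) ≤ Nat.log 2 n ^ a * Nat.log 2 n ^ 2 := Nat.mul_le_mul_left _ h5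
    _ = Nat.log 2 n ^ (a + 2) := by rw [pow_add]
    _ < 2 ^ Nat.log 2 n := h3
    _ ≤ n := h4

private theorem rec_size {n : ℕ} (hn : 2 ≤ n) : Nat.log 2 n ≤ Nat.size (n - 1) := by
  have h1 : 1 ≤ Nat.log 2 n := Nat.log_pos one_lt_two hn
  have h2 : 2 ^ Nat.log 2 n ≤ n := Nat.pow_log_le_self 2 (by omega)
  have h3 : Nat.log 2 n - 1 < Nat.size (n - 1) := by
    rw [Nat.lt_size]
    obtain ⟨l, hl⟩ : ∃ l, Nat.log 2 n = l + 1 := ⟨Nat.log 2 n - 1, by omega⟩
    rw [hl] at h2 ⊢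
    rw [pow_succ] at h2
    simp only [Nat.add_sub_cancel]
    have := Nat.one_le_two_pow (n := l)
    omega
  omega

/-- A matching has at most `n / 2` edges. -/
theorem mat_card {G M : SimpleGraph (Fin n)} (h : IsMat G M) : 2 * M.edgeSet.ncard ≤ n := by
  classical
  rw [← SUB.cv_mt h]
  unfold SUB.cv
  exact (Finset.card_le_univ _).trans (by rw [Fintype.card_fin])

/-- **The recursion.** -/
theorem rec_main (Z : ∀ n : ℕ, SimpleGraph (Fin n) → Set (Fin n)) (hZ : NCP GS GB (Fin 1) (fun n G x => x 0 ∈ Z n G))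
    (Good : ∀ n : ℕ, SimpleGraph (Fin n) → Prop) (hGood : ∀ n G H, Good n G → H ≤ G → Good n H) (a e n0 : ℕ)
    (h1 : ∀ n G, n0 ≤ n → Good n G → ∀ x, (Z n G ∩ cmp G x).ncard ≤ Nat.log 2 n ^ e)
    (h2 : ∀ n G, n0 ≤ n → Good n G → ∀ x, x ∉ Z n G → (cmp (del G (Z n G)) x).ncard ≤ 1 ∨
      (cmp G x).ncard ≤ ((cmp G x).ncard - (cmp (del G (Z n G)) x).ncard) * Nat.log 2 n ^ a) :
    ∃ F : ∀ n : ℕ, SimpleGraph (Fin n) → SimpleGraph (Fin n), NCP GS GB (Fin 2) (fun n G x => (F n G).Adj (x 0) (x 1)) ∧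
      ∀ (n : ℕ) (G : SimpleGraph (Fin n)), IsMat G (F n G) ∧ (Good n G → IsMaxMat G (F n G)) := by
  obtain ⟨n1, hn1⟩ := log_small a
  obtain ⟨F, hF, hS⟩ := EXA.exa_F (e + 1 + (n0 + n1 + 4))
  refine ⟨fin Z F (fun n => 3 * Nat.size (n - 1) ^ (a + 1)), fin_ncp hZ hF 3 (a + 1), ?_⟩
  intro n G
  set N := 3 * Nat.size (n - 1) ^ (a + 1) with hN
  set T := tabT Z N n G with hTd
  set M := grN (tabQ F N n (G, fun _ => T)) 0 with hMd
  have hfin : fin Z F (fun n => 3 * Nat.size (n - 1) ^ (a + 1)) n G = F n G M := rfl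
  rw [hfin]
  have hmat : ∀ G M : SimpleGraph (Fin n), IsMat G M → IsMat G (F n G M) := fun G M h => (hS n G M h).1
  have hTanti : ∀ (j : ℕ) (h : j + 1 < n), gr T ⟨j + 1, h⟩ ≤ gr T ⟨j, by omega⟩ := by
    intro j h
    rw [hTd, gr_tabT, gr_tabT]
    show (if j + 1 < N then seqR Z n G (j + 1) else ⊥) ≤ (if j < N then seqR Z n G j else ⊥)
    split_ifs with h3 h4 h4
    · exact del_le _ _
    · omega
    · exact bot_le
    · exact bot_le
  rcases Nat.lt_or_ge n 2 with hn2 | hn2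
  · have hs : Subsingleton (Fin n) := Fin.subsingleton_iff_le_one.2 (by omega)
    have hsub : ∀ A B : SimpleGraph (Fin n), A = B := by
      intro A B
      ext x y
      rw [Subsingleton.elim x y]
      exact ⟨fun h => (A.loopless.irrefl _ h).elim, fun h => (B.loopless.irrefl _ h).elim⟩
    have hm : IsMat G (F n G M) := by
      rw [hsub (F n G M) ⊥]
      exact isMat_bot G
    exact ⟨hm, fun _ => ⟨hm, fun N' _ => by rw [hsub N' (F n G M)]⟩⟩
  have hlog1 : 1 ≤ Nat.log 2 n := Nat.log_pos one_lt_two hn2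
  have hsz := rec_size hn2
  have hNpos : 0 < N := by
    rw [hN]
    have : 1 ≤ Nat.size (n - 1) ^ (a + 1) := Nat.one_le_pow _ _ (by omega)
    omega
  have hT0 : gr T ⟨0, by omega⟩ = G := by
    rw [hTd, gr_tabT, if_pos (show (0 : ℕ) < N from hNpos)]
    rfl
  have hM : IsMat G M := by
    rw [hMd, grN_lt (by omega)]
    have h3 := tabQ_mat (G := G) hmat hTanti N ⟨0, by omega⟩
    rwa [hT0] at h3
  refine ⟨hmat G M hM, fun hgood => ?_⟩
  rcases Nat.lt_or_ge n (n0 + n1 + 4) with hsmall | hbig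
  · rcases (hS n G M hM).2.2.1 with h3 | h3
    · exact h3
    · refine ⟨hmat G M hM, fun N' hN' => ?_⟩
      have h4 := mat_card (hmat G M hM)
      have h5 := mat_card hN'
      rcases Nat.lt_or_ge n 4 with hn4 | hn4
      · have h6 : 1 ≤ Nat.log 2 n ^ (e + 1 + (n0 + n1 + 4)) := Nat.one_le_pow _ _ hlog1
        omega
      · exfalso
        have h6 : 2 ≤ Nat.log 2 n := (Nat.le_log_iff_pow_le one_lt_two (by omega)).2 (by omega)
        have h7 : 2 ^ (n0 + n1 + 4) ≤ Nat.log 2 n ^ (e + 1 + (n0 + n1 + 4)) :=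
          (Nat.pow_le_pow_right (by norm_num) (by omega)).trans (Nat.pow_le_pow_left h6 _)
        have h8 : n0 + n1 + 4 < 2 ^ (n0 + n1 + 4) := Nat.lt_two_pow_self
        omega
  · have hlog2 : 2 ≤ Nat.log 2 n := (Nat.le_log_iff_pow_le one_lt_two (by omega)).2 (by omega)
    have hDn : Nat.log 2 n ^ a * (Nat.log 2 n + 1) < n := hn1 n (by omega)
    have hm1 : 1 ≤ Nat.log 2 n ^ a := Nat.one_le_pow _ _ hlog1
    have hDN : Nat.log 2 n ^ a * (Nat.log 2 n + 1) < N := by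
      have h3 : Nat.log 2 n ^ (a + 1) ≤ Nat.size (n - 1) ^ (a + 1) := Nat.pow_le_pow_left hsz _
      have h4 : Nat.log 2 n ^ a * (Nat.log 2 n + 1) = Nat.log 2 n ^ (a + 1) + Nat.log 2 n ^ a := by ring
      have h5 : Nat.log 2 n ^ a ≤ Nat.log 2 n ^ (a + 1) := Nat.pow_le_pow_right hlog1 (Nat.le_succ a)
      omega
    have hbot : ∀ j, Nat.log 2 n ^ a * (Nat.log 2 n + 1) ≤ j → seqR Z n G j = ⊥ := fun j hj =>
      seqR_bot (Good := Good n) (hGood n) hm1 (fun G hG => h2 n G (by omega) hG) hgood hj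
    have hgr : ∀ j : Fin n, gr T j = seqR Z n G j := by
      intro j
      rw [hTd, gr_tabT]
      split_ifs with h3
      · rfl
      · exact (hbot j (by omega)).symm
    have h3 := tabQ_max (n := n) (F := F) (k := Nat.log 2 n ^ (e + 1 + (n0 + n1 + 4))) (fun G M h => ⟨(hS n G M h).1, (hS n G M h).2.2.1⟩)
      (Z := Z) (G := G) (T := T) hTanti hDn (fun j hj => by rw [hgr]; exact hbot _ hj)
      (fun j hj => by rw [hgr, hgr]; rfl)
      (fun j hj x => by
        rw [hgr]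
        have h4 := h1 n (seqR Z n G j) (by omega) (hGood n _ _ hgood (seqR_anti Z n G j)) x
        have h5 : Nat.log 2 n ^ e < Nat.log 2 n ^ (e + 1 + (n0 + n1 + 4)) := Nat.pow_lt_pow_right hlog2 (by omega)
        exact lt_of_le_of_lt h4 h5)
      N ⟨0, by omega⟩ (by show _ ≤ N + 0; omega)
    rw [hT0] at h3
    have hMM : M = gr (tabQ F N n (G, fun _ => T)) ⟨0, by omega⟩ := by
      rw [hMd, grN_lt (by omega)]
    have hMmax : IsMaxMat G M := by
      rw [hMM]
      exact h3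
    rw [(hS n G M hM).2.1.2 hMmax]
    exact hMmax

end Pool.Agent.TWR
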