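import Pool.Agent.Lib.MP_0087d5_lc.EXA.MainE
import Pool.Agent.Lib.MP_0087d5_lc.LF.Param
import Pool.Agent.Lib.MP_0087d5_lc.TW.RecComb

/-!
# The recursion over separators: programs

`it_rel`: iterating an operator on relations `k * Nat.size (n - 1) ^ c` times. `ncp_fst`: a graph function applied to all components in parallel. `op1`: one step for the table of the graphs from which the separators have been removed,
`op2`: one step for the table of the matchings of these graphs. `fin_ncp`: the program of the whole recursion.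
-/

set_option autoImplicit false
set_option linter.all false

namespace Pool.Agent.TWR

open Relation Pool.Agent.UPM Pool.Agent.AUG

/-! ### Iteration -/

section iter

variable {S : ℕ → Type} {B : Readers S} {κ : Type}

theorem rel_comp {A D : ∀ n, S n → ((κ → Fin n) → Prop) → (κ → Fin n) → Prop}
    (hA : NCP (fun n => S n × RelF κ Unit n) (Ext B κ Unit) κ (fun n s x => A n s.1 (s.2 ()) x))
    (hD : NCP (fun n => S n × RelF κ Unit n) (Ext B κ Unit) κ (fun n s x => D n s.1 (s.2 ()) x)) :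
    NCP (fun n => S n × RelF κ Unit n) (Ext B κ Unit) κ (fun n s x => A n s.1 (D n s.1 (s.2 ())) x) := by
  refine NCP.pull (S := fun n => S n × RelF κ Unit n) (B := Ext B κ Unit) (S' := fun n => S n × RelF κ Unit n)
    (fun n (s : S n × RelF κ Unit n) => ((s.1, fun _ => D n s.1 (s.2 ())) : S n × RelF κ Unit n)) (fun ι hι P hP => ?_) hA
  cases hP with
  | old hP => exact NCP.base hι (Ext.old hP)
  | new f => exact hD

theorem rel_size {A : ∀ n, S n → ((κ → Fin n) → Prop) → (κ → Fin n) → Prop}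
    (hA : NCP (fun n => S n × RelF κ Unit n) (Ext B κ Unit) κ (fun n s x => A n s.1 (s.2 ()) x)) :
    NCP (fun n => S n × RelF κ Unit n) (Ext B κ Unit) κ (fun n s x => (A n s.1)^[Nat.size (n - 1)] (s.2 ()) x) := by
  have hκ : Finite κ := hA.finite
  have hF : ∀ _ : Unit, NCP (fun n => (S n × RelF κ Unit n) × RelF κ Unit n) (Ext (Ext B κ Unit) κ Unit) κ
      (fun n s x => A n s.1.1 (s.2 ()) x) := fun _ => by
    refine NCP.pull (S := fun n => S n × RelF κ Unit n) (B := Ext B κ Unit) (S' := fun n => (S n × RelF κ Unit n) × RelF κ Unit n)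
      (fun n (s : (S n × RelF κ Unit n) × RelF κ Unit n) => ((s.1.1, s.2) : S n × RelF κ Unit n)) (fun ι hι P hP => ?_) hA
    cases hP with
    | old hP => exact NCP.base hι (Ext.old (Ext.old hP))
    | new f => exact NCP.base hι (Ext.new f)
  have hH : ∀ _ : Unit, NCP (fun n => S n × RelF κ Unit n) (Ext B κ Unit) κ (fun n s x => s.2 () x) :=
    fun _ => NCP.base hκ (Ext.new ())
  have h := NCP.iter (S := fun n => S n × RelF κ Unit n) (B := Ext B κ Unit) (κ := κ) (Fl := Unit) inferInstance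
    (H := fun _ n s x => s.2 () x) (F := fun _ n s x => A n s.1.1 (s.2 ()) x) hH hF ()
  refine h.congr fun n s x => ?_
  have key : ∀ j : ℕ, ((fun (R : RelF κ Unit n) (_ : Unit) (x : κ → Fin n) => A n s.1 (R ()) x)^[j] (fun _ x => s.2 () x)) =
      fun _ x => (A n s.1)^[j] (s.2 ()) x := by
    intro j
    induction j with
    | zero => rfl
    | succ j ihj =>
      rw [Function.iterate_succ_apply', ihj, Function.iterate_succ_apply']
  exact iff_of_eq (congrFun (congrFun (key (Nat.size (n - 1))) ()) x)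

/-- Iterating an operator on relations. -/
theorem it_rel {A : ∀ n, S n → ((κ → Fin n) → Prop) → (κ → Fin n) → Prop}
    (hA : NCP (fun n => S n × RelF κ Unit n) (Ext B κ Unit) κ (fun n s x => A n s.1 (s.2 ()) x)) (k c : ℕ) :
    NCP (fun n => S n × RelF κ Unit n) (Ext B κ Unit) κ (fun n s x => (A n s.1)^[k * Nat.size (n - 1) ^ c] (s.2 ()) x) := by
  have hpow : NCP (fun n => S n × RelF κ Unit n) (Ext B κ Unit) κ (fun n s x => (A n s.1)^[Nat.size (n - 1) ^ c] (s.2 ()) x) := by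
    induction c with
    | zero => exact hA
    | succ c ih =>
      have h := rel_size (A := fun n s => (A n s)^[Nat.size (n - 1) ^ c]) ih
      refine h.congr fun n s x => ?_
      rw [pow_succ, Function.iterate_mul]
  induction k with
  | zero =>
    have h : NCP (fun n => S n × RelF κ Unit n) (Ext B κ Unit) κ (fun n s x => s.2 () x) := NCP.base hA.finite (Ext.new ())
    refine h.congr fun n s x => ?_
    rw [Nat.zero_mul, Function.iterate_zero_apply]
  | succ k ih =>
    have h := rel_comp (A := fun n s => (A n s)^[Nat.size (n - 1) ^ c]) (D := fun n s => (A n s)^[k * Nat.size (n - 1) ^ c]) hpow ih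
    refine h.congr fun n s x => ?_
    rw [Nat.succ_mul, Nat.add_comm, Function.iterate_add_apply]

/-- Iterating an operator on relations, starting with the empty relation. -/
theorem it_rel0 {A : ∀ n, S n → ((κ → Fin n) → Prop) → (κ → Fin n) → Prop}
    (hA : NCP (fun n => S n × RelF κ Unit n) (Ext B κ Unit) κ (fun n s x => A n s.1 (s.2 ()) x)) (k c : ℕ) :
    NCP S B κ (fun n s x => (A n s)^[k * Nat.size (n - 1) ^ c] (fun _ => False) x) := by
  have h := it_rel hA k c
  refine NCP.pull (S := fun n => S n × RelF κ Unit n) (B := Ext B κ Unit) (S' := S) (B' := B)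
    (fun n (s : S n) => ((s, fun _ _ => False) : S n × RelF κ Unit n)) (fun ι hι P hP => ?_) h
  cases hP with
  | old hP => exact NCP.base hι hP
  | new f => exact NCP.const hι False

end iter

/-! ### Graph functions on components -/

/-- Reachability is a program. -/
theorem ncp_reach {S : ℕ → Type} {B : Readers S} {H : ∀ n, S n → SimpleGraph (Fin n)}
    (h : NCP S B (Fin 2) (fun n s x => (H n s).Adj (x 0) (x 1))) {ι : Type} (hι : Finite ι) (i j : ι) :
    NCP S B ι (fun n s z => (H n s).Reachable (z i) (z j)) := by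
  have h1 : NCP S B (Option (Option Empty)) (fun n s z => (H n s).Adj (z (some none)) (z none)) :=
    NCP.rel2 (R := fun n s a b => (H n s).Adj a b) inferInstance h (some none) none
  have h2 := NCP.tc1 (ι := Empty) inferInstance (Q := fun n s _ a b => (H n s).Adj a b) h1
  have h3 : NCP S B ι (fun n s z => TransGen (H n s).Adj (z i) (z j)) :=
    NCP.comap hι (fun o : Option (Option Empty) => match o with
      | some (some e) => e.elim
      | some none => i
      | none => j) h2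
  refine (NCP.or (NCP.eq hι i j) h3).congr fun n s z => ?_
  rw [SimpleGraph.reachable_iff_reflTransGen, reflTransGen_iff_eq_or_transGen]
  exact or_congr_left eq_comm

/-- The graph function `F` applied to the component of `x`. -/
def app (F : ∀ n : ℕ, SimpleGraph (Fin n) → SimpleGraph (Fin n) → SimpleGraph (Fin n)) (n : ℕ) (H M : SimpleGraph (Fin n)) (x : Fin n) :
    SimpleGraph (Fin n) := F n (rs H (cmp H x)) (rs M (cmp H x))

/-- The graph function `F` applied to all components. -/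
def fst (F : ∀ n : ℕ, SimpleGraph (Fin n) → SimpleGraph (Fin n) → SimpleGraph (Fin n)) (n : ℕ) (H M : SimpleGraph (Fin n)) :
    SimpleGraph (Fin n) := glue (app F n H M)

theorem ncp_fst {F : ∀ n : ℕ, SimpleGraph (Fin n) → SimpleGraph (Fin n) → SimpleGraph (Fin n)}
    (hF : NCP GS2 GB2 (Fin 2) (fun n s x => (F n s.1 s.2).Adj (x 0) (x 1))) :
    NCP GS2 GB2 (Fin 2) (fun n s x => (fst F n s.1 s.2).Adj (x 0) (x 1)) := by
  have hr : ∀ i j : Fin 1 ⊕ Fin 2, NCP GS2 GB2 (Fin 1 ⊕ Fin 2) (fun n s z => s.1.Reachable (z i) (z j)) := fun i j =>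
    ncp_reach (H := fun n (s : GS2 n) => s.1) (NCP.base inferInstance GB2.fst) inferInstance i j
  have h1 : NCP GS2 GB2 (Fin 1 ⊕ Fin 2) (fun n s z => (app F n s.1 s.2 (z (Sum.inl 0))).Adj (z (Sum.inr 0)) (z (Sum.inr 1))) := by
    refine LF.param (S := GS2) (B := GB2) (S' := GS2) (B' := GB2) (π := Fin 1) hF inferInstance
      (fun n (s : GS2 n) p => ((rs s.1 (cmp s.1 (p 0)), rs s.2 (cmp s.1 (p 0))) : GS2 n)) (fun ι hι P hP => ?_)
    cases hP with
    | fst =>
      have h2 : NCP GS2 GB2 (Fin 1 ⊕ Fin 2) (fun n s z => s.1.Adj (z (Sum.inr 0)) (z (Sum.inr 1))) :=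
        NCP.rel2 (R := fun n (s : GS2 n) a b => s.1.Adj a b) inferInstance (NCP.base inferInstance GB2.fst) _ _
      exact NCP.and h2 (NCP.and (hr (Sum.inl 0) (Sum.inr 0)) (hr (Sum.inl 0) (Sum.inr 1)))
    | snd =>
      have h2 : NCP GS2 GB2 (Fin 1 ⊕ Fin 2) (fun n s z => s.2.Adj (z (Sum.inr 0)) (z (Sum.inr 1))) :=
        NCP.rel2 (R := fun n (s : GS2 n) a b => s.2.Adj a b) inferInstance (NCP.base inferInstance GB2.snd) _ _
      exact NCP.and h2 (NCP.and (hr (Sum.inl 0) (Sum.inr 0)) (hr (Sum.inl 0) (Sum.inr 1)))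
  have h2 : NCP GS2 GB2 (Fin 2) (fun n s x => (app F n s.1 s.2 (x 0)).Adj (x 0) (x 1)) :=
    NCP.comap inferInstance (Sum.elim (fun _ => 0) ![0, 1]) h1
  have h3 : NCP GS2 GB2 (Fin 2) (fun n s x => (app F n s.1 s.2 (x 1)).Adj (x 1) (x 0)) :=
    NCP.comap inferInstance (Sum.elim (fun _ => 1) ![1, 0]) h1
  refine (NCP.and (NCP.not (NCP.eq inferInstance 0 1)) (NCP.or h2 h3)).congr fun n s x => ?_
  unfold fst glue
  rw [SimpleGraph.fromRel_adj]

/-! ### Tables of graphs -/

/-- The graph in row `j` of the table `T`. -/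
def gr {n : ℕ} (T : (Fin 3 → Fin n) → Prop) (j : Fin n) : SimpleGraph (Fin n) := SimpleGraph.fromRel (fun u v => T ![j, u, v])

theorem ncp_gr {S : ℕ → Type} {B : Readers S} {T : ∀ n, S n → (Fin 3 → Fin n) → Prop} (h : NCP S B (Fin 3) (fun n s x => T n s x))
    {ι : Type} (hι : Finite ι) (j a b : ι) : NCP S B ι (fun n s z => (gr (T n s) (z j)).Adj (z a) (z b)) := by
  have h1 : NCP S B ι (fun n s z => T n s ![z j, z a, z b]) := by
    refine (NCP.comap hι ![j, a, b] h).congr fun n s z => ?_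
    have e : (fun i => z (![j, a, b] i)) = ![z j, z a, z b] := by
      funext i
      fin_cases i <;> rfl
    rw [e]
  have h2 : NCP S B ι (fun n s z => T n s ![z j, z b, z a]) := by
    refine (NCP.comap hι ![j, b, a] h).congr fun n s z => ?_
    have e : (fun i => z (![j, b, a] i)) = ![z j, z b, z a] := by
      funext i
      fin_cases i <;> rfl
    rw [e]
  refine (NCP.and (NCP.not (NCP.eq hι a b)) (NCP.or h1 h2)).congr fun n s z => ?_
  unfold gr
  rw [SimpleGraph.fromRel_adj]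

/-- The graph in the row `m`, if there is one. -/
def grN {n : ℕ} (T : (Fin 3 → Fin n) → Prop) (m : ℕ) : SimpleGraph (Fin n) :=
  SimpleGraph.fromRel (fun u v => ∃ i : Fin n, (i : ℕ) = m ∧ (gr T i).Adj u v)

theorem grN_adj {n : ℕ} {T : (Fin 3 → Fin n) → Prop} {m : ℕ} {u v : Fin n} :
    (grN T m).Adj u v ↔ ∃ i : Fin n, (i : ℕ) = m ∧ (gr T i).Adj u v := by
  unfold grN
  rw [SimpleGraph.fromRel_adj]
  constructor
  · rintro ⟨-, h | ⟨i, h1, h2⟩⟩
    · exact h
    · exact ⟨i, h1, h2.symm⟩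
  · rintro ⟨i, h1, h2⟩
    exact ⟨h2.ne, Or.inl ⟨i, h1, h2⟩⟩

theorem grN_lt {n : ℕ} {T : (Fin 3 → Fin n) → Prop} {m : ℕ} (h : m < n) : grN T m = gr T ⟨m, h⟩ := by
  ext u v
  rw [grN_adj]
  constructor
  · rintro ⟨i, h1, h2⟩
    have : i = ⟨m, h⟩ := Fin.ext h1
    rwa [← this]
  · intro h1
    exact ⟨⟨m, h⟩, rfl, h1⟩

theorem grN_ge {n : ℕ} {T : (Fin 3 → Fin n) → Prop} {m : ℕ} (h : n ≤ m) : grN T m = ⊥ := by
  ext u v
  rw [grN_adj]
  constructor
  · rintro ⟨i, h1, -⟩
    have := i.2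
    omega
  · intro h1
    exact absurd h1 (by simp)

/-- The program for `grN T m` if `m` is a definable number. -/
theorem ncp_grN {S : ℕ → Type} {B : Readers S} {T : ∀ n, S n → (Fin 3 → Fin n) → Prop} (h : NCP S B (Fin 3) (fun n s x => T n s x))
    {ι : Type} (hι : Finite ι) (m : ∀ n, (ι → Fin n) → ℕ) (hm : NCP S B (Option ι) (fun n s z => (z none : ℕ) = m n (fun i => z (some i)))) (a b : ι) :
    NCP S B ι (fun n s z => (grN (T n s) (m n z)).Adj (z a) (z b)) := by
  have h1 : NCP S B (Option ι) (fun n s z => (gr (T n s) (z none)).Adj (z (some a)) (z (some b))) := ncp_gr h inferInstance _ _ _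
  refine (NCP.ex1 (R := fun n s z i => (i : ℕ) = m n z ∧ (gr (T n s) i).Adj (z a) (z b)) (NCP.and hm h1)).congr fun n s z => ?_
  rw [grN_adj]

/-! ### The two operators -/

/-- One step for the table of the graphs: row `0` is `G`, in the row `j + 1` the separators of the row `j` are removed. -/
def op1 (Z : ∀ n : ℕ, SimpleGraph (Fin n) → Set (Fin n)) (n : ℕ) (G : SimpleGraph (Fin n)) (T : (Fin 3 → Fin n) → Prop) (x : Fin 3 → Fin n) : Prop :=
  ((x 0 : ℕ) = 0 ∧ G.Adj (x 1) (x 2)) ∨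
    ∃ i : Fin n, (x 0 : ℕ) = (i : ℕ) + 1 ∧ (del (gr T i) (Z n (gr T i))).Adj (x 1) (x 2)

theorem ncp_op1 {Z : ∀ n : ℕ, SimpleGraph (Fin n) → Set (Fin n)} (hZ : NCP GS GB (Fin 1) (fun n G x => x 0 ∈ Z n G)) :
    NCP (fun n => GS n × RelF (Fin 3) Unit n) (Ext GB (Fin 3) Unit) (Fin 3) (fun n s x => op1 Z n s.1 (s.2 ()) x) := by
  have hG : NCP (fun n => GS n × RelF (Fin 3) Unit n) (Ext GB (Fin 3) Unit) (Fin 2) (fun n s x => s.1.Adj (x 0) (x 1)) :=
    NCP.base inferInstance (Ext.old GB.adj)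
  have hT : NCP (fun n => GS n × RelF (Fin 3) Unit n) (Ext GB (Fin 3) Unit) (Fin 3) (fun n s x => s.2 () x) :=
    NCP.base inferInstance (Ext.new ())
  have h1 : NCP (fun n => GS n × RelF (Fin 3) Unit n) (Ext GB (Fin 3) Unit) (Fin 3) (fun n s x => s.1.Adj (x 1) (x 2)) :=
    NCP.rel2 (R := fun n (s : GS n × RelF (Fin 3) Unit n) a b => s.1.Adj a b) inferInstance hG 1 2
  have h2 : NCP (fun n => GS n × RelF (Fin 3) Unit n) (Ext GB (Fin 3) Unit) (Fin 1 ⊕ Fin 1)
      (fun n s z => z (Sum.inr 0) ∈ Z n (gr (s.2 ()) (z (Sum.inl 0)))) := by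
    refine LF.param (S := GS) (B := GB) (S' := fun n => GS n × RelF (Fin 3) Unit n) (B' := Ext GB (Fin 3) Unit) (π := Fin 1) hZ inferInstance
      (fun n (s : GS n × RelF (Fin 3) Unit n) p => gr (s.2 ()) (p 0)) (fun ι hι P hP => ?_)
    cases hP with
    | adj =>
      exact ncp_gr (T := fun n (s : GS n × RelF (Fin 3) Unit n) => s.2 ()) hT inferInstance (Sum.inl 0) (Sum.inr 0) (Sum.inr 1)
  have h3 : ∀ a : Option (Fin 3), NCP (fun n => GS n × RelF (Fin 3) Unit n) (Ext GB (Fin 3) Unit) (Option (Fin 3))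
      (fun n s z => z a ∈ Z n (gr (s.2 ()) (z none))) := fun a =>
    NCP.comap inferInstance (Sum.elim (fun _ => none) (fun _ => a)) h2
  have h4 : NCP (fun n => GS n × RelF (Fin 3) Unit n) (Ext GB (Fin 3) Unit) (Option (Fin 3))
      (fun n s z => (gr (s.2 ()) (z none)).Adj (z (some 1)) (z (some 2))) :=
    ncp_gr (T := fun n (s : GS n × RelF (Fin 3) Unit n) => s.2 ()) hT inferInstance _ _ _
  have h5 : NCP (fun n => GS n × RelF (Fin 3) Unit n) (Ext GB (Fin 3) Unit) (Option (Fin 3))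
      (fun n s z => (z (some 0) : ℕ) = (z none : ℕ) + 1) := NCP.succ inferInstance _ _
  exact NCP.or (NCP.and (NCP.zero inferInstance 0) h1) (NCP.ex1
    (R := fun n (s : GS n × RelF (Fin 3) Unit n) x i => (x 0 : ℕ) = (i : ℕ) + 1 ∧ (del (gr (s.2 ()) i) (Z n (gr (s.2 ()) i))).Adj (x 1) (x 2))
    (NCP.and h5 (NCP.and h4 (NCP.and (NCP.not (h3 (some 1))) (NCP.not (h3 (some 2)))))))

/-- One step for the table of the matchings: the matching of the row `j + 1` is improved in the components of the graph of the row `j`. -/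
def op2 (F : ∀ n : ℕ, SimpleGraph (Fin n) → SimpleGraph (Fin n) → SimpleGraph (Fin n)) (n : ℕ) (s : GS n × RelF (Fin 3) Unit n) (Q : (Fin 3 → Fin n) → Prop)
    (x : Fin 3 → Fin n) : Prop := (fst F n (gr (s.2 ()) (x 0)) (grN Q ((x 0 : ℕ) + 1))).Adj (x 1) (x 2)

theorem ncp_op2 {F : ∀ n : ℕ, SimpleGraph (Fin n) → SimpleGraph (Fin n) → SimpleGraph (Fin n)}
    (hF : NCP GS2 GB2 (Fin 2) (fun n s x => (F n s.1 s.2).Adj (x 0) (x 1))) :
    NCP (fun n => (GS n × RelF (Fin 3) Unit n) × RelF (Fin 3) Unit n) (Ext (Ext GB (Fin 3) Unit) (Fin 3) Unit) (Fin 3)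
      (fun n s x => op2 F n s.1 (s.2 ()) x) := by
  have hT : NCP (fun n => (GS n × RelF (Fin 3) Unit n) × RelF (Fin 3) Unit n) (Ext (Ext GB (Fin 3) Unit) (Fin 3) Unit) (Fin 3)
      (fun n s x => s.1.2 () x) := NCP.base inferInstance (Ext.old (Ext.new ()))
  have hQ : NCP (fun n => (GS n × RelF (Fin 3) Unit n) × RelF (Fin 3) Unit n) (Ext (Ext GB (Fin 3) Unit) (Fin 3) Unit) (Fin 3)
      (fun n s x => s.2 () x) := NCP.base inferInstance (Ext.new ())
  have h1 : NCP (fun n => (GS n × RelF (Fin 3) Unit n) × RelF (Fin 3) Unit n) (Ext (Ext GB (Fin 3) Unit) (Fin 3) Unit) (Fin 1 ⊕ Fin 2)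
      (fun n s z => (fst F n (gr (s.1.2 ()) (z (Sum.inl 0))) (grN (s.2 ()) ((z (Sum.inl 0) : ℕ) + 1))).Adj (z (Sum.inr 0)) (z (Sum.inr 1))) := by
    refine LF.param (S := GS2) (B := GB2) (S' := fun n => (GS n × RelF (Fin 3) Unit n) × RelF (Fin 3) Unit n)
      (B' := Ext (Ext GB (Fin 3) Unit) (Fin 3) Unit) (π := Fin 1) (ncp_fst hF) inferInstance
      (fun n (s : (GS n × RelF (Fin 3) Unit n) × RelF (Fin 3) Unit n) p =>
        ((gr (s.1.2 ()) (p 0), grN (s.2 ()) ((p 0 : ℕ) + 1)) : GS2 n)) (fun ι hι P hP => ?_)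
    cases hP with
    | fst =>
      exact ncp_gr (T := fun n (s : (GS n × RelF (Fin 3) Unit n) × RelF (Fin 3) Unit n) => s.1.2 ()) hT inferInstance (Sum.inl 0) (Sum.inr 0) (Sum.inr 1)
    | snd =>
      exact ncp_grN (T := fun n (s : (GS n × RelF (Fin 3) Unit n) × RelF (Fin 3) Unit n) => s.2 ()) hQ (ι := Fin 1 ⊕ Fin 2) inferInstance
        (fun n z => (z (Sum.inl 0) : ℕ) + 1) (NCP.succ inferInstance _ _) (Sum.inr 0) (Sum.inr 1)
  exact NCP.comap inferInstance (Sum.elim (fun _ => 0) ![1, 2]) h1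

/-! ### The whole recursion -/

/-- The table of the graphs after `N` steps. -/
def tabT (Z : ∀ n : ℕ, SimpleGraph (Fin n) → Set (Fin n)) (N n : ℕ) (G : SimpleGraph (Fin n)) : (Fin 3 → Fin n) → Prop :=
  (op1 Z n G)^[N] (fun _ => False)

/-- The table of the matchings after `N` steps. -/
def tabQ (F : ∀ n : ℕ, SimpleGraph (Fin n) → SimpleGraph (Fin n) → SimpleGraph (Fin n)) (N n : ℕ) (s : GS n × RelF (Fin 3) Unit n) : (Fin 3 → Fin n) → Prop :=
  (op2 F n s)^[N] (fun _ => False)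

/-- The result of the recursion. -/
def fin (Z : ∀ n : ℕ, SimpleGraph (Fin n) → Set (Fin n)) (F : ∀ n : ℕ, SimpleGraph (Fin n) → SimpleGraph (Fin n) → SimpleGraph (Fin n)) (N : ℕ → ℕ) (n : ℕ)
    (G : SimpleGraph (Fin n)) : SimpleGraph (Fin n) :=
  F n G (grN (tabQ F (N n) n (G, fun _ => tabT Z (N n) n G)) 0)

theorem fin_ncp {Z : ∀ n : ℕ, SimpleGraph (Fin n) → Set (Fin n)} (hZ : NCP GS GB (Fin 1) (fun n G x => x 0 ∈ Z n G))
    {F : ∀ n : ℕ, SimpleGraph (Fin n) → SimpleGraph (Fin n) → SimpleGraph (Fin n)}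
    (hF : NCP GS2 GB2 (Fin 2) (fun n s x => (F n s.1 s.2).Adj (x 0) (x 1))) (k c : ℕ) :
    NCP GS GB (Fin 2) (fun n G x => (fin Z F (fun n => k * Nat.size (n - 1) ^ c) n G).Adj (x 0) (x 1)) := by
  have h1 : NCP GS GB (Fin 3) (fun n G x => tabT Z (k * Nat.size (n - 1) ^ c) n G x) :=
    it_rel0 (A := fun n G => op1 Z n G) (ncp_op1 hZ) k c
  have h2 : NCP (fun n => GS n × RelF (Fin 3) Unit n) (Ext GB (Fin 3) Unit) (Fin 3)
      (fun n s x => tabQ F (k * Nat.size (n - 1) ^ c) n s x) :=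
    it_rel0 (A := fun n s => op2 F n s) (ncp_op2 hF) k c
  have h3 : NCP GS GB (Fin 3) (fun n G x => tabQ F (k * Nat.size (n - 1) ^ c) n (G, fun _ => tabT Z (k * Nat.size (n - 1) ^ c) n G) x) := by
    refine NCP.pull (S := fun n => GS n × RelF (Fin 3) Unit n) (B := Ext GB (Fin 3) Unit) (S' := GS) (B' := GB)
      (fun n (G : GS n) => ((G, fun _ => tabT Z (k * Nat.size (n - 1) ^ c) n G) : GS n × RelF (Fin 3) Unit n)) (fun ι hι P hP => ?_) h2
    cases hP with
    | old hP => exact NCP.base hι hP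
    | new f => exact h1
  refine NCP.pull (S := GS2) (B := GB2) (S' := GS) (B' := GB)
    (fun n (G : GS n) => ((G, grN (tabQ F (k * Nat.size (n - 1) ^ c) n (G, fun _ => tabT Z (k * Nat.size (n - 1) ^ c) n G)) 0) : GS2 n))
    (fun ι hι P hP => ?_) hF
  cases hP with
  | fst => exact NCP.base inferInstance GB.adj
  | snd =>
    exact ncp_grN (T := fun n (G : GS n) => tabQ F (k * Nat.size (n - 1) ^ c) n (G, fun _ => tabT Z (k * Nat.size (n - 1) ^ c) n G)) h3
      (ι := Fin 2) inferInstance (fun n z => 0) (NCP.zero inferInstance _) 0 1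

end Pool.Agent.TWR
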