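import Pool.Agent.Lib.MP_0087d5_lc.TW.Dbl
import Pool.Agent.Lib.MP_0087d5_lc.TW.Base
import Pool.Agent.Lib.MP_0087d5_lc.SUB.KDefs

/-!
# Balanced separators of small size: the definitions (second part)

`kcut`: the canonical separating set of two sets, from a maximum matching of a bipartite graph on twice as many points (König). `SepK`: the separator of `TW.Base` with this cut.
-/

set_option autoImplicit false
set_option linter.all false

namespace Pool.Agent.TW

open Relation Pool.Agent.AUG Pool.Agent.SUB

variable {n : ℕ}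

section koenig

variable (H : SimpleGraph (Fin n)) (A B : Set (Fin n))

/-- The edges from the left copy of `u` to the right copy of `v`. -/
def bE (u v : Fin n) : Prop := u ∉ B ∧ v ∉ A ∧ (u = v ∨ H.Adj u v)

/-- A relation as a bipartite graph on the two copies of the points. -/
def bip (E : Fin n → Fin n → Prop) : SimpleGraph (Fin (2 * n)) where
  Adj x y := (prt x = 0 ∧ prt y = 1 ∧ E (hlf x) (hlf y)) ∨ (prt y = 0 ∧ prt x = 1 ∧ E (hlf y) (hlf x))
  symm := ⟨fun _ _ h => h.symm⟩
  loopless := ⟨fun x h => by
    rcases h with ⟨h1, h2, -⟩ | ⟨h1, h2, -⟩ <;> rw [h1] at h2 <;> exact absurd h2 (by decide)⟩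

/-- The graph for `A` and `B`. -/
def bG : SimpleGraph (Fin (2 * n)) := bip (bE H A B)

/-- The first matching. -/
def bM : SimpleGraph (Fin (2 * n)) := bip (fun u v => u ∉ B ∧ v ∉ A ∧ u = v)

/-- The matching after `t` augmentations. -/
def bN (t : ℕ) : SimpleGraph (Fin (2 * n)) := (sAug (2 * n) (bG H A B))^[t] (bM A B)

/-- One step of an alternating walk, from a left copy to a left copy. -/
def aSt (N : SimpleGraph (Fin (2 * n))) (u w : Fin n) : Prop := ∃ v, bE H A B u v ∧ N.Adj (dbl w 0) (dbl v 1)

/-- The left copies that can be reached from an unmatched one. -/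
def zL (N : SimpleGraph (Fin (2 * n))) (w : Fin n) : Prop :=
  ∃ u, u ∉ B ∧ (∀ v, ¬ N.Adj (dbl u 0) (dbl v 1)) ∧ ReflTransGen (aSt H A B N) u w

/-- The right copies that can be reached. -/
def zR (N : SimpleGraph (Fin (2 * n))) (v : Fin n) : Prop := ∃ u, zL H A B N u ∧ bE H A B u v

/-- The separating set belonging to the matching `N`. -/
def kX (N : SimpleGraph (Fin (2 * n))) : Set (Fin n) :=
  {v | (v ∈ A ∧ v ∈ B) ∨ (v ∈ A ∧ v ∉ B ∧ ¬ zL H A B N v) ∨ (v ∉ A ∧ v ∈ B ∧ zR H A B N v) ∨
    (v ∉ A ∧ v ∉ B ∧ ¬ zL H A B N v ∧ zR H A B N v)}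

open Classical in
/-- The canonical separating set of `A` and `B` with at most `k` elements, if there is one (`t > k` augmentations). -/
noncomputable def kcut (t k : ℕ) : Set (Fin n) :=
  if (kX H A B (bN H A B t)).ncard ≤ k then kX H A B (bN H A B t) else ∅

end koenig

/-- The vertices that are removed in one round (`t > k`). -/
abbrev newS (G H : SimpleGraph (Fin n)) (k t : ℕ) : Set (Fin n) := newG G H k (fun A B => kcut H A B t k)

/-- One round: `S` is the set of the vertices which have been removed. -/
abbrev stepS (G : SimpleGraph (Fin n)) (k t : ℕ) (S : Set (Fin n)) : Set (Fin n) := stepG G k (fun H A B => kcut H A B t k) S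

/-- The separators of all components of `G`, after `R` rounds. -/
abbrev SepK (G : SimpleGraph (Fin n)) (k t R : ℕ) : Set (Fin n) := SepG G k (fun H A B => kcut H A B t k) R

end Pool.Agent.TW
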