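import Pool.Agent.Lib.MP_0087d5_lc.TW.Base

/-!
# T2: a tree decomposition gives balanced separators (jobs TwD1: `tree_next`, `tree_two`, `tree_no`; TwD2: `bag_side`, `tw_half`; TwD3: `hbal_of_tw`, `hbal_log`)

`del`, `cmp` are also used for the tree `T` on `Fin m`.
`tree_next`: a path `p` from `i` to `j` in `T` (connected, `SimpleGraph.Walk.toPath`), `i ≠ j`: `p = cons (h : T.Adj i a) q` and `i ∉ q.support`, so `q` is a walk from `a` to `j` in `del T {i}` (induction on the walk
or `SimpleGraph.Walk.transfer`).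
`tree_two`: the map `i ↦ s(i, f i)` from `Fin m` to `T.edgeFinset` is not injective since `T.edgeFinset.card + 1 = m` (`SimpleGraph.IsTree.card_edgeFinset`; `classical`). So `s(i, f i) = s(j, f j)` with `i ≠ j`, so `j = f i` and
`f j = i`.
`tree_no`: `T` is acyclic, so the edge `s(i, a)` is a bridge (`SimpleGraph.isAcyclic_iff_forall_adj_isBridge`, `SimpleGraph.isBridge_iff`): `i`, `a` are not connected in `T \ fromEdgeSet {s(i, a)}`. But `(del T {i}).Reachable a j` and
`(del T {a}).Reachable i j` give connections `a ~ j`, `j ~ i` without this edge (`del T {i}`, `del T {a}` are subgraphs of `T \ fromEdgeSet {s(i, a)}`; `SimpleGraph.Reachable.mono`).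
`bag_side`: all bags which contain a vertex `u` of the component of `v` in `del G (B i)` (`v ∉ B i`) are in one component of `del T {i}`. Induction on the connection from `v` to `u` (`SimpleGraph.reachable_iff_reflTransGen`):
for `u = v`: `j`, `j'` in `{l | v ∈ B l}`, which is connected in `T` and does not contain `i`: a walk in `T.induce {l | v ∈ B l}` gives a walk in `del T {i}` (`SimpleGraph.Reachable.map` for a homomorphism
`T.induce {l | v ∈ B l} →g del T {i}`). Step `u ~ u'` (adjacent in `del G (B i)`, so `u, u' ∉ B i`): there is `l` with `u, u' ∈ B l`; a bag `j'` of `u'` is connected with `l` (in `del T {i}`, as before), and `l` with `j`.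
`tw_half`: otherwise for every `i` there is `v i` with `W.ncard < 2 * (W ∩ cmp (del G (B i)) (v i)).ncard` and `v i ∉ B i`. Choose a bag `j i` with `v i ∈ B (j i)`, `j i ≠ i`; `tree_next` gives `f i` adjacent to `i` with
`(del T {i}).Reachable (f i) (j i)`. By `bag_side` all bags `l` of vertices `u` of `K i = cmp (del G (B i)) (v i)` satisfy `(del T {i}).Reachable (f i) l`. `tree_two` gives `i`, `a = f i` with `f a = i`. `W ∩ K i` and `W ∩ K a` have together
more than `W.ncard` elements, so they have a common element `u`; `u` is in a bag `l`; `tree_no` gives a contradiction.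
`hbal_of_tw`: for `H ≤ G`, `x` apply `tw_half` to `W = cmp H x`, `X = B i`. For `y` with `H.Reachable x y`, `y ∉ X`: `cmp (del H X) y ⊆ W ∩ cmp (del G X) y`.
`hbal_log`: `(Nat.log 2 n) ^ c + 1 ≤ 2 * Nat.size (n - 1) ^ c`: for `n ≥ 2`, `Nat.log 2 n ≤ Nat.size (n - 1)` (see `mea_log` in `EXA/MainE.lean`: `2 ^ Nat.log 2 n ≤ n`, `Nat.lt_size`) and `1 ≤ Nat.size (n - 1)`.
-/

set_option autoImplicit false
set_option linter.all false

namespace Pool.Agent.TW

open Relation

variable {n m : ℕ}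

private lemma twd1_walk {T : SimpleGraph (Fin m)} {i : Fin m} : ∀ {x y : Fin m} (p : T.Walk x y), i ∉ p.support → (del T {i}).Reachable x y := by
  intro x y p
  induction p with
  | nil => exact fun _ => SimpleGraph.Reachable.refl _
  | @cons u v w h q ih =>
    intro hs
    rw [SimpleGraph.Walk.support_cons, List.mem_cons, not_or] at hs
    have hv : v ≠ i := fun hvi => hs.2 (hvi ▸ q.start_mem_support)
    have hadj : (del T {i}).Adj u v := ⟨h, fun hu => hs.1 (Set.mem_singleton_iff.1 hu).symm, fun hv' => hv (Set.mem_singleton_iff.1 hv')⟩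
    exact hadj.reachable.trans (ih hs.2)

theorem tree_next {T : SimpleGraph (Fin m)} (hT : T.IsTree) {i j : Fin m} (h : i ≠ j) : ∃ a, T.Adj i a ∧ (del T {i}).Reachable a j := by
  classical
  obtain ⟨p, hp⟩ := hT.connected.preconnected.exists_isPath i j
  cases p with
  | nil => exact absurd rfl h
  | @cons u v w hadj q =>
    rw [SimpleGraph.Walk.cons_isPath_iff] at hp
    exact ⟨v, hadj, twd1_walk q hp.2⟩

theorem tree_two {T : SimpleGraph (Fin m)} (hT : T.IsTree) (f : Fin m → Fin m) (hf : ∀ i, T.Adj i (f i)) : ∃ i, f (f i) = i := by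
  classical
  by_contra hno
  push Not at hno
  have hcard := hT.card_edgeFinset
  have hmaps : ∀ i ∈ (Finset.univ : Finset (Fin m)), s(i, f i) ∈ T.edgeFinset := by
    intro i _
    rw [SimpleGraph.mem_edgeFinset, SimpleGraph.mem_edgeSet]
    exact hf i
  have hlt : T.edgeFinset.card < (Finset.univ : Finset (Fin m)).card := by
    rw [Finset.card_univ, ← hcard]
    exact Nat.lt_succ_self _
  obtain ⟨i, _, j, _, hij, heq⟩ := Finset.exists_ne_map_eq_of_card_lt_of_maps_to hlt hmaps
  have heq' : s(i, f i) = s(j, f j) := heq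
  rw [Sym2.eq_iff] at heq'
  rcases heq' with ⟨h1, _⟩ | ⟨h1, h2⟩
  · exact hij h1
  · apply hno i
    rw [h2, ← h1]

theorem tree_no {T : SimpleGraph (Fin m)} (hT : T.IsTree) {i a j : Fin m} (h : T.Adj i a) (h1 : (del T {i}).Reachable a j) (h2 : (del T {a}).Reachable i j) : False := by
  classical
  have hb := (SimpleGraph.isAcyclic_iff_forall_adj_isBridge.1 hT.isAcyclic) h
  rw [SimpleGraph.isBridge_iff] at hb
  have hle1 : del T {i} ≤ T \ SimpleGraph.fromEdgeSet {s(i, a)} := by
    intro x y hxy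
    refine ⟨hxy.1, ?_⟩
    rw [SimpleGraph.fromEdgeSet_adj]
    rintro ⟨h3, _⟩
    rw [Set.mem_singleton_iff, Sym2.eq_iff] at h3
    rcases h3 with ⟨h4, _⟩ | ⟨_, h4⟩
    · exact hxy.2.1 (Set.mem_singleton_iff.2 h4)
    · exact hxy.2.2 (Set.mem_singleton_iff.2 h4)
  have hle2 : del T {a} ≤ T \ SimpleGraph.fromEdgeSet {s(i, a)} := by
    intro x y hxy
    refine ⟨hxy.1, ?_⟩
    rw [SimpleGraph.fromEdgeSet_adj]
    rintro ⟨h3, _⟩
    rw [Set.mem_singleton_iff, Sym2.eq_iff] at h3
    rcases h3 with ⟨_, h4⟩ | ⟨h4, _⟩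
    · exact hxy.2.2 (Set.mem_singleton_iff.2 h4)
    · exact hxy.2.1 (Set.mem_singleton_iff.2 h4)
  exact hb ((h2.mono hle2).trans (h1.mono hle1).symm)

private theorem twd2_aux {T : SimpleGraph (Fin m)} {B : Fin m → Set (Fin n)} (hc : ∀ v, (T.induce {i | v ∈ B i}).Preconnected) {i : Fin m} {v : Fin n}
    (hv : v ∉ B i) {j l : Fin m} (hj : v ∈ B j) (hl : v ∈ B l) : (del T {i}).Reachable j l := by
  have h1 := hc v ⟨j, hj⟩ ⟨l, hl⟩
  let f : T.induce {i | v ∈ B i} →g del T {i} :=
    { toFun := fun x => x.1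
      map_rel' := by
        intro a b hab
        refine ⟨hab, ?_, ?_⟩
        · intro ha
          rw [Set.mem_singleton_iff] at ha
          exact hv (ha ▸ a.2)
        · intro hb
          rw [Set.mem_singleton_iff] at hb
          exact hv (hb ▸ b.2) }
  exact h1.map f

theorem bag_side {G : SimpleGraph (Fin n)} {T : SimpleGraph (Fin m)} {B : Fin m → Set (Fin n)} (hE : ∀ u v, G.Adj u v → ∃ i, u ∈ B i ∧ v ∈ B i)
    (hc : ∀ v, (T.induce {i | v ∈ B i}).Preconnected) {i : Fin m} {v u : Fin n} (hv : v ∉ B i) (h : (del G (B i)).Reachable v u) {j l : Fin m} (hj : v ∈ B j) (hl : u ∈ B l) :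
    (del T {i}).Reachable j l := by
  rw [SimpleGraph.reachable_iff_reflTransGen] at h
  induction h generalizing l with
  | refl => exact twd2_aux hc hv hj hl
  | @tail b c hab hbc ih =>
    obtain ⟨l', hb, hc'⟩ := hE b c hbc.1
    exact (ih hb).trans (twd2_aux hc hbc.2.2 hc' hl)

theorem tw_half {G : SimpleGraph (Fin n)} {T : SimpleGraph (Fin m)} {B : Fin m → Set (Fin n)} (hT : T.IsTree) (hV : ∀ v, ∃ i, v ∈ B i) (hE : ∀ u v, G.Adj u v → ∃ i, u ∈ B i ∧ v ∈ B i)
    (hc : ∀ v, (T.induce {i | v ∈ B i}).Preconnected) (W : Set (Fin n)) : ∃ i, ∀ v, v ∉ B i → 2 * (W ∩ cmp (del G (B i)) v).ncard ≤ W.ncard := by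
  by_contra hcon
  push Not at hcon
  choose v hv hW using hcon
  choose j hj using fun i => hV (v i)
  have hne : ∀ i, i ≠ j i := by
    intro i hi
    apply hv i
    have := hj i
    rw [← hi] at this
    exact this
  choose f hf1 hf2 using fun i => tree_next hT (hne i)
  obtain ⟨i, hi⟩ := tree_two hT f hf1
  have hside : ∀ i u l, u ∈ cmp (del G (B i)) (v i) → u ∈ B l → (del T {i}).Reachable (f i) l :=
    fun i u l hu hl => (hf2 i).trans (bag_side hE hc (hv i) hu (hj i) hl)
  have hint : ((W ∩ cmp (del G (B i)) (v i)) ∩ (W ∩ cmp (del G (B (f i))) (v (f i)))).Nonempty := by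
    by_contra hemp
    rw [Set.not_nonempty_iff_eq_empty] at hemp
    have hd : Disjoint (W ∩ cmp (del G (B i)) (v i)) (W ∩ cmp (del G (B (f i))) (v (f i))) :=
      Set.disjoint_iff_inter_eq_empty.2 hemp
    have h1 := Set.ncard_union_eq hd (Set.toFinite _) (Set.toFinite _)
    have h2 : (W ∩ cmp (del G (B i)) (v i) ∪ W ∩ cmp (del G (B (f i))) (v (f i))).ncard ≤ W.ncard :=
      Set.ncard_le_ncard (Set.union_subset Set.inter_subset_left Set.inter_subset_left) (Set.toFinite _)
    have h3 := hW i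
    have h4 := hW (f i)
    omega
  obtain ⟨u, ⟨_, hu1⟩, ⟨_, hu2⟩⟩ := hint
  obtain ⟨l, hl⟩ := hV u
  have h1 := hside i u l hu1 hl
  have h2 := hside (f i) u l hu2 hl
  rw [hi] at h2
  exact tree_no hT (hf1 i) h1 h2

theorem hbal_of_tw {G : SimpleGraph (Fin n)} {k : ℕ} (h : TwLE G k) : HBal G (k + 1) := by
  obtain ⟨m, T, B, hT, hB, hV, hE, hc⟩ := h
  intro H hH x
  obtain ⟨i, hi⟩ := tw_half hT hV hE hc (cmp H x)
  refine ⟨B i, hB i, ?_⟩
  intro y hxy hy
  have hle : del H (B i) ≤ H := fun _ _ h => h.1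
  have hle2 : del H (B i) ≤ del G (B i) := fun _ _ h => ⟨hH h.1, h.2⟩
  have hsub : cmp (del H (B i)) y ⊆ cmp H x ∩ cmp (del G (B i)) y := by
    intro z hz
    have hz' : (del H (B i)).Reachable y z := hz
    exact ⟨hxy.trans (hz'.mono hle), hz'.mono hle2⟩
  have h1 := Set.ncard_le_ncard hsub (Set.toFinite _)
  have h2 := hi y hy
  omega

theorem hbal_mono {G : SimpleGraph (Fin n)} {k l : ℕ} (h : HBal G k) (hl : k ≤ l) : HBal G l := by
  intro H hH x
  obtain ⟨X, hX, hb⟩ := h H hH x
  exact ⟨X, hX.trans hl, hb⟩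

theorem hbal_log {G : SimpleGraph (Fin n)} {c : ℕ} (hn : 2 ≤ n) (h : TwLE G (Nat.log 2 n ^ c)) : HBal G (2 * Nat.size (n - 1) ^ c) := by
  refine hbal_mono (hbal_of_tw h) ?_
  have h1 : 1 ≤ Nat.log 2 n := Nat.log_pos one_lt_two hn
  have h2 : 2 ^ Nat.log 2 n ≤ n := Nat.pow_log_le_self 2 (by omega)
  have h3 : Nat.log 2 n ≤ Nat.size (n - 1) := by
    have h4 : Nat.log 2 n - 1 < Nat.size (n - 1) := by
      rw [Nat.lt_size]
      obtain ⟨l, hl⟩ : ∃ l, Nat.log 2 n = l + 1 := ⟨Nat.log 2 n - 1, by omega⟩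
      rw [hl] at h2 ⊢
      rw [pow_succ] at h2
      simp only [Nat.add_sub_cancel]
      have := Nat.one_le_two_pow (n := l)
      omega
    omega
  have h5 : Nat.log 2 n ^ c ≤ Nat.size (n - 1) ^ c := Nat.pow_le_pow_left h3 c
  have h6 : 1 ≤ Nat.size (n - 1) ^ c := Nat.one_le_pow _ _ (Nat.size_pos.2 (by omega))
  omega

end Pool.Agent.TW
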