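import Pool.Agent.Lib.MP_0087d5_lc.TW.PrgK
import Pool.Agent.Lib.MP_0087d5_lc.TW.RecFin
import Pool.Agent.Lib.MP_0087d5_lc.TW.Clm
import Pool.Agent.Lib.MP_0087d5_lc.TW.Cnt
import Pool.Agent.Lib.MP_0087d5_lc.TW.TwD

/-!
# Maximum matchings of graphs of polylogarithmic treewidth

`tw_graph`: a graph function in NC which gives a matching of every graph and a maximum matching of every graph of treewidth at most `(log n)^c`.
-/

set_option autoImplicit false
set_option linter.all false

namespace Pool.Agent.TW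

open Relation Pool.Agent.UPM Pool.Agent.AUG

/-- Maximum matchings of all graphs of treewidth at most `(log n)^c`. -/
theorem tw_graph (c : ℕ) :
    ∃ T : ∀ n : ℕ, SimpleGraph (Fin n) → SimpleGraph (Fin n), NCP GS GB (Fin 2) (fun n G x => (T n G).Adj (x 0) (x 1)) ∧
      ∀ (n : ℕ) (G : SimpleGraph (Fin n)), IsMat G (T n G) ∧ (TwLE G (Nat.log 2 n ^ c) → IsMaxMat G (T n G)) := by
  have hs : ∀ n : ℕ, 2 ≤ n → 1 ≤ Nat.size (n - 1) ^ c := fun n hn => Nat.one_le_pow _ _ (Nat.size_pos.2 (by omega))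
  have ht : ∀ n : ℕ, Nat.size (n - 1) ^ c ≤ Nat.size (2 * n - 1) ^ c := fun n =>
    Nat.pow_le_pow_left (Nat.size_le_size (by omega)) c
  refine rec_fin c (fun n G => SepG G (2 * Nat.size (n - 1) ^ c) (kc c n) (3 * Nat.size (n - 1) ^ c)) (ncp_SepG (cut := kc c) (ncp_kc c) 2 c 3)
    (fun n G => TwLE G (Nat.log 2 n ^ c)) (fun n G H h hle => twLE_le h hle) ?_ ?_
  · intro n G hn hG x y hxy hy
    have h1 := hs n hn
    have h2 := ht n
    exact sepG_bal (by omega) (by omega)
      (fun H A B ⟨Y, hY1, hY2⟩ => kcut_sp (by omega) hY1 hY2) (hbal_log hn hG) hxy hy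
  · intro n G hn x
    have h1 := hs n hn
    exact sepG_card (by omega) (fun H A B => kcut_ncard H A B _ _) x

end Pool.Agent.TW
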